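import Pool.Agent.Work.MP_27a5a0_lc.Stmts

/-!
A1. The pool of the averages is small.
-/

namespace Pool.Agent.UTSP

open Finset

theorem a1_card_ball (d G : ℕ) : (ball d G).card = (2 * G + 1) ^ d := by
  unfold ball
  rw [Fintype.card_piFinset_const, Int.card_Icc]
  congr 1
  omega

theorem prfAvgPool : claimAvgPool := by
  classical
  intro d G M U hU z
  have hT : 0 < (2 * G + 1) ^ d := by positivity
  constructor
  · have h1 : ∑ l ∈ pool G U z, cnt G U l z ≤ (2 * G + 1) ^ d * M := by
      have h2 : ∑ l ∈ pool G U z, cnt G U l z =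
          ∑ g ∈ ball d G, ((pool G U z).filter (fun l => l ∈ U (z + g))).card := by
        unfold cnt
        simp only [Finset.card_filter]
        rw [Finset.sum_comm]
      rw [h2]
      calc ∑ g ∈ ball d G, ((pool G U z).filter (fun l => l ∈ U (z + g))).card
          ≤ ∑ _g ∈ ball d G, M := by
            apply Finset.sum_le_sum
            intro g _
            refine le_trans (Finset.card_le_card ?_) (hU (z + g))
            intro l hl
            exact (Finset.mem_filter.mp hl).2
        _ = (2 * G + 1) ^ d * M := by
            rw [Finset.sum_const, a1_card_ball, smul_eq_mul]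
    have h3 : (pool G U z).card * (2 * G + 1) ^ d ≤ ∑ l ∈ pool G U z, 4 * cnt G U l z := by
      rw [← smul_eq_mul, ← Finset.sum_const]
      apply Finset.sum_le_sum
      intro l hl
      unfold pool at hl
      exact (Finset.mem_filter.mp hl).2
    rw [← Finset.mul_sum] at h3
    have h4 : (pool G U z).card * (2 * G + 1) ^ d ≤ 4 * M * (2 * G + 1) ^ d := by
      calc _ ≤ _ := h3
        _ ≤ 4 * ((2 * G + 1) ^ d * M) := by omega
        _ = _ := by ring
    exact Nat.le_of_mul_le_mul_right h4 hT
  · intro l hl
    unfold pool
    rw [Finset.mem_filter]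
    refine ⟨?_, hl⟩
    have h5 : 0 < cnt G U l z := by omega
    unfold cnt at h5
    rw [Finset.card_pos] at h5
    obtain ⟨g, hg⟩ := h5
    rw [Finset.mem_filter] at hg
    rw [Finset.mem_biUnion]
    exact ⟨g, hg.1, hg.2⟩

end Pool.Agent.UTSP
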