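import Pool.Agent.Work.MP_27a5a0_lc.Stmts

/-!
A3. Few labels of a captured set have small average.
-/

namespace Pool.Agent.UTSP

open Finset

private theorem a3_card_ball (d G : ℕ) : (ball d G).card = (2 * G + 1) ^ d := by
  unfold ball
  rw [Fintype.card_piFinset_const, Int.card_Icc]
  congr 1
  omega

theorem prfAvgCap : claimAvgCap := by
  classical
  intro d G b U z σ hσ
  have hT : 0 < (2 * G + 1) ^ d := by positivity
  set F := σ.filter (fun l => 4 * cnt G U l z < 3 * (2 * G + 1) ^ d) with hF
  have h0 : ∀ l : Pt d, cnt G U l z + ((ball d G).filter (fun g => ¬ l ∈ U (z + g))).card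
      = (2 * G + 1) ^ d := by
    intro l
    rw [← a3_card_ball]
    unfold cnt
    rw [Finset.card_filter_add_card_filter_not]
  have h1 : ∑ l ∈ F, ((ball d G).filter (fun g => ¬ l ∈ U (z + g))).card ≤
      (2 * G + 1) ^ d * b := by
    have h2 : ∑ l ∈ F, ((ball d G).filter (fun g => ¬ l ∈ U (z + g))).card =
        ∑ g ∈ ball d G, (F.filter (fun l => ¬ l ∈ U (z + g))).card := by
      simp only [Finset.card_filter]
      rw [Finset.sum_comm]
    rw [h2]
    calc ∑ g ∈ ball d G, (F.filter (fun l => ¬ l ∈ U (z + g))).card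
        ≤ ∑ _g ∈ ball d G, b := by
          apply Finset.sum_le_sum
          intro g hg
          refine le_trans (Finset.card_le_card ?_) (hσ g hg).le
          intro l hl
          rw [Finset.mem_filter, hF, Finset.mem_filter] at hl
          rw [Finset.mem_sdiff]
          exact ⟨hl.1.1, hl.2⟩
      _ = (2 * G + 1) ^ d * b := by
          rw [Finset.sum_const, a3_card_ball, smul_eq_mul]
  have h3 : F.card * (2 * G + 1) ^ d ≤
      ∑ l ∈ F, 4 * ((ball d G).filter (fun g => ¬ l ∈ U (z + g))).card := by
    rw [← smul_eq_mul, ← Finset.sum_const]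
    apply Finset.sum_le_sum
    intro l hl
    have h4 := (Finset.mem_filter.mp hl).2
    have h5 := h0 l
    omega
  rw [← Finset.mul_sum] at h3
  have h4 : F.card * (2 * G + 1) ^ d ≤ 4 * b * (2 * G + 1) ^ d := by
    calc _ ≤ _ := h3
      _ ≤ 4 * ((2 * G + 1) ^ d * b) := by omega
      _ = _ := by ring
  exact Nat.le_of_mul_le_mul_right h4 hT

end Pool.Agent.UTSP
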