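import Pool.Agent.Work.MP_27a5a0_lc.Stmts
import Pool.Agent.Work.MP_476501_co.Brouwer

/-!
MP_27a5a0_lc, universal TSP: the covering property (item B1), through Brouwer's theorem.
-/

namespace Pool.Agent.UTSP

open Finset

/-- Hat function of the integer `k`. -/
noncomputable def b1Hat (k : ℤ) (x : ℝ) : ℝ := max 0 (1 - |x - k|)

theorem b1Hat_nonneg (k : ℤ) (x : ℝ) : 0 ≤ b1Hat k x := le_max_left _ _

theorem b1Hat_cont (k : ℤ) : Continuous (b1Hat k) := by
  unfold b1Hat
  fun_prop

theorem b1Hat_eq_zero {k : ℤ} {x : ℝ} (h : 1 ≤ |x - k|) : b1Hat k x = 0 :=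
  max_eq_left (by linarith)

theorem b1Hat_left {b : ℤ} {x : ℝ} (h1 : (b : ℝ) ≤ x) (h2 : x ≤ b + 1) :
    b1Hat b x = b + 1 - x := by
  unfold b1Hat
  rw [abs_of_nonneg (by linarith), max_eq_right (by linarith)]
  ring

theorem b1Hat_right {b : ℤ} {x : ℝ} (h1 : (b : ℝ) ≤ x) (h2 : x ≤ b + 1) :
    b1Hat (b + 1) x = x - b := by
  unfold b1Hat
  push_cast
  rw [abs_of_nonpos (by linarith), max_eq_right (by linarith)]
  ring

theorem b1Hat_sum {b : ℤ} {x : ℝ} (h1 : (b : ℝ) ≤ x) (h2 : x ≤ b + 1) :
    ∑ k ∈ ({b, b + 1} : Finset ℤ), b1Hat k x = 1 := by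
  rw [Finset.sum_pair (by omega), b1Hat_left h1 h2, b1Hat_right h1 h2]
  ring

/-- Weight of the grid point `v` at `x`. -/
noncomputable def b1W {d : ℕ} (v : Pt d) (x : Fin d → ℝ) : ℝ := ∏ j, b1Hat (v j) (x j)

theorem b1W_nonneg {d : ℕ} (v : Pt d) (x : Fin d → ℝ) : 0 ≤ b1W v x :=
  Finset.prod_nonneg (fun _ _ => b1Hat_nonneg _ _)

theorem b1W_cont {d : ℕ} (v : Pt d) : Continuous (b1W v) := by
  unfold b1W
  exact continuous_finsetProd _ (fun j _ => (b1Hat_cont (v j)).comp (continuous_apply j))

theorem b1W_eq_zero {d : ℕ} {v : Pt d} {x : Fin d → ℝ} (j : Fin d) (h : 1 ≤ |x j - v j|) :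
    b1W v x = 0 :=
  Finset.prod_eq_zero (Finset.mem_univ j) (b1Hat_eq_zero h)

theorem b1W_sum {d : ℕ} {b : Pt d} {x : Fin d → ℝ} (h : ∀ j, (b j : ℝ) ≤ x j ∧ x j ≤ b j + 1) :
    ∑ v ∈ cube b, b1W v x = 1 := by
  have h1 := Finset.prod_univ_sum (fun j => ({b j, b j + 1} : Finset ℤ))
    (fun j k => b1Hat k (x j))
  unfold cube b1W
  refine h1.symm.trans ?_
  exact Finset.prod_eq_one (fun j _ => b1Hat_sum (h j).1 (h j).2)

/-- The interpolated map. -/
noncomputable def b1F {d : ℕ} (N : ℕ) (Φ : Pt d → Pt d) (x : Fin d → ℝ) (j : Fin d) : ℝ :=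
  ∑ v ∈ Fintype.piFinset (fun _ : Fin d => Finset.Icc (0 : ℤ) N), b1W v x * (Φ v j : ℝ)

theorem b1F_cont {d : ℕ} (N : ℕ) (Φ : Pt d → Pt d) (j : Fin d) :
    Continuous (fun x => b1F N Φ x j) := by
  unfold b1F
  exact continuous_finsetSum _ (fun v _ => (b1W_cont v).mul continuous_const)

theorem b1_cube_sum {d N : ℕ} {b : Pt d} {x : Fin d → ℝ} (hb : InBox N b)
    (h : ∀ j, (b j : ℝ) ≤ x j ∧ x j ≤ b j + 1) (g : Pt d → ℝ) :
    ∑ v ∈ Fintype.piFinset (fun _ : Fin d => Finset.Icc (0 : ℤ) N), b1W v x * g v =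
      ∑ v ∈ cube b, b1W v x * g v := by
  symm
  apply Finset.sum_subset
  · intro v hv
    rw [Fintype.mem_piFinset]
    intro j
    have h1 := (Fintype.mem_piFinset.1 hv) j
    have h2 := hb j
    rw [Finset.mem_insert, Finset.mem_singleton] at h1
    rw [Finset.mem_Icc]
    omega
  · intro v _ hv
    have h1 : ∃ j, v j ∉ ({b j, b j + 1} : Finset ℤ) := by
      by_contra hcon
      push Not at hcon
      exact hv (Fintype.mem_piFinset.2 hcon)
    obtain ⟨j, hj⟩ := h1
    have h2 := h j
    rw [b1W_eq_zero j, zero_mul]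
    rw [Finset.mem_insert, Finset.mem_singleton, not_or] at hj
    have h3 : v j ≤ b j - 1 ∨ b j + 2 ≤ v j := by omega
    rcases h3 with h3 | h3
    · have h4 : (v j : ℝ) ≤ b j - 1 := by exact_mod_cast h3
      rw [abs_of_nonneg (by linarith)]
      linarith
    · have h4 : (b j : ℝ) + 2 ≤ v j := by exact_mod_cast h3
      rw [abs_of_nonpos (by linarith)]
      linarith

theorem b1_base {N : ℕ} (hN : 1 ≤ N) {x : ℝ} (h0 : 0 ≤ x) (h1 : x ≤ N) :
    ∃ b : ℤ, 0 ≤ b ∧ b < (N : ℤ) ∧ (b : ℝ) ≤ x ∧ x ≤ b + 1 := by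
  by_cases h : ⌊x⌋ < (N : ℤ)
  · exact ⟨⌊x⌋, Int.floor_nonneg.2 h0, h, Int.floor_le x, (Int.lt_floor_add_one x).le⟩
  · have h2 : (N : ℝ) ≤ x := by
      have h3 : (N : ℤ) ≤ ⌊x⌋ := by omega
      have h4 : ((N : ℤ) : ℝ) ≤ x := Int.le_floor.1 h3
      exact_mod_cast h4
    have h5 : x = N := le_antisymm h1 h2
    refine ⟨(N : ℤ) - 1, by omega, by omega, ?_, ?_⟩
    · push_cast
      linarith
    · push_cast
      linarith

/-- The value of the clamped map at a fixed point. -/
theorem b1_clamp {N x z : ℝ} (hx0 : 0 ≤ x) (hxN : x ≤ N) (h : x = max 0 (min N (x + z)))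
    (hN : x = N → z ≤ 0) (h0 : x = 0 → 0 ≤ z) : z = 0 := by
  rcases lt_trichotomy z 0 with hz | hz | hz
  · rw [min_eq_right (by linarith)] at h
    by_cases h1 : 0 ≤ x + z
    · rw [max_eq_right h1] at h
      linarith
    · rw [max_eq_left (by linarith)] at h
      have := h0 h
      linarith
  · exact hz
  · by_cases h1 : x + z ≤ N
    · rw [min_eq_right h1, max_eq_right (by linarith)] at h
      linarith
    · rw [min_eq_left (by linarith), max_eq_right (by linarith)] at h
      have := hN h
      linarith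

theorem prfTopo : claimTopo := by
  intro d N h Φ hN hΦ y hy
  have hNR : (1 : ℝ) ≤ N := by exact_mod_cast hN
  have hN0 : (0 : ℝ) < N := by linarith
  -- the map of the unit cube
  let f : (Fin d → ℝ) → (Fin d → ℝ) := fun t j =>
    max 0 (min (N : ℝ) (N * t j + (y j - b1F N Φ (fun i => N * t i) j))) / N
  have hfc : Continuous f := by
    apply continuous_pi
    intro j
    have h1 : Continuous (fun t : Fin d → ℝ => b1F N Φ (fun i => N * t i) j) :=
      (b1F_cont N Φ j).comp (continuous_pi (fun i => continuous_const.mul (continuous_apply i)))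
    have h2 : Continuous (fun t : Fin d → ℝ => (N : ℝ) * t j) :=
      continuous_const.mul (continuous_apply j)
    exact (continuous_const.max (continuous_const.min
      (h2.add (continuous_const.sub h1)))).div_const _
  have hmap : Set.MapsTo f (Set.Icc 0 1) (Set.Icc 0 1) := by
    intro t _
    constructor
    · intro j
      exact div_nonneg (le_max_left _ _) hN0.le
    · intro j
      show max 0 (min (N : ℝ) (N * t j + (y j - b1F N Φ (fun i => N * t i) j))) / N ≤ 1
      rw [div_le_one hN0]
      exact max_le hN0.le (min_le_left _ _)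
  obtain ⟨t, ht, hfix⟩ := Pool.Agent.Brouwer.brouwer_cube d f hfc.continuousOn hmap
  -- the fixed point
  have hx : ∀ j, 0 ≤ (N : ℝ) * t j ∧ (N : ℝ) * t j ≤ N := by
    intro j
    have h1 := ht.1 j
    have h2 := ht.2 j
    simp only [Pi.zero_apply] at h1
    simp only [Pi.one_apply] at h2
    constructor
    · positivity
    · nlinarith
  choose b hb0 hbN hbl hbr using fun j => b1_base hN (hx j).1 (hx j).2
  have hbox : InBox N b := fun j => ⟨hb0 j, hbN j⟩
  have hbx : ∀ j, (b j : ℝ) ≤ (N : ℝ) * t j ∧ (N : ℝ) * t j ≤ b j + 1 :=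
    fun j => ⟨hbl j, hbr j⟩
  have hF : ∀ j, b1F N Φ (fun i => N * t i) j =
      ∑ v ∈ cube b, b1W v (fun i => N * t i) * (Φ v j : ℝ) := by
    intro j
    exact b1_cube_sum hbox hbx (fun v => (Φ v j : ℝ))
  have hsum : ∑ v ∈ cube b, b1W v (fun i => N * t i) = 1 := b1W_sum hbx
  have hcb : ∀ v ∈ cube b, Box N v := by
    intro v hv j
    have h1 := (Fintype.mem_piFinset.1 hv) j
    have h2 := hbox j
    rw [Finset.mem_insert, Finset.mem_singleton] at h1
    constructor <;> omega
  have hdist : ∀ v ∈ cube b, ∀ j, |(Φ v j : ℝ) - v j| ≤ h := by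
    intro v hv j
    have h1 := hΦ v (hcb v hv)
    have h2 := dist_le_pi_dist (Φ v) v j
    rw [Int.dist_eq] at h2
    exact le_trans h2 h1
  have hz : ∀ j, y j - b1F N Φ (fun i => N * t i) j = 0 := by
    intro j
    have h1 := congrFun hfix j
    have h2 : (N : ℝ) * t j =
        max 0 (min (N : ℝ) (N * t j + (y j - b1F N Φ (fun i => N * t i) j))) := by
      have h3 : max 0 (min (N : ℝ) (N * t j + (y j - b1F N Φ (fun i => N * t i) j))) / N = t j :=
        h1
      rw [div_eq_iff hN0.ne'] at h3
      rw [h3]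
      ring
    apply b1_clamp (hx j).1 (hx j).2 h2
    · intro hxN
      have h4 : (N : ℝ) - h ≤ b1F N Φ (fun i => N * t i) j := by
        rw [hF j]
        calc (N : ℝ) - h = ∑ v ∈ cube b, b1W v (fun i => N * t i) * ((N : ℝ) - h) := by
              rw [← Finset.sum_mul, hsum, one_mul]
          _ ≤ _ := by
              apply Finset.sum_le_sum
              intro v hv
              by_cases hvN : v j = N
              · apply mul_le_mul_of_nonneg_left _ (b1W_nonneg _ _)
                have h5 := (abs_le.1 (hdist v hv j)).1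
                rw [hvN] at h5
                push_cast at h5
                linarith
              · have h6 : b1W v (fun i => N * t i) = 0 := by
                  apply b1W_eq_zero j
                  have h7 := (hcb v hv j).2
                  have h8 : v j ≤ (N : ℤ) - 1 := by omega
                  have h9 : (v j : ℝ) ≤ (N : ℝ) - 1 := by exact_mod_cast h8
                  show 1 ≤ |(N : ℝ) * t j - v j|
                  rw [hxN, abs_of_nonneg (by linarith)]
                  linarith
                rw [h6, zero_mul, zero_mul]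
      have := (hy j).2
      linarith
    · intro hx0
      have h4 : b1F N Φ (fun i => N * t i) j ≤ h := by
        rw [hF j]
        calc _ ≤ ∑ v ∈ cube b, b1W v (fun i => N * t i) * h := by
              apply Finset.sum_le_sum
              intro v hv
              by_cases hv0 : v j = 0
              · apply mul_le_mul_of_nonneg_left _ (b1W_nonneg _ _)
                have h5 := (abs_le.1 (hdist v hv j)).2
                rw [hv0] at h5
                push_cast at h5
                linarith
              · have h6 : b1W v (fun i => N * t i) = 0 := by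
                  apply b1W_eq_zero j
                  have h7 := (hcb v hv j).1
                  have h8 : 1 ≤ v j := by omega
                  have h9 : (1 : ℝ) ≤ (v j : ℝ) := by exact_mod_cast h8
                  show 1 ≤ |(N : ℝ) * t j - v j|
                  rw [hx0, abs_of_nonpos (by linarith)]
                  linarith
                rw [h6, zero_mul, zero_mul]
          _ = h := by rw [← Finset.sum_mul, hsum, one_mul]
      have := (hy j).1
      linarith
  refine ⟨b, hbox, fun v => b1W v (fun i => N * t i), fun v => b1W_nonneg _ _, hsum, ?_⟩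
  intro j
  have h1 := hz j
  rw [hF j] at h1
  linarith

end Pool.Agent.UTSP
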