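import Pool.Agent.Work.MP_27a5a0_lc.Stmts

/-!
C1: coarse rounding with at most `d + 1` values on every small ball.
-/

namespace Pool.Agent.UTSP

open Finset

/-- `k` is bad for the integer `x` -/
private def c1Bad (d h : ℕ) (k : ℕ) (x : ℤ) : Prop :=
  2 * ((x - k * h) % (((d + 1) * h : ℕ) : ℤ)) < h ∨
    2 * (((d + 1) * h : ℕ) : ℤ) < 2 * ((x - k * h) % (((d + 1) * h : ℕ) : ℤ)) + h

private lemma c1_unique_aux {d h : ℕ} (hh : 1 ≤ h) {k k' : ℕ} (hk : k ≤ d) (hlt : k' < k) {x : ℤ}
    (hb : c1Bad d h k x) (hb' : c1Bad d h k' x) : False := by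
  unfold c1Bad at hb hb'
  set H : ℤ := (((d + 1) * h : ℕ) : ℤ) with hH
  have hHe : H = ((d : ℤ) + 1) * h := by rw [hH]; push_cast; ring
  have hh' : (1 : ℤ) ≤ h := by exact_mod_cast hh
  have hd0 : (0 : ℤ) ≤ d := by positivity
  have hHpos : 0 < H := by rw [hHe]; positivity
  have h1 := Int.mul_ediv_add_emod (x - k * h) H
  have h2 := Int.mul_ediv_add_emod (x - k' * h) H
  set q := (x - k * h) / H
  set q' := (x - k' * h) / H
  set r := (x - k * h) % H with hr
  set r' := (x - k' * h) % H with hr'
  have hr0 : 0 ≤ r := Int.emod_nonneg _ hHpos.ne'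
  have hr0' : 0 ≤ r' := Int.emod_nonneg _ hHpos.ne'
  have hrt : r < H := Int.emod_lt_of_pos _ hHpos
  have hrt' : r' < H := Int.emod_lt_of_pos _ hHpos
  -- (k - k') h = H (q' - q) + (r' - r)
  have h3 : ((k : ℤ) - k') * h = H * (q' - q) + (r' - r) := by ring_nf; ring_nf at h1 h2; linarith
  have hk1 : (1 : ℤ) ≤ (k : ℤ) - k' := by omega
  have hk2 : (k : ℤ) - k' ≤ d := by omega
  have hlow : (h : ℤ) ≤ ((k : ℤ) - k') * h := by nlinarith
  have hup : ((k : ℤ) - k') * h ≤ H - h := by
    rw [hHe]
    nlinarith
  have hcase : ∃ n : ℤ, (h : ℤ) ≤ H * n + 0 ∨ True := ⟨0, Or.inr trivial⟩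
  clear hcase
  -- the difference r' - r is within h of 0, H or - H
  rcases hb with hb | hb <;> rcases hb' with hb' | hb'
  · -- both small
    have e1 : r' - r < h := by linarith
    have e2 : -(h : ℤ) < r' - r := by linarith
    have e3 : 0 < H * (q' - q) := by linarith
    have e4 : H * (q' - q) < H := by linarith
    have e5 : 0 < q' - q := by
      by_contra hcon
      push Not at hcon
      nlinarith
    have e6 : q' - q < 1 := by
      by_contra hcon
      push Not at hcon
      nlinarith
    omega
  · -- r small, r' large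
    have e1 : r' - r > H - h := by linarith
    have e3 : H * (q' - q) < 0 := by linarith
    have e4 : -H < H * (q' - q) := by linarith
    have e5 : q' - q < 0 := by
      by_contra hcon
      push Not at hcon
      nlinarith
    have e6 : -1 < q' - q := by
      by_contra hcon
      push Not at hcon
      nlinarith
    omega
  · -- r large, r' small
    have e1 : r' - r < -H + h := by linarith
    have e3 : H < H * (q' - q) := by linarith
    have e4 : H * (q' - q) < 2 * H := by linarith
    have e5 : 1 < q' - q := by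
      by_contra hcon
      push Not at hcon
      nlinarith
    have e6 : q' - q < 2 := by
      by_contra hcon
      push Not at hcon
      nlinarith
    omega
  · have e1 : r' - r < h := by linarith
    have e2 : -(h : ℤ) < r' - r := by linarith
    have e3 : 0 < H * (q' - q) := by linarith
    have e4 : H * (q' - q) < H := by linarith
    have e5 : 0 < q' - q := by
      by_contra hcon
      push Not at hcon
      nlinarith
    have e6 : q' - q < 1 := by
      by_contra hcon
      push Not at hcon
      nlinarith
    omega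

private lemma c1_unique {d h : ℕ} (hh : 1 ≤ h) {k k' : ℕ} (hk : k ≤ d) (hk' : k' ≤ d) {x : ℤ}
    (hb : c1Bad d h k x) (hb' : c1Bad d h k' x) : k = k' := by
  rcases lt_trichotomy k k' with h1 | h1 | h1
  · exact (c1_unique_aux hh hk' h1 hb' hb).elim
  · exact h1
  · exact (c1_unique_aux hh hk h1 hb hb').elim

private lemma c1_good (d h : ℕ) (hh : 1 ≤ h) (e : Fin d → ℤ) :
    ∃ k, k ≤ d ∧ ∀ j, ¬ c1Bad d h k (e j) := by
  classical
  by_contra hne
  push Not at hne
  have h1 : ∀ k : Fin (d + 1), ∃ j, c1Bad d h k (e j) := fun k => hne k (by omega)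
  choose f hf using h1
  have hinj : Function.Injective f := by
    intro k k' hkk
    have h2 := hf k
    have h3 := hf k'
    rw [← hkk] at h3
    ext
    exact c1_unique hh (by omega) (by omega) h2 h3
  have := Fintype.card_le_of_injective f hinj
  simp at this

theorem prfCoarse : claimCoarse := by
  classical
  intro d h₁ hh
  have hh' : (1 : ℤ) ≤ h₁ := by exact_mod_cast hh
  set H : ℤ := (((d + 1) * h₁ : ℕ) : ℤ) with hH
  have hHpos : 0 < H := by
    rw [hH]
    have : 0 < (d + 1) * h₁ := by positivity
    exact_mod_cast this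
  choose κ hκ1 hκ2 using c1_good d h₁ hh
  set Rd : Pt d → Pt d := fun e j => (κ e : ℤ) * h₁ + H * ((e j - κ e * h₁) / H) with hRd
  refine ⟨Rd, ?_, ?_⟩
  · intro e
    rw [dist_pi_le_iff (by positivity)]
    intro j
    have h1 := Int.mul_ediv_add_emod (e j - κ e * h₁) H
    have h2 : 0 ≤ (e j - κ e * h₁) % H := Int.emod_nonneg _ hHpos.ne'
    have h3 : (e j - κ e * h₁) % H < H := Int.emod_lt_of_pos _ hHpos
    have h4 : |Rd e j - e j| ≤ H := by
      rw [abs_le]
      simp only [hRd]
      constructor
      · linarith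
      · linarith
    rw [Int.dist_eq']
    rw [← Int.cast_natCast, ← hH]
    exact_mod_cast h4
  · intro x r hr
    -- one value for every `k`
    have hone : ∀ e e' : Pt d, dist e x ≤ r → dist e' x ≤ r → κ e = κ e' → Rd e = Rd e' := by
      intro e e' he he' hk
      funext j
      have hr0 : 0 ≤ r := dist_nonneg.trans he
      have h1 : (|e j - e' j| : ℝ) ≤ 2 * r := by
        have h2 := (dist_pi_le_iff hr0).1 he j
        have h3 := (dist_pi_le_iff hr0).1 he' j
        rw [Int.dist_eq] at h2 h3
        calc (|(e j : ℝ) - e' j|) = |((e j : ℝ) - x j) - ((e' j : ℝ) - x j)| := by ring_nf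
          _ ≤ |(e j : ℝ) - x j| + |(e' j : ℝ) - x j| := abs_sub _ _
          _ ≤ 2 * r := by linarith
      have h4 : 2 * |e j - e' j| < h₁ := by
        have : ((2 * |e j - e' j| : ℤ) : ℝ) < ((h₁ : ℤ) : ℝ) := by
          push_cast
          linarith
        exact_mod_cast this
      have hg := hκ2 e j
      have hg' := hκ2 e' j
      unfold c1Bad at hg hg'
      rw [← hk] at hg'
      rw [← hH] at hg hg'
      simp only [hRd]
      rw [← hk]
      have i1 := Int.mul_ediv_add_emod (e j - κ e * h₁) H
      have i2 := Int.mul_ediv_add_emod (e' j - κ e * h₁) H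
      push Not at hg hg'
      set q := (e j - κ e * h₁) / H
      set q' := (e' j - κ e * h₁) / H
      set s := (e j - κ e * h₁) % H
      set s' := (e' j - κ e * h₁) % H
      have h5 : H * (q - q') = (e j - e' j) - (s - s') := by ring_nf; ring_nf at i1 i2; linarith
      have h6 := abs_lt.1 (lt_of_le_of_lt (le_refl (|e j - e' j|)) (by linarith [abs_nonneg (e j - e' j)] : |e j - e' j| < h₁))
      have h7 : e j - e' j ≤ |e j - e' j| := le_abs_self _
      have h8 : -(e j - e' j) ≤ |e j - e' j| := neg_le_abs _
      have h9 : q - q' < 1 := by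
        by_contra hcon
        push Not at hcon
        nlinarith [hg.1, hg.2, hg'.1, hg'.2]
      have h10 : -1 < q - q' := by
        by_contra hcon
        push Not at hcon
        nlinarith [hg.1, hg.2, hg'.1, hg'.2]
      have h11 : q = q' := by omega
      rw [h11]
    -- representatives
    set C : Finset (Pt d) := (range (d + 1)).biUnion (fun k =>
      if hk : ∃ e : Pt d, dist e x ≤ r ∧ κ e = k then {Rd hk.choose} else ∅) with hC
    refine ⟨C, ?_, ?_⟩
    · refine (Finset.card_biUnion_le).trans ?_
      calc ∑ k ∈ range (d + 1), (if hk : ∃ e : Pt d, dist e x ≤ r ∧ κ e = k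
            then ({Rd hk.choose} : Finset (Pt d)) else ∅).card ≤ ∑ k ∈ range (d + 1), 1 := by
            refine Finset.sum_le_sum fun k _ => ?_
            split_ifs
            · simp
            · simp
        _ = d + 1 := by simp
    · intro e he
      rw [hC, Finset.mem_biUnion]
      refine ⟨κ e, Finset.mem_range.2 (Nat.lt_succ_of_le (hκ1 e)), ?_⟩
      have hex : ∃ e' : Pt d, dist e' x ≤ r ∧ κ e' = κ e := ⟨e, he, rfl⟩
      rw [dif_pos hex, Finset.mem_singleton]
      exact hone e _ he hex.choose_spec.1 hex.choose_spec.2.symm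

end Pool.Agent.UTSP
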