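import Pool.Agent.Work.MP_27a5a0_lc.Stmts

/-!
MP_27a5a0_lc, item E1: extension to all `n`.
-/

namespace Pool.Agent.UTSP

open Finset

namespace ExtAux

theorem walk_nonneg {X : Type*} {δ : X → X → ℝ} (h : ∀ x y, 0 ≤ δ x y) :
    ∀ l : List X, 0 ≤ walk δ l
  | [] => le_rfl
  | [_] => le_rfl
  | x :: y :: l => by
    have := walk_nonneg h (y :: l)
    have h1 := h x y
    change 0 ≤ δ x y + walk δ (y :: l)
    linarith

theorem met_nonneg {X : Type*} {δ : X → X → ℝ} (h : IsMet δ) (x y : X) : 0 ≤ δ x y := by
  rcases eq_or_ne x y with rfl | hne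
  · rw [h.self]
  · exact (h.pos x y hne).le

theorem walk_map {X Y : Type*} {δ : X → X → ℝ} {δ' : Y → Y → ℝ} (f : X → Y)
    (hf : ∀ x y, δ' (f x) (f y) = δ x y) : ∀ l : List X, walk δ' (l.map f) = walk δ l
  | [] => rfl
  | [_] => rfl
  | x :: y :: l => by
    have := walk_map f hf (y :: l)
    change δ' (f x) (f y) + walk δ' ((y :: l).map f) = δ x y + walk δ (y :: l)
    rw [this, hf]

theorem cyc_map {X Y : Type*} {δ : X → X → ℝ} {δ' : Y → Y → ℝ} (f : X → Y)
    (hf : ∀ x y, δ' (f x) (f y) = δ x y) : ∀ l : List X, cyc δ' (l.map f) = cyc δ l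
  | [] => rfl
  | x :: l => by
    change walk δ' (f x :: (l.map f ++ [f x])) = walk δ (x :: (l ++ [x]))
    rw [← walk_map f hf (x :: (l ++ [x]))]
    simp

/-- costs of lists with at least two different points are bounded below -/
theorem cyc_lower {Y : Type*} {δ : Y → Y → ℝ} (hδ : IsMet δ) (ε : ℝ)
    (hε : ∀ x y, x ≠ y → ε ≤ δ x y) (l : List Y) (hl : l.Nodup) (h2 : 2 ≤ l.length) :
    ε ≤ cyc δ l := by
  match l, hl, h2 with
  | [], _, h2 => simp at h2
  | [_], _, h2 => simp at h2
  | x :: y :: l, hl, _ =>
    have hxy : x ≠ y := by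
      intro h
      subst h
      simp at hl
    have h1 := hε x y hxy
    have h3 := walk_nonneg (met_nonneg hδ) (y :: (l ++ [x]))
    change ε ≤ δ x y + walk δ (y :: (l ++ [x]))
    linarith

/-- a tour of the larger space restricts to a tour of the smaller one -/
theorem ratio_ge {X Y : Type} [Fintype X] [DecidableEq X] [Fintype Y] [DecidableEq Y]
    (δ : X → X → ℝ) (δ' : Y → Y → ℝ) (hδ' : IsMet δ') (f : X → Y) (hinj : Function.Injective f)
    (hf : ∀ x y, δ' (f x) (f y) = δ x y) (κ : ℝ) (hκ : 0 ≤ κ) (h : NoTour δ κ) (τ : List Y)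
    (hτ : IsOrd (univ : Finset Y) τ) : ENNReal.ofReal κ ≤ ratio δ' τ := by
  classical
  have hg := hinj.isPartialInv
  set g : Y → Option X := Function.partialInv f with hgdef
  have hgs : ∀ x y, g y = some x ↔ f x = y := fun x y => hg x y
  obtain ⟨hnd, hfs⟩ := hτ
  -- the restricted tour
  have hτ' : IsOrd (univ : Finset X) (τ.filterMap g) := by
    constructor
    · apply List.Nodup.filterMap _ hnd
      intro a a' b hb hb'
      rw [Option.mem_def, hgs] at hb hb'
      rw [← hb, ← hb']
    · ext x
      simp only [List.mem_toFinset, mem_univ, iff_true, List.mem_filterMap]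
      refine ⟨f x, ?_, (hgs x (f x)).mpr rfl⟩
      rw [← List.mem_toFinset, hfs]
      exact mem_univ _
  have hno := h _ hτ'
  unfold HasRatio at hno
  push Not at hno
  obtain ⟨S, hS2, σ, hσ, hlt⟩ := hno
  -- the image
  have hScard : (S.image f).card = S.card := card_image_of_injective S hinj
  have hfilt : ∀ l : List Y, l.filter (fun y => decide (y ∈ S.image f)) =
      ((l.filterMap g).filter (fun x => decide (x ∈ S))).map f := by
    intro l
    induction l with
    | nil => rfl
    | cons y l ih =>
      rcases hgy : g y with _ | x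
      · have hy : y ∉ S.image f := by
          intro hy
          rw [mem_image] at hy
          obtain ⟨x, _, hx⟩ := hy
          have := (hgs x y).mpr hx
          rw [hgy] at this
          cases this
        rw [List.filter_cons_of_neg (by simpa using hy), List.filterMap_cons_none hgy, ih]
      · have hxy : f x = y := (hgs x y).mp hgy
        rw [List.filterMap_cons_some hgy]
        by_cases hx : x ∈ S
        · have hy : y ∈ S.image f := by
            rw [mem_image]
            exact ⟨x, hx, hxy⟩
          rw [List.filter_cons_of_pos (by simpa using hy), List.filter_cons_of_pos (by simpa using hx),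
            List.map_cons, hxy, ih]
        · have hy : y ∉ S.image f := by
            intro hy
            rw [mem_image] at hy
            obtain ⟨x', hx', hx''⟩ := hy
            have : x' = x := hinj (hx''.trans hxy.symm)
            exact hx (this ▸ hx')
          rw [List.filter_cons_of_neg (by simpa using hy), List.filter_cons_of_neg (by simpa using hx),
            ih]
  -- the image of the ordering `σ`
  have hσ' : IsOrd (S.image f) (σ.map f) := by
    constructor
    · exact hσ.1.map hinj
    · rw [← hσ.2]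
      ext y
      simp
  -- positive lower bound
  obtain ⟨ε, hε0, hε⟩ : ∃ ε : ℝ, 0 < ε ∧ ∀ x y : Y, x ≠ y → ε ≤ δ' x y := by
    have hne : (univ.filter (fun p : Y × Y => p.1 ≠ p.2)).Nonempty := by
      obtain ⟨a, ha, b, hb, hab⟩ := Finset.one_lt_card.mp (show 1 < (S.image f).card by omega)
      exact ⟨(a, b), by rw [mem_filter]; exact ⟨mem_univ _, hab⟩⟩
    obtain ⟨p, hp, hmin⟩ := Finset.exists_min_image _ (fun p : Y × Y => δ' p.1 p.2) hne
    rw [mem_filter] at hp
    refine ⟨δ' p.1 p.2, hδ'.pos _ _ hp.2, ?_⟩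
    intro x y hxy
    exact hmin (x, y) (by rw [mem_filter]; exact ⟨mem_univ _, hxy⟩)
  have hlow : ∀ c ∈ {c : ℝ | ∃ σ : List Y, IsOrd (S.image f) σ ∧ cyc δ' σ = c}, ε ≤ c := by
    rintro c ⟨σ₁, h1, rfl⟩
    apply cyc_lower hδ' ε hε σ₁ h1.1
    have : σ₁.length = (S.image f).card := by
      rw [← h1.2, List.toFinset_card_of_nodup h1.1]
    omega
  have hopt1 : ε ≤ opt δ' (S.image f) := by
    unfold opt
    exact le_csInf ⟨_, σ.map f, hσ', rfl⟩ hlow
  have hopt2 : opt δ' (S.image f) ≤ cyc δ σ := by
    unfold opt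
    rw [← cyc_map f hf σ]
    exact csInf_le ⟨ε, hlow⟩ ⟨σ.map f, hσ', rfl⟩
  unfold ratio
  refine le_iSup_of_le ⟨S.image f, by omega⟩ (ENNReal.ofReal_le_ofReal ?_)
  rw [le_div_iff₀ (by linarith)]
  have e : cyc δ' (τ.filter (fun x => decide (x ∈ S.image f))) =
      cyc δ ((τ.filterMap g).filter (fun x => decide (x ∈ S))) := by
    rw [hfilt, cyc_map f hf]
  have h5 : κ * opt δ' (S.image f) ≤ κ * cyc δ σ := mul_le_mul_of_nonneg_left hopt2 hκ
  have h6 : κ * opt δ' (S.image f) ≤
      cyc δ ((τ.filterMap g).filter (fun x => decide (x ∈ S))) := by linarith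
  rw [← e] at h6
  exact h6

/-- the distance on the larger space -/
noncomputable def dext {X : Type} {n : ℕ} (δ : X → X → ℝ) (Δ : ℝ) (g : Fin n → Option X)
    (a b : Fin n) : ℝ :=
  if a = b then 0 else
    match g a, g b with
    | some x, some y => δ x y
    | _, _ => Δ

theorem dext_some {X : Type} {n : ℕ} (δ : X → X → ℝ) (Δ : ℝ) (g : Fin n → Option X)
    {a b : Fin n} (hab : a ≠ b) {x y : X} (hx : g a = some x) (hy : g b = some y) :
    dext δ Δ g a b = δ x y := by
  unfold dext
  rw [if_neg hab, hx, hy]

theorem dext_none_left {X : Type} {n : ℕ} (δ : X → X → ℝ) (Δ : ℝ) (g : Fin n → Option X)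
    {a b : Fin n} (hab : a ≠ b) (hx : g a = none) : dext δ Δ g a b = Δ := by
  unfold dext
  rw [if_neg hab, hx]

theorem dext_none_right {X : Type} {n : ℕ} (δ : X → X → ℝ) (Δ : ℝ) (g : Fin n → Option X)
    {a b : Fin n} (hab : a ≠ b) (hx : g b = none) : dext δ Δ g a b = Δ := by
  unfold dext
  rw [if_neg hab, hx]
  rcases g a with _ | _ <;> rfl

theorem isMet_dext {X : Type} {n : ℕ} (δ : X → X → ℝ) (hδ : IsMet δ) (Δ : ℝ) (hΔ0 : 0 < Δ)
    (hΔ : ∀ x y, δ x y ≤ Δ) (g : Fin n → Option X)
    (hg : ∀ a b x, g a = some x → g b = some x → a = b) : IsMet (dext δ Δ g) := by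
  have hself : ∀ x, dext δ Δ g x x = 0 := fun x => by unfold dext; rw [if_pos rfl]
  have hpos : ∀ a b, a ≠ b → 0 < dext δ Δ g a b := by
    intro a b hab
    rcases ha : g a with _ | x
    · rw [dext_none_left δ Δ g hab ha]; exact hΔ0
    · rcases hb : g b with _ | y
      · rw [dext_none_right δ Δ g hab hb]; exact hΔ0
      · rw [dext_some δ Δ g hab ha hb]
        apply hδ.pos
        rintro rfl
        exact hab (hg a b x ha hb)
  have hnn : ∀ a b, 0 ≤ dext δ Δ g a b := by
    intro a b
    rcases eq_or_ne a b with rfl | hab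
    · rw [hself]
    · exact (hpos a b hab).le
  have hle : ∀ a b, dext δ Δ g a b ≤ Δ := by
    intro a b
    rcases eq_or_ne a b with rfl | hab
    · rw [hself]; exact hΔ0.le
    · rcases ha : g a with _ | x
      · rw [dext_none_left δ Δ g hab ha]
      · rcases hb : g b with _ | y
        · rw [dext_none_right δ Δ g hab hb]
        · rw [dext_some δ Δ g hab ha hb]; exact hΔ x y
  refine ⟨hself, hpos, ?_, ?_⟩
  · intro a b
    rcases eq_or_ne a b with rfl | hab
    · rfl
    · rcases ha : g a with _ | x
      · rw [dext_none_left δ Δ g hab ha, dext_none_right δ Δ g hab.symm ha]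
      · rcases hb : g b with _ | y
        · rw [dext_none_right δ Δ g hab hb, dext_none_left δ Δ g hab.symm hb]
        · rw [dext_some δ Δ g hab ha hb, dext_some δ Δ g hab.symm hb ha]
          exact hδ.symm x y
  · intro a b c
    rcases eq_or_ne a b with rfl | hab
    · rw [hself, zero_add]
    rcases eq_or_ne b c with rfl | hbc
    · rw [hself, add_zero]
    rcases ha : g a with _ | x
    · have h1 := dext_none_left δ Δ g hab ha
      have h2 := hle a c
      have h3 := hnn b c
      linarith
    · rcases hc : g c with _ | z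
      · have h1 := dext_none_right δ Δ g hbc hc
        have h2 := hle a c
        have h3 := hnn a b
        linarith
      · rcases hb : g b with _ | y
        · have h1 := dext_none_right δ Δ g hab hb
          have h2 := hle a c
          have h3 := hnn b c
          linarith
        · rcases eq_or_ne a c with rfl | hac
          · rw [hself]
            have h1 := hnn a b
            have h2 := hnn b a
            linarith
          · rw [dext_some δ Δ g hab ha hb, dext_some δ Δ g hbc hb hc, dext_some δ Δ g hac ha hc]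
            exact hδ.tri x y z

end ExtAux

open ExtAux in
/-- E1. From one metric space without good tours to a lower bound on `R n`. -/
theorem prfExt : claimExt := by
  intro X _ _ δ hδ κ hκ hno n hn
  obtain ⟨f⟩ : Nonempty (X ↪ Fin n) :=
    Function.Embedding.nonempty_of_card_le (by rw [Fintype.card_fin]; exact hn)
  have hg := f.injective.isPartialInv
  set g : Fin n → Option X := Function.partialInv f with hgdef
  have hgs : ∀ x y, g y = some x ↔ f x = y := fun x y => hg x y
  -- bound for the distances
  obtain ⟨Δ, hΔ0, hΔ⟩ : ∃ Δ : ℝ, 0 < Δ ∧ ∀ x y, δ x y ≤ Δ := by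
    refine ⟨1 + ∑ p : X × X, δ p.1 p.2, ?_, ?_⟩
    · have : 0 ≤ ∑ p : X × X, δ p.1 p.2 := Finset.sum_nonneg fun p _ => met_nonneg hδ _ _
      linarith
    · intro x y
      have : δ x y ≤ ∑ p : X × X, δ p.1 p.2 :=
        Finset.single_le_sum (f := fun p : X × X => δ p.1 p.2) (fun p _ => met_nonneg hδ _ _)
          (mem_univ (x, y))
      linarith
  have hM : IsMet (dext δ Δ g) := by
    apply isMet_dext δ hδ Δ hΔ0 hΔ g
    intro a b x ha hb
    rw [hgs] at ha hb
    rw [← ha, ← hb]
  have hf : ∀ x y, dext δ Δ g (f x) (f y) = δ x y := by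
    intro x y
    rcases eq_or_ne x y with rfl | hxy
    · rw [hM.self, hδ.self]
    · exact dext_some δ Δ g (fun h => hxy (f.injective h)) ((hgs x _).mpr rfl) ((hgs y _).mpr rfl)
  let m : MetricSpace (Fin n) :=
    { dist := dext δ Δ g
      dist_self := hM.self
      dist_comm := hM.symm
      dist_triangle := hM.tri
      eq_of_dist_eq_zero := by
        intro x y hxy
        by_contra hne
        exact (hM.pos x y hne).ne' hxy }
  unfold R
  refine le_iSup_of_le m (le_iInf fun τ => ?_)
  exact ratio_ge δ (dext δ Δ g) hM f f.injective hf κ hκ hno τ.1 τ.2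

end Pool.Agent.UTSP
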