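import Pool.Agent.Work.MP_27a5a0_lc.Stmts

/-!
MP_27a5a0_lc, universal TSP: item F1, construction of the map `Φ`.
-/

namespace Pool.Agent.UTSP

open Finset

theorem f1_dist_e {d N : ℕ} {α κ D Ds A : ℝ} (Q : Lab d N α κ D Ds A) (v : Pt d) :
    dist (Q.e v) v = Q.u v := by
  unfold Lab.e Lab.u
  split_ifs with h
  · rw [min_eq_left h, dist_comm]
  · rw [min_eq_right (le_of_not_ge h), dist_comm]

theorem f1_notMem {d N : ℕ} {α κ D Ds A : ℝ} (Q : Lab d N α κ D Ds A) (hDs : 0 < Ds) {v : Pt d}
    (h : Q.far v) : v ∉ Q.S := by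
  intro hv
  have h1 := h.2 v hv
  rw [dist_self] at h1
  linarith

theorem f1_cube {d N : ℕ} {y v : Pt d} (hy : InBox N y) (hv : v ∈ cube y) : Box N v := by
  intro j
  unfold cube at hv
  rw [Fintype.mem_piFinset] at hv
  have h1 := hv j
  rw [mem_insert, mem_singleton] at h1
  have h2 := hy j
  omega

theorem f1_dist_cell {d t : ℕ} (ht : 1 ≤ t) {y v : Pt d} (hv : v ∈ cube y) :
    dist v (fun j => (t : ℤ) * cell t y j) ≤ t := by
  rw [dist_pi_le_iff (by positivity)]
  intro j
  unfold cube at hv
  rw [Fintype.mem_piFinset] at hv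
  have h1 := hv j
  rw [mem_insert, mem_singleton] at h1
  have ht' : (0 : ℤ) < t := by exact_mod_cast ht
  have h2 := Int.emod_nonneg (y j) ht'.ne'
  have h3 := Int.emod_lt_of_pos (y j) ht'
  have h4 := Int.mul_ediv_add_emod (y j) t
  rw [Int.dist_eq]
  unfold cell
  have h5 : |v j - (t : ℤ) * (y j / t)| ≤ (t : ℤ) := by
    rw [abs_le]
    constructor
    · rcases h1 with h | h <;> omega
    · rcases h1 with h | h <;> omega
  have h6 : ((|v j - (t : ℤ) * (y j / t)| : ℤ) : ℝ) ≤ ((t : ℤ) : ℝ) := by exact_mod_cast h5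
  push_cast at h6
  push_cast
  exact h6

open Classical in
theorem prfPhi (h1 : claimPool) (h2 : claimOut) (h3 : claimKeep) (h4 : claimCoarse)
    (h5 : claimAvgPool) : claimPhi := by
  intro d N α κ D Ds A Q M b L w G h₁ um r ρ hd hL hw hb hα hκ hD hDs hρ hr hρum e1 e2 e3 e4 e5 e6
    e7
  obtain ⟨U, hU1, hU2⟩ := h1 d N α κ D Ds A Q M b r hα hκ hD hDs hr hb e1 e2
  obtain ⟨hout, hum⟩ := h2 d N α κ D Ds A Q b ρ um hα hκ hD hDs hρ (Nat.cast_nonneg _) hb e3 e4
  have hkeep := h3 d N α κ D Ds A Q M b L w G r ρ U hL hw hb e5 e6 hU1 hU2 hout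
  obtain ⟨Rd, hRd1, hRd2⟩ := h4 d h₁ (by omega)
  have ht : 1 ≤ L * w := Nat.one_le_iff_ne_zero.mpr (Nat.mul_ne_zero (by omega) (by omega))
  -- the other neighbour as a function of the label
  set bOf : Pt d → Pt d := fun l => if h : ∃ v, Q.far v ∧ Q.a v = l then Q.b h.choose else l
    with hbOf
  have hbOf' : ∀ v, Q.far v → bOf (Q.a v) = Q.b v := by
    intro v hv
    have hex : ∃ v', Q.far v' ∧ Q.a v' = Q.a v := ⟨v, hv, rfl⟩
    simp only [hbOf]
    rw [dif_pos hex]
    obtain ⟨g1, g2⟩ := hex.choose_spec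
    exact Q.det _ _ g1.1 hv.1 (f1_notMem Q hDs g1) (f1_notMem Q hDs hv) g2
  have he : ∀ v, Q.far v → Q.e v = Q.a v ∨ Q.e v = bOf (Q.a v) := by
    intro v hv
    rw [hbOf' v hv]
    unfold Lab.e
    split_ifs
    · exact Or.inl rfl
    · exact Or.inr rfl
  -- coarse names
  have hC0 : ∀ k : Pt d, ∃ C : Finset (Pt d), C.card ≤ d + 1 ∧
      ∀ e, dist e (fun j => ((L * w : ℕ) : ℤ) * k j) ≤ (um : ℝ) + ((L * w : ℕ) : ℝ) → Rd e ∈ C := by
    intro k
    apply hRd2
    have : ((4 * (L * w + um) : ℕ) : ℝ) < h₁ := by exact_mod_cast e7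
    push_cast at this
    push_cast
    linarith
  choose C0 hC0a hC0b using hC0
  set ρc : ℝ := (((d + 1) * h₁ + um + L * w : ℕ) : ℝ) with hρc
  set Φ : Pt d → Pt d := fun v => if Q.far v then
    (if Q.kept ρ G U L w v then Q.e v else Rd (Q.e v)) else v with hΦ
  have hRdist : ∀ v, Q.far v → dist (Rd (Q.e v)) v ≤ (((d + 1) * h₁ + um : ℕ) : ℝ) := by
    intro v hv
    have g1 := hRd1 (Q.e v)
    have g2 := hum v hv
    have g3 := dist_triangle (Rd (Q.e v)) (Q.e v) v
    rw [f1_dist_e] at g3
    push_cast at g1 ⊢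
    linarith
  refine ⟨⟨Φ, fun z => pool G U z ∪ (pool G U z).image bOf,
    fun k => (C0 k).filter (fun p => dist p (fun j => ((L * w : ℕ) : ℤ) * k j) ≤ ρc),
    ?_, ?_, ?_, ?_, ?_⟩⟩
  · intro v hv
    simp only [hΦ]
    split_ifs with g1 g2
    · rw [f1_dist_e]
      have g3 := hum v g1
      push_cast
      have g4 : (0 : ℝ) ≤ ((d : ℝ) + 1) * h₁ := by positivity
      linarith
    · exact hRdist v g1
    · rw [dist_self]
      positivity
  · intro z
    have g1 := (h5 d G M U hU1 z).1
    refine (card_union_le _ _).trans ?_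
    have g2 : ((pool G U z).image bOf).card ≤ (pool G U z).card := card_image_le
    omega
  · intro k
    exact (card_filter_le _ _).trans (hC0a k)
  · intro k p hp
    rw [mem_filter] at hp
    exact hp.2
  · intro y hy
    obtain ⟨z, hz, hz1, hz2⟩ := hkeep y hy
    set T : Finset (Pt d) := ((cube y).filter (fun v => Q.far v ∧ ¬ Q.kept ρ G U L w v)).image Q.a
      with hT
    refine ⟨z, hz, ((cube y).filter (fun v => Q.far v ∧ ¬ Q.kept ρ G U L w v)).image
      (fun v => Rd (Q.e v)), ?_, ?_, ?_⟩
    · intro p hp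
      rw [mem_image] at hp
      obtain ⟨v, hv, rfl⟩ := hp
      rw [mem_filter] at hv
      obtain ⟨hvc, hvf, _⟩ := hv
      have g1 := f1_dist_cell ht hvc
      have g2 := hum v hvf
      have g3 : dist (Q.e v) (fun j => ((L * w : ℕ) : ℤ) * cell (L * w) y j)
          ≤ (um : ℝ) + ((L * w : ℕ) : ℝ) := by
        have g4 := dist_triangle (Q.e v) v (fun j => ((L * w : ℕ) : ℤ) * cell (L * w) y j)
        rw [f1_dist_e] at g4
        linarith
      rw [mem_filter]
      refine ⟨hC0b _ _ g3, ?_⟩
      have g5 := hRd1 (Q.e v)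
      have g6 := dist_triangle (Rd (Q.e v)) (Q.e v)
        (fun j => ((L * w : ℕ) : ℤ) * cell (L * w) y j)
      rw [hρc]
      push_cast at g5 g3 g6 ⊢
      linarith
    · have g1 : ((cube y).filter (fun v => Q.far v ∧ ¬ Q.kept ρ G U L w v)).image
          (fun v => Rd (Q.e v)) ⊆ (T ∪ T.image bOf).image Rd := by
        intro p hp
        rw [mem_image] at hp
        obtain ⟨v, hv, rfl⟩ := hp
        have hvf := (mem_filter.1 hv).2.1
        have hTv : Q.a v ∈ T := mem_image_of_mem _ hv
        rw [mem_image]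
        refine ⟨Q.e v, ?_, rfl⟩
        rw [mem_union]
        rcases he v hvf with g | g
        · left
          rw [g]
          exact hTv
        · right
          rw [g]
          exact mem_image_of_mem _ hTv
      refine (card_le_card g1).trans (card_image_le.trans ((card_union_le _ _).trans ?_))
      have g2 : (T.image bOf).card ≤ T.card := card_image_le
      omega
    · intro v hv
      by_cases hf : Q.far v
      · by_cases hk : Q.kept ρ G U L w v
        · right
          left
          have g1 : Φ v = Q.e v := by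
            simp only [hΦ]
            rw [if_pos hf, if_pos hk]
          rw [g1]
          refine ⟨?_, ?_⟩
          · have g2 := hz1 v hv hk
            rw [mem_union]
            rcases he v hf with g | g
            · left
              rw [g]
              exact g2
            · right
              rw [g]
              exact mem_image_of_mem _ g2
          · rw [f1_dist_e]
            exact hk.2.1.le
        · right
          right
          have g1 : Φ v = Rd (Q.e v) := by
            simp only [hΦ]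
            rw [if_pos hf, if_neg hk]
          rw [g1, mem_image]
          exact ⟨v, mem_filter.2 ⟨hv, hf, hk⟩, rfl⟩
      · left
        refine ⟨hf, ?_⟩
        simp only [hΦ]
        rw [if_neg hf]

end Pool.Agent.UTSP
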