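import Pool.Agent.Work.MP_27a5a0_lc.Stmts

/-!
K1: kept labels of a cube lie in one pool of few possible pools, few labels are not kept.
-/

namespace Pool.Agent.UTSP

open Finset

private lemma k1_mem_cube {d : ℕ} {y v : Pt d} : v ∈ cube y ↔ ∀ j, v j = y j ∨ v j = y j + 1 := by
  simp [cube]

/-- points of the skeleton near a vertex of the cube -/
private lemma k1_dist (hpsi : claimPsi) {d L w i : ℕ} (hL : 1 ≤ L) (hw : 1 ≤ w) (hi : i < L)
    {y v : Pt d} (hv : v ∈ cube y) {G : ℕ} {g : Pt d} (hg : g ∈ ball d G) {r : ℝ}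
    (hr : (1 + L * w + G : ℝ) ≤ r) : dist v (zz L w i y + g) ≤ r := by
  have hr0 : (0 : ℝ) ≤ r := le_trans (by positivity) hr
  rw [dist_pi_le_iff hr0]
  intro j
  obtain ⟨h1, h2, -, -, -⟩ := hpsi L w i (y j) hL hw hi
  have hLw : (0 : ℤ) < (L : ℤ) * w := by
    have : 0 < L * w := by positivity
    exact_mod_cast this
  have h3 := Int.mul_ediv_add_emod (y j) ((L : ℤ) * w)
  have h4 : 0 ≤ y j % ((L : ℤ) * w) := Int.emod_nonneg _ hLw.ne'
  have h5 : y j % ((L : ℤ) * w) < (L : ℤ) * w := Int.emod_lt_of_pos _ hLw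
  have hgj : -(G : ℤ) ≤ g j ∧ g j ≤ G := by
    have := (Fintype.mem_piFinset.1 hg) j
    simpa using this
  have hvj := k1_mem_cube.1 hv j
  have h6 : |v j - (zz L w i y + g) j| ≤ 1 + (L : ℤ) * w + G := by
    rw [Pi.add_apply, abs_le]
    change -(1 + (L : ℤ) * w + G) ≤ v j - (psi L w i (y j) + g j) ∧
      v j - (psi L w i (y j) + g j) ≤ 1 + (L : ℤ) * w + G
    rcases hvj with hvj | hvj <;> rw [hvj] <;> constructor <;> linarith [hgj.1, hgj.2]
  rw [Int.dist_eq']
  refine le_trans ?_ hr
  exact_mod_cast h6

theorem prfKeep (h1 : claimAvgPool) (h2 : claimAvgLip) (h3 : claimAvgCap) (h4 : claimPsi)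
    (h5 : claimWin) : claimKeep := by
  classical
  intro d N α κ D Ds A Q M b L w G r ρ U hL hw hb hG hr hU hcap hout y hy
  obtain ⟨i, hi, hwin⟩ := h5 d L w y hL hw
  set t : ℕ := L * w with ht
  have hLwpos : (0 : ℤ) < (L : ℤ) * w := by
    have : 0 < L * w := by positivity
    exact_mod_cast this
  set z : Pt d := zz L w i y with hz
  have hzj : ∀ j, z j = psi L w i (y j) := fun j => rfl
  -- z is in the skeleton
  have hZ : z ∈ Zset (L * w) (2 * d / L) (cell (L * w) y) := by
    unfold Zset
    rw [Finset.mem_filter, Fintype.mem_piFinset]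
    constructor
    · intro j
      rw [Finset.mem_Icc]
      obtain ⟨p1, p2, -, -, -⟩ := h4 L w i (y j) hL hw hi
      unfold cell
      push_cast
      rw [hzj]
      exact ⟨p1, p2⟩
    · rw [Nat.le_div_iff_mul_le (by omega), mul_comm]
      refine le_trans (Nat.mul_le_mul_left L (Finset.card_le_card ?_)) hwin
      intro j hj
      rw [Finset.mem_filter] at hj ⊢
      refine ⟨Finset.mem_univ _, Or.inl ?_⟩
      by_contra hnot
      obtain ⟨-, -, -, -, p5⟩ := h4 L w i (y j) hL hw hi
      have hj2 := hj.2
      unfold cell at hj2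
      push_cast at hj2
      rw [hzj] at hj2
      rcases p5 hnot with h | h
      · exact hj2.1 h
      · exact hj2.2 h
  -- i is in the index set of every vertex
  have hIv : ∀ v ∈ cube y, i ∈ Iset L w v := by
    intro v hv
    unfold Iset
    rw [Finset.mem_filter]
    refine ⟨Finset.mem_range.2 hi, ?_⟩
    refine le_trans (Nat.mul_le_mul_left L (Finset.card_le_card ?_)) hwin
    intro j hj
    rw [Finset.mem_filter] at hj ⊢
    refine ⟨Finset.mem_univ _, ?_⟩
    rcases k1_mem_cube.1 hv j with h | h
    · left; rw [← h]; exact hj.2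
    · right; rw [← h]; exact hj.2
  -- Lipschitz property
  have hlip : ∀ i' < L, ∀ v ∈ cube y, ∑ j, |zz L w i' y j - zz L w i' v j| ≤ ((L * d : ℕ) : ℤ) := by
    intro i' hi' v hv
    have hj : ∀ j : Fin d, |zz L w i' y j - zz L w i' v j| ≤ (L : ℤ) := by
      intro j
      change |psi L w i' (y j) - psi L w i' (v j)| ≤ (L : ℤ)
      obtain ⟨-, -, p3, p4, -⟩ := h4 L w i' (y j) hL hw hi'
      rcases k1_mem_cube.1 hv j with h | h
      · rw [h, sub_self, abs_zero]
        positivity
      · rw [h, abs_sub_comm, abs_of_nonneg (by linarith)]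
        linarith
    calc ∑ j, |zz L w i' y j - zz L w i' v j| ≤ ∑ j : Fin d, (L : ℤ) :=
          Finset.sum_le_sum fun j _ => hj j
      _ = ((L * d : ℕ) : ℤ) := by simp; ring
  set T : ℕ := (2 * G + 1) ^ d with hT
  refine ⟨z, hZ, ?_, ?_⟩
  · intro v hv hk
    have e1 := hk.2.2 i (hIv v hv)
    have e2 := h2 d G (L * d) U (Q.a v) (zz L w i v) z (by
      have := hlip i hi v hv
      rw [Finset.sum_congr rfl (fun j _ => abs_sub_comm (zz L w i y j) (zz L w i v j))] at this
      exact this) hG
    refine (h1 d G M U hU z).2 _ ?_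
    rw [← hT] at e2
    omega
  · -- the labels which are not kept
    have hsub : ((cube y).filter (fun v => Q.far v ∧ ¬ Q.kept ρ G U L w v)).image Q.a ⊆
        ((cube y).filter (fun v => Q.far v ∧ ρ ≤ Q.u v)).image Q.a ∪
          (range L).biUnion (fun i' => (Q.sig y).filter
            (fun l => 4 * cnt G U l (zz L w i' y) < 3 * T)) := by
      intro l hl
      rw [Finset.mem_image] at hl
      obtain ⟨v, hv, rfl⟩ := hl
      rw [Finset.mem_filter] at hv
      obtain ⟨hvc, hfar, hnk⟩ := hv
      rw [Finset.mem_union]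
      by_cases hu : ρ ≤ Q.u v
      · left
        exact Finset.mem_image_of_mem _ (Finset.mem_filter.2 ⟨hvc, hfar, hu⟩)
      · right
        push Not at hu
        have hex : ∃ i' ∈ Iset L w v, 2 * cnt G U (Q.a v) (zz L w i' v) < T := by
          by_contra hcon
          push Not at hcon
          exact hnk ⟨hfar, hu, hcon⟩
        obtain ⟨i', hi', hlt⟩ := hex
        have hi'L : i' < L := by
          unfold Iset at hi'
          rw [Finset.mem_filter] at hi'
          exact Finset.mem_range.1 hi'.1
        rw [Finset.mem_biUnion]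
        refine ⟨i', Finset.mem_range.2 hi'L, ?_⟩
        rw [Finset.mem_filter]
        constructor
        · unfold Lab.sig
          exact Finset.mem_image_of_mem _ (Finset.mem_filter.2 ⟨hvc, hfar⟩)
        · have e2 := h2 d G (L * d) U (Q.a v) (zz L w i' y) (zz L w i' v) (hlip i' hi'L v hvc) hG
          rw [← hT] at e2
          omega
    refine (Finset.card_le_card hsub).trans ?_
    refine (Finset.card_union_le _ _).trans ?_
    have e1 : (((cube y).filter (fun v => Q.far v ∧ ρ ≤ Q.u v)).image Q.a).card ≤ b :=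
      le_of_lt (by convert hout y hy)
    have e2 : ((range L).biUnion (fun i' => (Q.sig y).filter
            (fun l => 4 * cnt G U l (zz L w i' y) < 3 * T))).card ≤ L * (4 * b) := by
      refine Finset.card_biUnion_le.trans ?_
      calc ∑ i' ∈ range L, ((Q.sig y).filter
            (fun l => 4 * cnt G U l (zz L w i' y) < 3 * T)).card ≤ ∑ i' ∈ range L, 4 * b := by
            refine Finset.sum_le_sum fun i' hi' => ?_
            have := h3 d G b U (zz L w i' y) (Q.sig y) (by
              intro g hg
              refine hcap _ y hy ?_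
              intro v hv
              exact k1_dist h4 hL hw (Finset.mem_range.1 hi') hv hg hr)
            convert this
        _ = L * (4 * b) := by simp
    calc _ ≤ b + L * (4 * b) := add_le_add e1 e2
      _ = (4 * L + 1) * b := by ring

end Pool.Agent.UTSP
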