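import Pool.Agent.Work.MP_27a5a0_lc.Stmts

/-!
MP_27a5a0_lc, L1: the snowflake inequality.
-/

namespace Pool.Agent.UTSP

open Finset

namespace L1aux

theorem ineq_le {α : ℝ} (h0 : 0 < α) (h1 : α < 1) {x y z : ℝ} (hx : 0 ≤ x) (hz : 0 ≤ z)
    (hxy : x ≤ y) (hzxy : z ≤ x + y) : (1 - α) * x ^ α ≤ x ^ α + y ^ α - z ^ α := by
  rcases hx.eq_or_lt with hx0 | hx0
  · subst hx0
    rw [Real.zero_rpow h0.ne']
    have := Real.rpow_le_rpow hz (by linarith : z ≤ y) h0.le
    linarith
  · have hy0 : 0 < y := by linarith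
    have e1 : z ^ α ≤ (x + y) ^ α := Real.rpow_le_rpow hz hzxy h0.le
    have e2 : (x + y) ^ α = y ^ α * (1 + x / y) ^ α := by
      rw [← Real.mul_rpow hy0.le (by positivity)]
      congr 1
      field_simp
      ring
    have hs0 : 0 ≤ x / y := by positivity
    have e3 : (1 + x / y) ^ α ≤ 1 + α * (x / y) :=
      rpow_one_add_le_one_add_mul_self (by linarith) h0.le h1.le
    have e4 : x / y ≤ (x / y) ^ α := by
      have := Real.rpow_le_rpow_of_exponent_ge (x := x / y) (by positivity)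
        ((div_le_one hy0).mpr hxy) h1.le
      rwa [Real.rpow_one] at this
    have e5 : y ^ α * (x / y) ^ α = x ^ α := by
      rw [← Real.mul_rpow hy0.le (by positivity)]
      congr 1
      field_simp
    have hyα : 0 < y ^ α := Real.rpow_pos_of_pos hy0 α
    have e6 : y ^ α * (x / y) ≤ x ^ α := by
      rw [← e5]
      gcongr
    have e7 : z ^ α ≤ y ^ α * (1 + α * (x / y)) := by
      refine e1.trans ?_
      rw [e2]
      gcongr
    have e8 : y ^ α * (1 + α * (x / y)) = y ^ α + α * (y ^ α * (x / y)) := by ring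
    have e9 : α * (y ^ α * (x / y)) ≤ α * x ^ α := by gcongr
    linarith

theorem ineq {α : ℝ} (h0 : 0 < α) (h1 : α < 1) {x y z : ℝ} (hx : 0 ≤ x) (hy : 0 ≤ y) (hz : 0 ≤ z)
    (hzxy : z ≤ x + y) : (1 - α) * (min x y) ^ α ≤ x ^ α + y ^ α - z ^ α := by
  rcases le_total x y with h | h
  · rw [min_eq_left h]
    exact ineq_le h0 h1 hx hz h hzxy
  · rw [min_eq_right h]
    have := ineq_le h0 h1 hy hz h (by linarith)
    linarith

end L1aux

theorem prfSnow : claimSnow := by
  intro α h0 h1
  refine ⟨fun x y z hx hy hz hzxy => L1aux.ineq h0 h1 hx hy hz hzxy, fun d => ⟨?_, ?_, ?_, ?_⟩⟩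
  · intro x
    unfold sn
    rw [dist_self, Real.zero_rpow h0.ne']
  · intro x y hxy
    exact Real.rpow_pos_of_pos (dist_pos.mpr hxy) α
  · intro x y
    unfold sn
    rw [dist_comm]
  · intro x y z
    unfold sn
    have h2 := L1aux.ineq h0 h1 (x := dist x y) (y := dist y z) (z := dist x z) dist_nonneg
      dist_nonneg dist_nonneg (dist_triangle x y z)
    have h3 : 0 ≤ (1 - α) * (min (dist x y) (dist y z)) ^ α := by
      have : 0 ≤ min (dist x y) (dist y z) := le_min dist_nonneg dist_nonneg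
      have h4 : 0 ≤ 1 - α := by linarith
      positivity
    linarith

end Pool.Agent.UTSP
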