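import Pool.Agent.Work.MP_27a5a0_lc.Stmts

/-!
L2. The labels of a tour of the snowflaked grid.
-/

namespace Pool.Agent.UTSP

open Finset

theorem l2_emb_inj {d N : ℕ} : Function.Injective (emb (d := d) (N := N)) := by
  intro v w h
  funext j
  have h1 := congrFun h j
  simp only [emb] at h1
  apply Fin.ext
  exact_mod_cast h1

theorem l2_emb_box {d N : ℕ} (v : Fin d → Fin (N + 1)) : Box N (emb v) := by
  intro j
  simp only [emb]
  have h := (v j).2
  constructor
  · positivity
  · have : ((v j : ℕ)) ≤ N := by omega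
    exact_mod_cast this

/-- Inverse of the embedding. -/
def l2inv {d : ℕ} (N : ℕ) (v : Pt d) : Fin d → Fin (N + 1) :=
  fun j => ⟨min (v j).toNat N, by omega⟩

theorem l2_emb_inv {d N : ℕ} {v : Pt d} (hv : Box N v) : emb (l2inv N v) = v := by
  funext j
  obtain ⟨h1, h2⟩ := hv j
  simp only [emb, l2inv]
  omega

theorem l2_inv_emb {d N : ℕ} (v : Fin d → Fin (N + 1)) : l2inv N (emb v) = v :=
  l2_emb_inj (l2_emb_inv (l2_emb_box v))

theorem l2_isMet {d N : ℕ} {α : ℝ} (h : IsMet (sn (d := d) α)) : IsMet (dl d N α) where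
  self := fun x => h.self _
  pos := fun x y hxy => h.pos _ _ (fun h1 => hxy (l2_emb_inj h1))
  symm := fun x y => h.symm _ _
  tri := fun x y z => h.tri _ _ _

theorem l2_walk_le {X : Type*} (δ : X → X → ℝ) (B : ℝ) : ∀ (x : X) (l : List X),
    (∀ a ∈ x :: l, ∀ b ∈ x :: l, δ a b ≤ B) → walk δ (x :: l) ≤ (l.length : ℝ) * B
  | x, [], _ => by simp [walk]
  | x, y :: l, h => by
      have h1 := l2_walk_le δ B y l (fun a ha b hb =>
        h a (List.mem_cons_of_mem _ ha) b (List.mem_cons_of_mem _ hb))
      have h2 : δ x y ≤ B := h x (by simp) y (by simp)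
      simp only [walk]
      rw [List.length_cons]
      push_cast
      linarith

theorem l2_cyc_le {X : Type*} (δ : X → X → ℝ) (B : ℝ) (hB : 0 ≤ B) (l : List X)
    (h : ∀ a ∈ l, ∀ b ∈ l, δ a b ≤ B) : cyc δ l ≤ (l.length : ℝ) * B := by
  cases l with
  | nil => simp [cyc]
  | cons x l =>
    simp only [cyc]
    have h1 := l2_walk_le δ B x (l ++ [x]) (by
      intro a ha b hb
      apply h
      · simp only [List.mem_cons, List.mem_append, List.not_mem_nil, or_false] at ha ⊢
        tauto
      · simp only [List.mem_cons, List.mem_append, List.not_mem_nil, or_false] at hb ⊢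
        tauto)
    rw [List.length_append] at h1
    rw [List.length_cons]
    simpa using h1

theorem l2_walk_map {d N : ℕ} (α : ℝ) : ∀ γ : List (Pt d), (∀ v ∈ γ, Box N v) →
    walk (dl d N α) (γ.map (l2inv N)) = walk (sn α) γ
  | [], _ => by simp [walk]
  | [_], _ => by simp [walk]
  | x :: y :: l, h => by
      have h1 := l2_walk_map (N := N) α (y :: l) (fun v hv => h v (List.mem_cons_of_mem _ hv))
      simp only [List.map_cons] at h1
      simp only [List.map_cons, walk]
      rw [h1]
      congr 1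
      unfold dl
      rw [l2_emb_inv (h x (by simp)), l2_emb_inv (h y (by simp))]

theorem l2_dist_le {d N : ℕ} {v w : Pt d} (hv : Box N v) (hw : Box N w) :
    dist v w ≤ (N : ℝ) := by
  rw [dist_pi_le_iff (by positivity)]
  intro j
  rw [Int.dist_eq]
  obtain ⟨h1, h2⟩ := hv j
  obtain ⟨h3, h4⟩ := hw j
  rw [abs_le]
  have h1' : (0 : ℝ) ≤ (v j : ℝ) := by exact_mod_cast h1
  have h2' : (v j : ℝ) ≤ (N : ℝ) := by exact_mod_cast h2
  have h3' : (0 : ℝ) ≤ (w j : ℝ) := by exact_mod_cast h3
  have h4' : (w j : ℝ) ≤ (N : ℝ) := by exact_mod_cast h4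
  constructor <;> linarith

/-- Multiples of `D` in `{0..N}`. -/
def l2C (N D : ℕ) : Finset (Fin (N + 1)) := Finset.univ.filter (fun x => D ∣ (x : ℕ))

theorem l2_card_C {N D : ℕ} (hD : 1 ≤ D) : (l2C N D).card ≤ N / D + 1 := by
  have h1 : (l2C N D).card ≤ (Finset.range (N / D + 1)).card := by
    apply Finset.card_le_card_of_injOn (fun x : Fin (N + 1) => (x : ℕ) / D)
    · intro x hx
      simp only [Finset.coe_range, Set.mem_Iio]
      have h2 : (x : ℕ) ≤ N := by omega
      have h3 := Nat.div_le_div_right (c := D) h2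
      omega
    · intro x hx y hy hxy
      have hx' : D ∣ (x : ℕ) := (Finset.mem_filter.mp hx).2
      have hy' : D ∣ (y : ℕ) := (Finset.mem_filter.mp hy).2
      simp only at hxy
      apply Fin.ext
      rw [← Nat.div_mul_cancel hx', ← Nat.div_mul_cancel hy', hxy]
  rwa [Finset.card_range] at h1

theorem prfLab (h1 : claimTour) (h2 : claimSnow) : claimLab := by
  classical
  intro d N D α κ Ds hd hD hDN hN hα hα1 hκ hDs hDsN hτ
  obtain ⟨τ, hτ1, hτ2⟩ := hτ
  obtain ⟨hsnow, hmet⟩ := h2 α hα hα1
  have hδ : IsMet (dl d N α) := l2_isMet (hmet d)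
  set S₀ : Finset (Fin d → Fin (N + 1)) := Fintype.piFinset (fun _ => l2C N D) with hS₀
  have hcard : S₀.card ≤ (N / D + 1) ^ d := by
    rw [hS₀, Fintype.card_piFinset_const]
    exact Nat.pow_le_pow_left (l2_card_C hD) d
  have hcard2 : 2 ≤ S₀.card := by
    have h3 : 1 < S₀.card := by
      rw [Finset.one_lt_card]
      refine ⟨fun _ => ⟨0, by omega⟩, ?_, fun _ => ⟨N, by omega⟩, ?_, ?_⟩
      · rw [hS₀, Fintype.mem_piFinset]
        intro j
        simp [l2C]
      · rw [hS₀, Fintype.mem_piFinset]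
        intro j
        simp [l2C, hDN]
      · intro h
        have h4 := congrFun h ⟨0, by omega⟩
        simp only [Fin.mk.injEq] at h4
        omega
    omega
  have hord : IsOrd S₀ S₀.toList := ⟨S₀.nodup_toList, S₀.toList_toFinset⟩
  have hNα : 0 ≤ (N : ℝ) ^ α := by positivity
  have hcyc : cyc (dl d N α) S₀.toList ≤ (S₀.card : ℝ) * (N : ℝ) ^ α := by
    have h3 := l2_cyc_le (dl d N α) ((N : ℝ) ^ α) hNα S₀.toList (by
      intro a _ b _
      unfold dl sn
      exact Real.rpow_le_rpow dist_nonneg (l2_dist_le (l2_emb_box a) (l2_emb_box b)) hα.le)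
    rwa [Finset.length_toList] at h3
  obtain ⟨S', a', b', hsub, hmem, hdet, hmarg, hsep⟩ :=
    h1 (Fin d → Fin (N + 1)) (dl d N α) hδ κ hκ τ hτ1 hτ2 S₀ hcard2 S₀.toList hord
  set S : Finset (Pt d) := S'.image emb with hS
  have hinvS : ∀ v, Box N v → v ∉ S → l2inv N v ∉ S' := by
    intro v hv hvS h3
    apply hvS
    rw [hS, Finset.mem_image]
    exact ⟨_, h3, l2_emb_inv hv⟩
  have hnet : ∀ v : Pt d, Box N v → ∃ s' ∈ S', dist v (emb s') ≤ D := by
    intro v hv
    have hlt : ∀ j, D * ((v j).toNat / D) < N + 1 := by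
      intro j
      obtain ⟨h3, h4⟩ := hv j
      have h5 := Nat.mul_div_le (v j).toNat D
      omega
    refine ⟨fun j => ⟨D * ((v j).toNat / D), hlt j⟩, hsub ?_, ?_⟩
    · rw [hS₀, Fintype.mem_piFinset]
      intro j
      simp [l2C]
    · rw [dist_pi_le_iff (by positivity)]
      intro j
      obtain ⟨h3, h4⟩ := hv j
      have h5 := Nat.mul_div_le (v j).toNat D
      have h6 := Nat.lt_mul_div_succ (v j).toNat (show 0 < D by omega)
      rw [Int.dist_eq]
      simp only [emb]
      have h7 : ((D * ((v j).toNat / D) : ℕ) : ℤ) ≤ v j := by omega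
      have h8 : v j ≤ ((D * ((v j).toNat / D) : ℕ) : ℤ) + (D : ℤ) := by
        have h9 : D * ((v j).toNat / D + 1) = D * ((v j).toNat / D) + D := by ring
        rw [h9] at h6
        omega
      have h7' : (((D * ((v j).toNat / D) : ℕ) : ℤ) : ℝ) ≤ (v j : ℝ) := by exact_mod_cast h7
      have h8' : (v j : ℝ) ≤ (((D * ((v j).toNat / D) : ℕ) : ℤ) : ℝ) + (D : ℝ) := by
        exact_mod_cast h8
      rw [abs_le]
      constructor <;> linarith
  have h1α : 0 < 1 - α := by linarith
  refine ⟨⟨S, fun v => emb (a' (l2inv N v)), fun v => emb (b' (l2inv N v)), ?_, ?_, ?_, ?_, ?_⟩⟩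
  · intro v hv
    obtain ⟨s', hs', h3⟩ := hnet v hv
    exact ⟨emb s', Finset.mem_image_of_mem _ hs', h3⟩
  · intro v hv hvS
    have h3 := hmem _ (hinvS v hv hvS)
    exact ⟨Finset.mem_image_of_mem _ h3.1, Finset.mem_image_of_mem _ h3.2⟩
  · intro v w hv hw hvS hwS h3
    have h4 := hdet _ _ (hinvS v hv hvS) (hinvS w hw hwS) (l2_emb_inj h3)
    rw [h4]
  · intro γ hγne hγ hnd
    cases γ with
    | nil => exact absurd rfl hγne
    | cons p γ =>
      obtain ⟨s', hs', hps⟩ := hnet p (hγ p (by simp)).1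
      have h3 := hmarg (l2inv N p) (γ.map (l2inv N)) (by
          intro v hv
          rw [← List.map_cons, List.mem_map] at hv
          obtain ⟨w, hw, rfl⟩ := hv
          exact hinvS w (hγ w hw).1 (hγ w hw).2) (by
          rw [← List.map_cons]
          apply List.Nodup.of_map emb
          rw [List.map_map, List.map_map]
          exact hnd) s' hs'
      rw [← List.map_cons, l2_walk_map α (p :: γ) (fun v hv => (hγ v hv).1)] at h3
      have h4 : dl d N α s' (l2inv N p) ≤ (D : ℝ) ^ α := by
        unfold dl sn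
        rw [l2_emb_inv (hγ p (by simp)).1, dist_comm]
        exact Real.rpow_le_rpow dist_nonneg hps hα.le
      have h5 : (1 - α) * ((p :: γ).map (fun v => (min (dist v (emb (a' (l2inv N v))))
          (dist v (emb (b' (l2inv N v))))) ^ α)).sum ≤
          (((p :: γ).map (l2inv N)).map (fun v => dl d N α (a' v) v + dl d N α v (b' v) -
            dl d N α (a' v) (b' v))).sum := by
        rw [← List.sum_map_mul_left, List.map_map]
        apply List.sum_le_sum
        intro v hv
        simp only [Function.comp_apply]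
        have h6 := hsnow (dist v (emb (a' (l2inv N v)))) (dist v (emb (b' (l2inv N v))))
          (dist (emb (a' (l2inv N v))) (emb (b' (l2inv N v)))) dist_nonneg dist_nonneg
          dist_nonneg (by
            have h7 := dist_triangle (emb (a' (l2inv N v))) v (emb (b' (l2inv N v)))
            rw [dist_comm (emb (a' (l2inv N v))) v] at h7
            exact h7)
        unfold dl sn
        rw [l2_emb_inv (hγ v hv).1]
        rw [dist_comm (emb (a' (l2inv N v))) v]
        exact h6
      have h8 : (1 - α) * ((p :: γ).map (fun v => (min (dist v (emb (a' (l2inv N v))))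
          (dist v (emb (b' (l2inv N v))))) ^ α)).sum ≤
          4 * κ * (walk (sn α) (p :: γ) + (D : ℝ) ^ α) := by
        refine le_trans h5 (le_trans h3 ?_)
        apply mul_le_mul_of_nonneg_left _ (by positivity)
        linarith
      have h9 : 4 * κ / (1 - α) * (walk (sn α) (p :: γ) + (D : ℝ) ^ α) =
          (4 * κ * (walk (sn α) (p :: γ) + (D : ℝ) ^ α)) / (1 - α) := by ring
      rw [h9, le_div_iff₀ h1α]
      linarith
  · intro P hP hPsep
    have hA1 : (1 : ℝ) ≤ (((N / D : ℕ) : ℝ) + 1) ^ d := by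
      apply one_le_pow₀
      have : (0 : ℝ) ≤ ((N / D : ℕ) : ℝ) := by positivity
      linarith
    rcases Nat.lt_or_ge P.card 2 with hc | hc
    · have h3 : (P.card : ℝ) ≤ 1 := by
        have : P.card ≤ 1 := by omega
        exact_mod_cast this
      have h4 : Ds ^ α ≤ (N : ℝ) ^ α := Real.rpow_le_rpow hDs.le hDsN hα.le
      have h5 : 0 ≤ Ds ^ α := by positivity
      calc (P.card : ℝ) * Ds ^ α ≤ 1 * (N : ℝ) ^ α := mul_le_mul h3 h4 h5 (by norm_num)
        _ ≤ (2 * (((N / D : ℕ) : ℝ) + 1) ^ d) * (N : ℝ) ^ α := by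
            apply mul_le_mul_of_nonneg_right _ hNα
            linarith
        _ = _ := by ring
    · set P' : Finset (Fin d → Fin (N + 1)) := S'.filter (fun x => emb x ∈ P) with hP'
      have hPi : P'.image emb = P := by
        ext x
        rw [Finset.mem_image]
        constructor
        · rintro ⟨y, hy, rfl⟩
          exact (Finset.mem_filter.mp hy).2
        · intro hx
          have h3 := hP hx
          rw [hS, Finset.mem_image] at h3
          obtain ⟨y, hy, rfl⟩ := h3
          exact ⟨y, Finset.mem_filter.mpr ⟨hy, hx⟩, rfl⟩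
      have hPc : P'.card = P.card := by
        rw [← hPi, Finset.card_image_of_injective _ l2_emb_inj]
      have h3 := hsep P' (Finset.filter_subset _ _) (by omega) (Ds ^ α) (by
        intro x hx y hy hxy
        unfold dl sn
        apply Real.rpow_le_rpow hDs.le _ hα.le
        exact (hPsep _ (Finset.mem_filter.mp hx).2 _ (Finset.mem_filter.mp hy).2
          (fun h => hxy (l2_emb_inj h))).le)
      rw [hPc] at h3
      have h4 : (S₀.card : ℝ) ≤ (((N / D : ℕ) : ℝ) + 1) ^ d := by exact_mod_cast hcard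
      calc (P.card : ℝ) * Ds ^ α ≤ 2 * cyc (dl d N α) S₀.toList := h3
        _ ≤ 2 * ((S₀.card : ℝ) * (N : ℝ) ^ α) := by linarith
        _ ≤ 2 * ((((N / D : ℕ) : ℝ) + 1) ^ d * (N : ℝ) ^ α) := by
            have := mul_le_mul_of_nonneg_right h4 hNα
            linarith
        _ = _ := by ring

end Pool.Agent.UTSP
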