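import Pool.Agent.Work.MP_27a5a0_lc.Stmts

/-!
L3. The near points are covered by few balls.
-/

namespace Pool.Agent.UTSP

open Finset

theorem prfNear : claimNear := by
  classical
  intro d N α κ D Ds A Q hDs
  set F : Finset (Finset (Pt d)) :=
    Q.S.powerset.filter (fun P => ∀ x ∈ P, ∀ y ∈ P, x ≠ y → Ds < dist x y) with hF
  have hne : F.Nonempty := ⟨∅, by simp [hF]⟩
  obtain ⟨P, hP, hmax⟩ := Finset.exists_max_image F (fun P => P.card) hne
  rw [hF, Finset.mem_filter, Finset.mem_powerset] at hP
  obtain ⟨hPS, hPsep⟩ := hP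
  refine ⟨P, Q.sep P hPS hPsep, ?_⟩
  intro v hv hfar
  have h1 : ∃ s ∈ Q.S, dist v s ≤ Ds := by
    by_contra hcon
    push Not at hcon
    exact hfar ⟨hv, fun s hs => hcon s hs⟩
  obtain ⟨s, hs, hvs⟩ := h1
  by_cases hsP : s ∈ P
  · exact ⟨s, hsP, by linarith⟩
  · by_contra hcon
    push Not at hcon
    have hall : ∀ p ∈ P, Ds < dist s p := by
      intro p hp
      have h2 := hcon p hp
      have h3 := dist_triangle v s p
      linarith
    have hin : insert s P ∈ F := by
      rw [hF, Finset.mem_filter, Finset.mem_powerset]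
      refine ⟨Finset.insert_subset hs hPS, ?_⟩
      intro x hx y hy hxy
      rw [Finset.mem_insert] at hx hy
      rcases hx with rfl | hx
      · rcases hy with rfl | hy
        · exact absurd rfl hxy
        · exact hall y hy
      · rcases hy with rfl | hy
        · rw [dist_comm]; exact hall x hx
        · exact hPsep x hx y hy hxy
    have h4 := hmax _ hin
    rw [Finset.card_insert_of_notMem hsP] at h4
    omega

end Pool.Agent.UTSP
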