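import Pool.Agent.Work.MP_27a5a0_lc.Stmts

/-!
M1: Maurey's empirical method, greedy form.
-/

namespace Pool.Agent.UTSP

open Finset

theorem m1_dir {d : ℕ} (K : Finset (Fin d → ℝ)) (μ : (Fin d → ℝ) → ℝ) (h0 : ∀ p ∈ K, 0 ≤ μ p)
    (h1 : (∑ p ∈ K, μ p) ≤ 1) (s : Fin d → ℝ) :
    ∃ p ∈ insert 0 K, ∑ j, s j * (p j - ∑ q ∈ K, μ q * q j) ≤ 0 := by
  classical
  obtain ⟨p, hp, hmin⟩ := Finset.exists_min_image (insert (0 : Fin d → ℝ) K)
    (fun q => ∑ j, s j * q j) ⟨0, Finset.mem_insert_self _ _⟩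
  refine ⟨p, hp, ?_⟩
  have hm0 : ∑ j, s j * p j ≤ 0 := by
    have := hmin 0 (Finset.mem_insert_self _ _)
    simpa using this
  have hy : ∑ j, s j * (∑ q ∈ K, μ q * q j) = ∑ q ∈ K, μ q * ∑ j, s j * q j := by
    simp_rw [Finset.mul_sum]
    rw [Finset.sum_comm]
    refine Finset.sum_congr rfl fun q _ => Finset.sum_congr rfl fun j _ => ?_
    ring
  have h2 : (∑ q ∈ K, μ q) * ∑ j, s j * p j ≤ ∑ q ∈ K, μ q * ∑ j, s j * q j := by
    rw [Finset.sum_mul]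
    refine Finset.sum_le_sum fun q hq => ?_
    exact mul_le_mul_of_nonneg_left (hmin q (Finset.mem_insert_of_mem hq)) (h0 q hq)
  have h3 : ∑ j, s j * p j ≤ (∑ q ∈ K, μ q) * ∑ j, s j * p j := by
    nlinarith
  have h4 : ∑ j, s j * (p j - ∑ q ∈ K, μ q * q j) =
      ∑ j, s j * p j - ∑ j, s j * (∑ q ∈ K, μ q * q j) := by
    rw [← Finset.sum_sub_distrib]
    refine Finset.sum_congr rfl fun j _ => ?_
    ring
  rw [h4, hy]
  linarith

theorem m1_norm {d : ℕ} (K : Finset (Fin d → ℝ)) (r : ℝ) (hK : ∀ p ∈ K, ∑ j, p j ^ 2 ≤ r ^ 2)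
    (μ : (Fin d → ℝ) → ℝ) (h0 : ∀ p ∈ K, 0 ≤ μ p) (h1 : (∑ p ∈ K, μ p) ≤ 1) :
    ∑ j, (∑ q ∈ K, μ q * q j) ^ 2 ≤ r ^ 2 := by
  set y : Fin d → ℝ := fun j => ∑ q ∈ K, μ q * q j with hy
  set Y : ℝ := ∑ j, (y j) ^ 2 with hY
  have hY0 : 0 ≤ Y := Finset.sum_nonneg fun j _ => sq_nonneg _
  have e1 : Y = ∑ q ∈ K, μ q * ∑ j, y j * q j := by
    rw [hY]
    have : ∀ j, (y j) ^ 2 = ∑ q ∈ K, μ q * (y j * q j) := by
      intro j
      have e : (y j) ^ 2 = y j * ∑ q ∈ K, μ q * q j := by rw [sq]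
      rw [e, Finset.mul_sum]
      refine Finset.sum_congr rfl fun q _ => ?_
      ring
    simp_rw [this]
    rw [Finset.sum_comm]
    refine Finset.sum_congr rfl fun q _ => ?_
    rw [Finset.mul_sum]
  have e2 : ∀ q ∈ K, ∑ j, y j * q j ≤ (Y + r ^ 2) / 2 := by
    intro q hq
    have h2 : ∑ j, y j * q j ≤ ∑ j, ((y j) ^ 2 / 2 + (q j) ^ 2 / 2) := by
      refine Finset.sum_le_sum fun j _ => ?_
      nlinarith [sq_nonneg (y j - q j)]
    rw [Finset.sum_add_distrib, ← Finset.sum_div, ← Finset.sum_div] at h2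
    have h3 := hK q hq
    linarith
  have e3 : ∑ q ∈ K, μ q * ∑ j, y j * q j ≤ (∑ q ∈ K, μ q) * ((Y + r ^ 2) / 2) := by
    rw [Finset.sum_mul]
    exact Finset.sum_le_sum fun q hq => mul_le_mul_of_nonneg_left (e2 q hq) (h0 q hq)
  have e4 : (∑ q ∈ K, μ q) * ((Y + r ^ 2) / 2) ≤ (Y + r ^ 2) / 2 := by
    have : 0 ≤ (Y + r ^ 2) / 2 := by positivity
    nlinarith
  have e5 : Y ≤ (Y + r ^ 2) / 2 := by
    calc Y = _ := e1
      _ ≤ _ := e3
      _ ≤ _ := e4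
  linarith

theorem prfMaurey : claimMaurey := by
  classical
  intro d K r hr hK μ h0 h1 k hk
  set y : Fin d → ℝ := fun j => ∑ q ∈ K, μ q * q j with hy
  have hYr := m1_norm K r hK μ h0 h1
  have hdist : ∀ p ∈ insert (0 : Fin d → ℝ) K, ∑ j, (p j - y j) ^ 2 ≤ (2 * r) ^ 2 := by
    intro p hp
    have hp2 : ∑ j, p j ^ 2 ≤ r ^ 2 := by
      rcases Finset.mem_insert.mp hp with rfl | h
      · simp
        positivity
      · exact hK p h
    have h2 : ∑ j, (p j - y j) ^ 2 ≤ ∑ j, (2 * p j ^ 2 + 2 * y j ^ 2) := by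
      refine Finset.sum_le_sum fun j _ => ?_
      nlinarith [sq_nonneg (p j + y j)]
    rw [Finset.sum_add_distrib, ← Finset.mul_sum, ← Finset.mul_sum] at h2
    have h3 : ∑ j, y j ^ 2 ≤ r ^ 2 := hYr
    nlinarith
  have key : ∀ n : ℕ, ∃ f : Fin n → Fin d → ℝ, (∀ i, f i ∈ insert 0 K) ∧
      ∑ j, (∑ i, (f i j - y j)) ^ 2 ≤ n * (2 * r) ^ 2 := by
    intro n
    induction n with
    | zero => exact ⟨fun i => i.elim0, fun i => i.elim0, by simp⟩
    | succ n ih =>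
      obtain ⟨f, hf, hs⟩ := ih
      set s : Fin d → ℝ := fun j => ∑ i, (f i j - y j) with hsd
      obtain ⟨p, hp, hps⟩ := m1_dir K μ h0 h1 s
      refine ⟨Fin.snoc f p, ?_, ?_⟩
      · intro i
        refine Fin.lastCases ?_ (fun i => ?_) i
        · rw [Fin.snoc_last]; exact hp
        · rw [Fin.snoc_castSucc]; exact hf i
      · have e : ∀ j, ∑ i : Fin (n + 1), ((Fin.snoc f p : Fin (n + 1) → Fin d → ℝ) i j - y j) =
            s j + (p j - y j) := by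
          intro j
          rw [Fin.sum_univ_castSucc]
          simp only [Fin.snoc_castSucc, Fin.snoc_last]
          rfl
        simp_rw [e]
        have e2 : ∑ j, (s j + (p j - y j)) ^ 2 =
            ∑ j, (s j) ^ 2 + 2 * ∑ j, s j * (p j - y j) + ∑ j, (p j - y j) ^ 2 := by
          rw [Finset.mul_sum, ← Finset.sum_add_distrib, ← Finset.sum_add_distrib]
          refine Finset.sum_congr rfl fun j _ => ?_
          ring
        rw [e2]
        have h2 := hdist p hp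
        have h3 : ∑ j, s j * (p j - y j) ≤ 0 := hps
        have h4 : ∑ j, (s j) ^ 2 ≤ n * (2 * r) ^ 2 := hs
        push_cast
        linarith
  obtain ⟨f, hf, hs⟩ := key k
  refine ⟨f, hf, ?_⟩
  have hk0 : (0 : ℝ) < k := by exact_mod_cast hk
  have e : ∀ j, ((∑ p ∈ K, μ p * p j) - (∑ i, f i j) / k) ^ 2 =
      (∑ i, (f i j - y j)) ^ 2 / k ^ 2 := by
    intro j
    rw [Finset.sum_sub_distrib, Finset.sum_const, Finset.card_univ, Fintype.card_fin, nsmul_eq_mul]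
    have : (∑ p ∈ K, μ p * p j) = y j := rfl
    rw [this]
    field_simp
    ring
  simp_rw [e]
  rw [← Finset.sum_div, div_le_div_iff₀ (by positivity) hk0]
  nlinarith

end Pool.Agent.UTSP
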