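import Pool.Agent.Work.MP_27a5a0_lc.Stmts

/-! MP_27a5a0_lc, item M2: lattice points in the sum of a ball and a cube. -/

namespace Pool.Agent.UTSP

open Finset

theorem m2_geom (n : ℕ) :
    ∑ m ∈ Finset.Icc (-(n : ℤ)) n, (1 / 2 : ℝ) ^ m.natAbs ≤ 3 - 2 * (1 / 2) ^ n := by
  induction n with
  | zero => norm_num
  | succ n ih =>
    have h1 : Finset.Icc (-((n + 1 : ℕ) : ℤ)) ((n + 1 : ℕ) : ℤ) =
        insert (-((n + 1 : ℕ) : ℤ)) (insert ((n + 1 : ℕ) : ℤ) (Finset.Icc (-(n : ℤ)) n)) := by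
      ext m
      simp only [Finset.mem_Icc, Finset.mem_insert]
      push_cast
      omega
    rw [h1, Finset.sum_insert, Finset.sum_insert]
    · have e1 : (-((n + 1 : ℕ) : ℤ)).natAbs = n + 1 := by
        rw [Int.natAbs_neg, Int.natAbs_natCast]
      have e2 : ((n + 1 : ℕ) : ℤ).natAbs = n + 1 := Int.natAbs_natCast _
      rw [e1, e2, pow_succ]
      linarith
    · simp only [Finset.mem_Icc]
      push_cast
      omega
    · simp only [Finset.mem_Icc, Finset.mem_insert]
      push_cast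
      omega

/-- the set of the integer vectors with small sum norm -/
noncomputable def m2_G (d : ℕ) : Finset (Fin d → ℤ) :=
  (Fintype.piFinset (fun _ : Fin d => Finset.Icc (-((2 * d : ℕ) : ℤ)) ((2 * d : ℕ) : ℤ))).filter
    (fun g => ∑ j, (g j).natAbs ≤ 2 * d)

theorem m2_card (d : ℕ) : ((m2_G d).card : ℝ) ≤ 12 ^ d := by
  set B := Fintype.piFinset (fun _ : Fin d => Finset.Icc (-((2 * d : ℕ) : ℤ)) ((2 * d : ℕ) : ℤ))
    with hB
  have h1 : ∑ g ∈ B, ∏ j, (1 / 2 : ℝ) ^ (g j).natAbs ≤ 3 ^ d := by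
    have h0 := Finset.prod_univ_sum
      (fun _ : Fin d => Finset.Icc (-((2 * d : ℕ) : ℤ)) ((2 * d : ℕ) : ℤ))
      (fun _ m => (1 / 2 : ℝ) ^ m.natAbs)
    rw [hB, ← h0]
    calc ∏ _j : Fin d, ∑ m ∈ Finset.Icc (-((2 * d : ℕ) : ℤ)) ((2 * d : ℕ) : ℤ),
          (1 / 2 : ℝ) ^ m.natAbs ≤ ∏ _j : Fin d, (3 : ℝ) := by
          apply Finset.prod_le_prod
          · intro j _
            positivity
          · intro j _
            have := m2_geom (2 * d)
            have h2 : (0 : ℝ) < 2 * (1 / 2) ^ (2 * d) := by positivity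
            linarith
      _ = 3 ^ d := by simp
  have h2 : ∑ g ∈ m2_G d, ((1 / 4 : ℝ)) ^ d ≤ ∑ g ∈ B, ∏ j, (1 / 2 : ℝ) ^ (g j).natAbs := by
    have h3 : ∑ g ∈ m2_G d, ((1 / 4 : ℝ)) ^ d ≤ ∑ g ∈ m2_G d, ∏ j, (1 / 2 : ℝ) ^ (g j).natAbs := by
      apply Finset.sum_le_sum
      intro g hg
      unfold m2_G at hg
      rw [Finset.mem_filter] at hg
      rw [Finset.prod_pow_eq_pow_sum]
      have e : (1 / 4 : ℝ) ^ d = (1 / 2) ^ (2 * d) := by
        rw [pow_mul]
        norm_num
      rw [e]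
      exact pow_le_pow_of_le_one (by norm_num) (by norm_num) hg.2
    refine h3.trans ?_
    apply Finset.sum_le_sum_of_subset_of_nonneg
    · exact Finset.filter_subset _ _
    · intro g _ _
      positivity
  have h3 := h2.trans h1
  rw [Finset.sum_const, nsmul_eq_mul] at h3
  have h4 : (0 : ℝ) < (4 : ℝ) ^ d := by positivity
  have e1 : (1 / 4 : ℝ) ^ d * 4 ^ d = 1 := by
    rw [← mul_pow]
    norm_num
  have e2 : (12 : ℝ) ^ d = 3 ^ d * 4 ^ d := by
    rw [← mul_pow]
    norm_num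
  calc ((m2_G d).card : ℝ) = (m2_G d).card * (1 / 4) ^ d * 4 ^ d := by
        rw [mul_assoc, e1, mul_one]
    _ ≤ 3 ^ d * 4 ^ d := by
        apply mul_le_mul_of_nonneg_right h3 h4.le
    _ = 12 ^ d := e2.symm

theorem m2_ico (a b : ℝ) (h : a ≤ b) : ((Finset.Ico ⌈a⌉ ⌈b⌉).card : ℝ) ≤ b - a + 1 := by
  rw [Int.card_Ico]
  have h1 : (⌈b⌉ : ℝ) < b + 1 := Int.ceil_lt_add_one b
  have h2 : a ≤ ⌈a⌉ := Int.le_ceil a
  have h3 : 0 ≤ ⌈b⌉ - ⌈a⌉ := by
    have := Int.ceil_le_ceil h
    omega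
  have h4 : (((⌈b⌉ - ⌈a⌉).toNat : ℤ) : ℝ) = ((⌈b⌉ - ⌈a⌉ : ℤ) : ℝ) := by
    rw [Int.toNat_of_nonneg h3]
  rw [Int.cast_natCast] at h4
  rw [h4]
  push_cast
  linarith

theorem prfLat : claimLat := by
  classical
  intro d s hs Y y₀ hY
  set I : (Fin d → ℤ) → Fin d → Finset ℤ := fun g j =>
    Finset.Ico ⌈y₀ j + s * g j⌉ ⌈y₀ j + s * (g j + 1)⌉ with hI
  have hsub : Y ⊆ (m2_G d).biUnion (fun g => Fintype.piFinset (I g)) := by
    intro y hy
    obtain ⟨w, c, hwc, hw⟩ := hY y hy
    set g : Fin d → ℤ := fun j => ⌊((y j : ℝ) - y₀ j) / s⌋ with hg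
    have hg1 : ∀ j, s * g j ≤ (y j : ℝ) - y₀ j := by
      intro j
      have := Int.floor_le (((y j : ℝ) - y₀ j) / s)
      rw [le_div_iff₀ hs] at this
      rw [hg]
      simp only
      linarith
    have hg2 : ∀ j, (y j : ℝ) - y₀ j < s * (g j + 1) := by
      intro j
      have := Int.lt_floor_add_one (((y j : ℝ) - y₀ j) / s)
      rw [div_lt_iff₀ hs] at this
      rw [hg]
      simp only
      linarith
    have habs : ∀ j, |(g j : ℝ)| ≤ |w j| / s + 1 := by
      intro j
      obtain ⟨e1, e2, e3⟩ := hwc j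
      have h1 := hg1 j
      have h2 := hg2 j
      have h3 := neg_abs_le (w j)
      have h4 := le_abs_self (w j)
      have e4 : |w j| / s + 1 = (|w j| + s) / s := by field_simp
      rw [e4, le_div_iff₀ hs]
      have h5 : |(g j : ℝ)| * s = |(g j : ℝ) * s| := by rw [abs_mul, abs_of_pos hs]
      rw [h5, abs_le]
      constructor <;> nlinarith
    have hsumw : ∑ j, |w j| ≤ s * d := by
      have h1 : (∑ j, |w j|) ^ 2 ≤ (s * d) ^ 2 := by
        have h2 := sq_sum_le_card_mul_sum_sq (s := (Finset.univ : Finset (Fin d)))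
          (f := fun j => |w j|)
        rw [Finset.card_univ, Fintype.card_fin] at h2
        simp only [sq_abs] at h2
        calc (∑ j, |w j|) ^ 2 ≤ d * ∑ j, w j ^ 2 := h2
          _ ≤ d * (s ^ 2 * d) := by
              apply mul_le_mul_of_nonneg_left hw
              positivity
          _ = (s * d) ^ 2 := by ring
      exact abs_le_of_sq_le_sq' h1 (by positivity) |>.2
    have hsumg : ∑ j, (g j).natAbs ≤ 2 * d := by
      have h1 : ((∑ j, (g j).natAbs : ℕ) : ℝ) ≤ ((2 * d : ℕ) : ℝ) := by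
        push_cast
        calc ∑ j, ((g j).natAbs : ℝ) = ∑ j, |(g j : ℝ)| := by
              apply Finset.sum_congr rfl
              intro j _
              rw [Nat.cast_natAbs]
              push_cast
              rfl
          _ ≤ ∑ j, (|w j| / s + 1) := Finset.sum_le_sum (fun j _ => habs j)
          _ = (∑ j, |w j|) / s + d := by
              rw [Finset.sum_add_distrib, Finset.sum_div]
              simp
          _ ≤ (s * d) / s + d := by gcongr
          _ = 2 * d := by
              field_simp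
              ring
      exact_mod_cast h1
    rw [Finset.mem_biUnion]
    refine ⟨g, ?_, ?_⟩
    · unfold m2_G
      rw [Finset.mem_filter, Fintype.mem_piFinset]
      refine ⟨fun j => ?_, hsumg⟩
      have h1 : (g j).natAbs ≤ ∑ j, (g j).natAbs :=
        Finset.single_le_sum (f := fun j => (g j).natAbs) (fun _ _ => Nat.zero_le _)
          (Finset.mem_univ j)
      rw [Finset.mem_Icc]
      omega
    · rw [Fintype.mem_piFinset]
      intro j
      rw [hI]
      simp only [Finset.mem_Ico]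
      constructor
      · rw [Int.ceil_le]
        linarith [hg1 j]
      · rw [Int.lt_ceil]
        linarith [hg2 j]
  have h1 : (Y.card : ℝ) ≤ ∑ g ∈ m2_G d, ((Fintype.piFinset (I g)).card : ℝ) := by
    have := (Finset.card_le_card hsub).trans Finset.card_biUnion_le
    exact_mod_cast this
  refine h1.trans ?_
  have h2 : ∀ g ∈ m2_G d, ((Fintype.piFinset (I g)).card : ℝ) ≤ (s + 1) ^ d := by
    intro g _
    rw [Fintype.card_piFinset]
    push_cast
    calc ∏ j, ((I g j).card : ℝ) ≤ ∏ _j : Fin d, (s + 1) := by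
          apply Finset.prod_le_prod (fun j _ => by positivity)
          intro j _
          refine (m2_ico _ _ (by nlinarith)).trans (le_of_eq ?_)
          ring
      _ = (s + 1) ^ d := by simp
  refine (Finset.sum_le_sum h2).trans ?_
  rw [Finset.sum_const, nsmul_eq_mul, mul_pow]
  apply mul_le_mul_of_nonneg_right (m2_card d)
  positivity

end Pool.Agent.UTSP
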