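import Pool.Agent.Work.MP_27a5a0_lc.Stmts

/-!
M3: number of lattice points obtained from one pool and one set of coarse names.
-/

namespace Pool.Agent.UTSP

open Finset

/-- the shifted point -/
private noncomputable def shiftM (d : ℕ) (c p : Pt d) : Fin d → ℝ := fun j => (p j : ℝ) - c j

/-- the inverse of the shift -/
private noncomputable def unshiftM (d : ℕ) (c : Pt d) (v : Fin d → ℝ) : Pt d :=
  fun j => ⌊v j⌋ + c j

private lemma unshiftM_shiftM (d : ℕ) (c p : Pt d) : unshiftM d c (shiftM d c p) = p := by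
  funext j
  have h : ((p j : ℝ) - c j) = ((p j - c j : ℤ) : ℝ) := by push_cast; ring
  simp only [unshiftM, shiftM]
  rw [h, Int.floor_intCast]
  ring

private lemma shiftM_inj (d : ℕ) (c : Pt d) : Function.Injective (shiftM d c) := by
  intro p q h
  rw [← unshiftM_shiftM d c p, h, unshiftM_shiftM]

private lemma abs_le_of_distM {d : ℕ} {p c : Pt d} {ρ : ℝ} (h : dist p c ≤ ρ) (j : Fin d) :
    |(p j : ℝ) - c j| ≤ ρ := by
  have h1 := dist_le_pi_dist p c j
  rw [Int.dist_eq] at h1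
  exact h1.trans h

/-- the Maurey part -/
private lemma maureyM (h1 : claimMaurey) {d k : ℕ} (hk : 1 ≤ k) {ρ : ℝ} (hρ : 0 ≤ ρ)
    (K : Finset (Pt d)) (c : Pt d) (hK : ∀ p ∈ K, dist p c ≤ ρ) (μ : Pt d → ℝ)
    (hμ : ∀ p, 0 ≤ μ p) (hμ1 : (∑ p ∈ K, μ p) ≤ 1) :
    ∃ f : Fin k → Fin d → ℝ, (∀ i, f i ∈ insert 0 (K.image (shiftM d c))) ∧
      ∑ j, ((∑ p ∈ K, μ p * ((p j : ℝ) - c j)) - (∑ i, f i j) / k) ^ 2 ≤
        (2 * ρ) ^ 2 * d / k := by
  have hinj : Set.InjOn (shiftM d c) (K : Set (Pt d)) := (shiftM_inj d c).injOn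
  obtain ⟨f, hf, hs⟩ := h1 d (K.image (shiftM d c)) (Real.sqrt d * ρ) (by positivity)
    (by
      intro v hv
      obtain ⟨p, hp, rfl⟩ := Finset.mem_image.1 hv
      calc ∑ j, (shiftM d c p j) ^ 2 ≤ ∑ _j : Fin d, ρ ^ 2 := by
            apply Finset.sum_le_sum
            intro j _
            have h3 := abs_le.1 (abs_le_of_distM (hK p hp) j)
            have h4 : shiftM d c p j = (p j : ℝ) - c j := rfl
            rw [h4]
            exact sq_le_sq' h3.1 h3.2
        _ = (Real.sqrt d * ρ) ^ 2 := by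
            rw [Finset.sum_const, Finset.card_univ, Fintype.card_fin, mul_pow,
              Real.sq_sqrt (Nat.cast_nonneg d), nsmul_eq_mul])
    (fun v => μ (unshiftM d c v)) (fun v _ => hμ _)
    (by
      rw [Finset.sum_image hinj]
      simp only [unshiftM_shiftM]
      exact hμ1) k hk
  refine ⟨f, hf, ?_⟩
  have e1 : ∀ j, (∑ v ∈ K.image (shiftM d c), μ (unshiftM d c v) * v j) =
      ∑ p ∈ K, μ p * ((p j : ℝ) - c j) := by
    intro j
    rw [Finset.sum_image hinj]
    simp only [unshiftM_shiftM]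
    rfl
  simp only [e1] at hs
  refine hs.trans (le_of_eq ?_)
  have : (2 * (Real.sqrt d * ρ)) ^ 2 = (2 * ρ) ^ 2 * d := by
    rw [show 2 * (Real.sqrt d * ρ) = Real.sqrt d * (2 * ρ) by ring, mul_pow,
      Real.sq_sqrt (Nat.cast_nonneg d)]
    ring
  rw [this]

/-- Minkowski -/
private lemma minkM {d : ℕ} (A E : Fin d → ℝ) (a : ℝ) (ha : 0 ≤ a)
    (hA : ∑ j, A j ^ 2 ≤ a ^ 2 * d) (hE : ∀ j, |E j| ≤ 1) :
    ∑ j, (A j + E j) ^ 2 ≤ (a + 1) ^ 2 * d := by
  have hE2 : ∑ j, E j ^ 2 ≤ (d : ℝ) := by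
    calc ∑ j, E j ^ 2 ≤ ∑ _j : Fin d, (1 : ℝ) := by
          apply Finset.sum_le_sum
          intro j _
          have := hE j
          rw [← sq_abs]
          nlinarith [abs_nonneg (E j)]
      _ = d := by simp
  have hcs := Finset.sum_mul_sq_le_sq_mul_sq Finset.univ A E
  have h0A : 0 ≤ ∑ j, A j ^ 2 := Finset.sum_nonneg fun j _ => sq_nonneg _
  have h0E : 0 ≤ ∑ j, E j ^ 2 := Finset.sum_nonneg fun j _ => sq_nonneg _
  have hd : (0 : ℝ) ≤ d := Nat.cast_nonneg d
  have h1 : (∑ j, A j * E j) ^ 2 ≤ (a * d) ^ 2 := by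
    calc (∑ j, A j * E j) ^ 2 ≤ (∑ j, A j ^ 2) * (∑ j, E j ^ 2) := hcs
      _ ≤ (a ^ 2 * d) * d := mul_le_mul hA hE2 h0E (by positivity)
      _ = (a * d) ^ 2 := by ring
  have h2 : ∑ j, A j * E j ≤ a * d := by
    exact (le_abs_self _).trans (abs_le_of_sq_le_sq h1 (by positivity))
  have h3 : ∑ j, (A j + E j) ^ 2 = ∑ j, A j ^ 2 + 2 * ∑ j, A j * E j + ∑ j, E j ^ 2 := by
    rw [Finset.mul_sum, ← Finset.sum_add_distrib, ← Finset.sum_add_distrib]
    exact Finset.sum_congr rfl fun j _ => by ring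
  rw [h3]
  nlinarith

open Classical in
/-- possible rounded weights -/
private noncomputable def NNM {d : ℕ} (C : Finset (Pt d)) (B q : ℕ) : Finset (Pt d → ℕ) :=
  (C.powerset.filter (fun Cs => Cs.card ≤ B)).biUnion
    (fun Cs => (Cs.pi (fun _ => Finset.range (q + 1))).image
      (fun g p => if h : p ∈ Cs then g p h else 0))

private lemma NNM_card {d : ℕ} (C : Finset (Pt d)) (B q : ℕ) (hC : C.card ≤ d + 1) :
    (NNM C B q).card ≤ 2 ^ (d + 1) * (q + 1) ^ B := by
  classical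
  unfold NNM
  refine (Finset.card_biUnion_le_card_mul _ _ ((q + 1) ^ B) ?_).trans ?_
  · intro Cs hCs
    rw [Finset.mem_filter] at hCs
    refine Finset.card_image_le.trans ?_
    rw [Finset.card_pi]
    simp only [Finset.card_range, Finset.prod_const]
    exact Nat.pow_le_pow_right (by omega) hCs.2
  · apply Nat.mul_le_mul_right
    refine (Finset.card_filter_le _ _).trans ?_
    rw [Finset.card_powerset]
    exact Nat.pow_le_pow_right (by norm_num) hC

open Classical in
private lemma NNM_mem {d : ℕ} (C : Finset (Pt d)) (B q : ℕ) (Cs : Finset (Pt d)) (hCs : Cs ⊆ C)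
    (hB : Cs.card ≤ B) (g : Pt d → ℕ) (hg : ∀ p, g p ≤ q) :
    (fun p => if p ∈ Cs then g p else 0) ∈ NNM C B q := by
  unfold NNM
  rw [Finset.mem_biUnion]
  refine ⟨Cs, Finset.mem_filter.2 ⟨Finset.mem_powerset.2 hCs, hB⟩, ?_⟩
  rw [Finset.mem_image]
  refine ⟨fun p _ => g p, ?_, ?_⟩
  · rw [Finset.mem_pi]
    intro p _
    rw [Finset.mem_range]
    exact Nat.lt_succ_of_le (hg p)
  · funext p
    by_cases h : p ∈ Cs
    · simp [h]
    · simp [h]

theorem prfCell (h1 : claimMaurey) (h2 : claimLat) : claimCell := by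
  classical
  intro d m B q k ρ ρc s hd hk hq hρ hρc hBq hs K C c hKm hCd hK hC Y hY
  have hkr : (0 : ℝ) < k := by exact_mod_cast hk
  have hqr : (0 : ℝ) < q := by exact_mod_cast hq
  set a : ℝ := 2 * ρ / Real.sqrt k with ha
  have ha0 : 0 ≤ a := by positivity
  have hs0 : 0 < s := by linarith
  -- the data of a point
  have hdata : ∀ y ∈ Y, ∃ D : (Fin k → Fin d → ℝ) × (Pt d → ℕ),
      D ∈ (Fintype.piFinset (fun _ : Fin k => insert 0 (K.image (shiftM d c)))) ×ˢ NNM C B q ∧
      ∃ w x : Fin d → ℝ, (∀ j, (y j : ℝ) = ((c j : ℝ) + (∑ i, D.1 i j) / k +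
        ∑ p ∈ C, (D.2 p : ℝ) / q * ((p j : ℝ) - c j)) + w j + x j ∧ 0 ≤ x j ∧ x j ≤ s) ∧
        ∑ j, w j ^ 2 ≤ s ^ 2 * d := by
    intro y hy
    obtain ⟨μ, ν, Cs, x, hCsC, hCsB, hμ0, hν0, hμ1, hν1, hx, hyj⟩ := hY y hy
    obtain ⟨f, hf, hfs⟩ := maureyM h1 hk hρ K c hK μ hμ0 hμ1
    have hν1' : ∀ p ∈ Cs, ν p ≤ 1 := by
      intro p hp
      exact (Finset.single_le_sum (fun r _ => hν0 r) hp).trans hν1
    set g : Pt d → ℕ := fun p => min q ⌊(q : ℝ) * ν p⌋₊ with hg
    refine ⟨(f, fun p => if p ∈ Cs then g p else 0), ?_, ?_⟩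
    · rw [Finset.mem_product]
      refine ⟨Fintype.mem_piFinset.2 hf, NNM_mem C B q Cs hCsC hCsB g ?_⟩
      intro p
      exact min_le_left _ _
    set A : Fin d → ℝ := fun j => (∑ p ∈ K, μ p * ((p j : ℝ) - c j)) - (∑ i, f i j) / k with hA
    set E : Fin d → ℝ := fun j => ∑ p ∈ Cs, (ν p - (g p : ℝ) / q) * ((p j : ℝ) - c j) with hE
    refine ⟨fun j => A j + E j, x, ?_, ?_⟩
    · intro j
      refine ⟨?_, hx j⟩
      have hsum : ∑ p ∈ C, (((if p ∈ Cs then g p else 0 : ℕ) : ℝ) / q * ((p j : ℝ) - c j)) =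
          ∑ p ∈ Cs, (g p : ℝ) / q * ((p j : ℝ) - c j) := by
        rw [← Finset.sum_subset hCsC]
        · refine Finset.sum_congr rfl fun p hp => ?_
          rw [if_pos hp]
        · intro p _ hp
          rw [if_neg hp]
          simp
      have hEj : E j = (∑ p ∈ Cs, ν p * ((p j : ℝ) - c j)) -
          ∑ p ∈ Cs, (g p : ℝ) / q * ((p j : ℝ) - c j) := by
        rw [hE, ← Finset.sum_sub_distrib]
        exact Finset.sum_congr rfl fun p _ => by ring
      have := hyj j
      change (y j : ℝ) = ((c j : ℝ) + (∑ i, f i j) / k +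
        ∑ p ∈ C, (((if p ∈ Cs then g p else 0 : ℕ) : ℝ) / q * ((p j : ℝ) - c j))) +
        (A j + E j) + x j
      rw [hsum, hEj, hA]
      dsimp only
      linarith
    · have hAs : ∑ j, A j ^ 2 ≤ a ^ 2 * d := by
        refine hfs.trans (le_of_eq ?_)
        rw [ha, div_pow, Real.sq_sqrt hkr.le]
        ring
      have hEs : ∀ j, |E j| ≤ 1 := by
        intro j
        have hterm : ∀ p ∈ Cs, |(ν p - (g p : ℝ) / q) * ((p j : ℝ) - c j)| ≤ 1 / q * ρc := by
          intro p hp
          rw [abs_mul]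
          have hp1 : |(p j : ℝ) - c j| ≤ ρc := abs_le_of_distM (hC p (hCsC hp)) j
          have hfl : g p = ⌊(q : ℝ) * ν p⌋₊ := by
            rw [hg]
            apply min_eq_right
            apply Nat.floor_le_of_le
            have := hν1' p hp
            nlinarith
          have hp2 : |ν p - (g p : ℝ) / q| ≤ 1 / q := by
            have hl : (g p : ℝ) ≤ (q : ℝ) * ν p := by
              rw [hfl]
              exact Nat.floor_le (mul_nonneg hqr.le (hν0 p))
            have hu : (q : ℝ) * ν p < (g p : ℝ) + 1 := by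
              rw [hfl]
              exact Nat.lt_floor_add_one _
            rw [abs_le]
            constructor
            · have : (g p : ℝ) / q ≤ ν p := by
                rw [div_le_iff₀ hqr]
                linarith
              have : 0 ≤ 1 / (q : ℝ) := by positivity
              linarith
            · rw [sub_le_iff_le_add, ← add_div, le_div_iff₀ hqr]
              linarith
          exact mul_le_mul hp2 hp1 (abs_nonneg _) (by positivity)
        calc |E j| ≤ ∑ p ∈ Cs, |(ν p - (g p : ℝ) / q) * ((p j : ℝ) - c j)| :=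
              Finset.abs_sum_le_sum_abs _ _
          _ ≤ ∑ _p ∈ Cs, 1 / (q : ℝ) * ρc := Finset.sum_le_sum hterm
          _ = Cs.card * (1 / q * ρc) := by rw [Finset.sum_const, nsmul_eq_mul]
          _ ≤ B * (1 / q * ρc) := by
              apply mul_le_mul_of_nonneg_right
              · exact_mod_cast hCsB
              · positivity
          _ = (B * ρc) / q := by ring
          _ ≤ 1 := by
              rw [div_le_one hqr]
              exact hBq
      refine (minkM A E a ha0 hAs hEs).trans ?_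
      apply mul_le_mul_of_nonneg_right _ (Nat.cast_nonneg d)
      exact pow_le_pow_left₀ (by linarith) hs 2
  choose! D hD w x hwx hw using hdata
  -- the fibres
  set n : ℕ := ⌊(12 * (s + 1)) ^ d⌋₊ with hn
  have hnr : (n : ℝ) ≤ (12 * (s + 1)) ^ d := Nat.floor_le (by positivity)
  have hfib : ∀ D₀ ∈ Y.image D, (Y.filter (fun y => D y = D₀)).card ≤ n := by
    intro D₀ _
    apply Nat.le_floor
    refine h2 d s hs0 _ (fun j => (c j : ℝ) + (∑ i, D₀.1 i j) / k +
        ∑ p ∈ C, (D₀.2 p : ℝ) / q * ((p j : ℝ) - c j)) ?_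
    intro y hy
    rw [Finset.mem_filter] at hy
    refine ⟨w y, x y, ?_, hw y hy.1⟩
    intro j
    have := hwx y hy.1 j
    rw [hy.2] at this
    exact this
  have hcard := Finset.card_le_mul_card_image Y n hfib
  have himg : (Y.image D).card ≤ (m + 1) ^ k * (2 ^ (d + 1) * (q + 1) ^ B) := by
    have hsub : Y.image D ⊆
        (Fintype.piFinset (fun _ : Fin k => insert 0 (K.image (shiftM d c)))) ×ˢ NNM C B q := by
      intro D₀ hD₀
      obtain ⟨y, hy, rfl⟩ := Finset.mem_image.1 hD₀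
      exact hD y hy
    refine (Finset.card_le_card hsub).trans ?_
    rw [Finset.card_product, Fintype.card_piFinset]
    apply Nat.mul_le_mul
    · rw [Finset.prod_const, Finset.card_univ, Fintype.card_fin]
      apply Nat.pow_le_pow_left
      refine (Finset.card_insert_le _ _).trans ?_
      have := Finset.card_image_le (s := K) (f := shiftM d c)
      omega
    · exact NNM_card C B q hCd
  calc (Y.card : ℝ) ≤ ((n * (Y.image D).card : ℕ) : ℝ) := by exact_mod_cast hcard
    _ ≤ ((n * ((m + 1) ^ k * (2 ^ (d + 1) * (q + 1) ^ B)) : ℕ) : ℝ) := by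
        exact_mod_cast Nat.mul_le_mul_left n himg
    _ = (n : ℝ) * ((m + 1 : ℝ) ^ k * 2 ^ (d + 1) * (q + 1 : ℝ) ^ B) := by push_cast; ring
    _ ≤ (12 * (s + 1)) ^ d * ((m + 1 : ℝ) ^ k * 2 ^ (d + 1) * (q + 1 : ℝ) ^ B) := by
        apply mul_le_mul_of_nonneg_right hnr
        positivity
    _ = ((m + 1 : ℝ) ^ k * 2 ^ (d + 1) * (q + 1 : ℝ) ^ B) * (12 * (s + 1)) ^ d := by ring

end Pool.Agent.UTSP
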