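import Pool.Agent.Work.MP_27a5a0_lc.Stmts

/-!
MP_27a5a0_lc, item N1: numerical conditions I.
-/

namespace Pool.Agent.UTSP

theorem n1_rpow {m : ℕ} (hm : 2 ≤ m) (e : ℕ) {J : ℝ} (hJ : 0 ≤ J) :
    (J ^ (m * e)) ^ (((m : ℝ) - 1) / m) = J ^ ((m - 1) * e) := by
  have hm0 : (m : ℝ) ≠ 0 := by
    have : (2 : ℝ) ≤ m := by exact_mod_cast hm
    linarith
  rw [← Real.rpow_natCast, ← Real.rpow_mul hJ, ← Real.rpow_natCast]
  congr 1
  rw [Nat.cast_mul, Nat.cast_mul, Nat.cast_sub (by omega : 1 ≤ m)]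
  field_simp
  simp

/-- N1 -/
theorem prfNumPhi : claimNumPhi := by
  intro m a hm ha
  rw [Filter.eventually_atTop]
  refine ⟨56 * m + 20, ?_⟩
  intro J hJ
  obtain ⟨k, hk⟩ : ∃ k, (m - 1) * a = k + 3 := ⟨(m - 1) * a - 3, by omega⟩
  have hkp : kp m a = k := by unfold kp; omega
  obtain ⟨p, hp⟩ : ∃ p, pp m a = p + 2 := by
    refine ⟨4 * m * a + 2 * m + 1, ?_⟩
    unfold pp
    ring
  have het : et m a = m * (p + 4) := by unfold et; rw [hp]
  have hes : es m a = m * (p + 4 + a) := by unfold es; rw [het]; ring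
  have heD : eD m a = m * (p + 5 + a) := by unfold eD; rw [hes]; ring
  have her : er m a = m * (p + 5 + 2 * a) := by unfold er; rw [heD]; ring
  have heu : eu m a = m * (p + 5 + a + (k + p + 3)) := by
    unfold eu; rw [heD, hkp, hp]; ring
  rw [hkp, hp, het, hes, heD, her, heu]
  have hm2 : (2 : ℝ) ≤ m := by exact_mod_cast hm
  have hm0 : (m : ℝ) ≠ 0 := by linarith
  have hJr : (56 : ℝ) * m + 20 ≤ J := by exact_mod_cast hJ
  have hJ0 : (0 : ℝ) ≤ J := by linarith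
  have hJ1 : (1 : ℝ) ≤ J := by linarith
  have hJpos : (0 : ℝ) < J := by linarith
  have hJn1 : 1 ≤ J := by omega
  have e2 : p + 2 - 2 = p := by omega
  rw [n1_rpow hm _ hJ0, n1_rpow hm _ hJ0, n1_rpow hm _ hJ0, e2]
  refine ⟨?_, ?_, ?_, ?_, ?_, ?_, ?_, ?_⟩
  · have : (1 : ℝ) - ((m : ℝ) - 1) / m = 1 / m := by
      field_simp
      ring
    rw [this]
    field_simp
  · -- (2)
    push_cast
    have e3 : (m - 1) * (p + 5 + a) = (m - 1) * (p + 4 + a) + (m - 1) := by ring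
    have e4 : (J : ℝ) ^ (k + (p + 2) + m) = J ^ (k + (p + 2)) * (J ^ (m - 1) * J) := by
      rw [← pow_succ, ← pow_add]
      congr 1
      omega
    rw [e3, e4, pow_add (J : ℝ) ((m - 1) * (p + 4 + a)) (m - 1)]
    have h8 : (8 : ℝ) * m ≤ J := by linarith
    calc 2 * (4 * (m : ℝ) * (J : ℝ) ^ (k + (p + 2))) *
          ((J : ℝ) ^ ((m - 1) * (p + 4 + a)) * (J : ℝ) ^ (m - 1))
        = (8 * m) * ((J : ℝ) ^ (k + (p + 2)) * (J : ℝ) ^ ((m - 1) * (p + 4 + a)) *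
          (J : ℝ) ^ (m - 1)) := by ring
      _ ≤ J * ((J : ℝ) ^ (k + (p + 2)) * (J : ℝ) ^ ((m - 1) * (p + 4 + a)) *
          (J : ℝ) ^ (m - 1)) := mul_le_mul_of_nonneg_right h8 (by positivity)
      _ = _ := by ring
  · -- (3)
    push_cast
    have e3 : (2 * (3 * (J : ℝ) ^ (m * (p + 4)))) ^ (((m : ℝ) - 1) / m) ≤
        6 * (J : ℝ) ^ ((m - 1) * (p + 4)) := by
      have h1 : (2 * (3 * (J : ℝ) ^ (m * (p + 4)))) = 6 * (J : ℝ) ^ (m * (p + 4)) := by ring
      rw [h1, Real.mul_rpow (by norm_num) (by positivity), n1_rpow hm _ hJ0]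
      apply mul_le_mul_of_nonneg_right _ (by positivity)
      calc (6 : ℝ) ^ (((m : ℝ) - 1) / m) ≤ 6 ^ (1 : ℝ) := by
            apply Real.rpow_le_rpow_of_exponent_le (by norm_num)
            rw [div_le_one (by linarith)]
            linarith
        _ = 6 := Real.rpow_one 6
    have e4 : (J : ℝ) ^ p ≤ (J : ℝ) ^ ((m - 1) * (p + 4)) := by
      apply pow_le_pow_right₀ hJ1
      have : 1 * (p + 4) ≤ (m - 1) * (p + 4) := Nat.mul_le_mul_right _ (by omega)
      omega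
    have e5 : (J : ℝ) ^ p * (J : ℝ) ^ ((m - 1) * (p + 4 + a)) =
        J * ((J : ℝ) ^ (k + (p + 2)) * (J : ℝ) ^ ((m - 1) * (p + 4))) := by
      rw [← pow_add, ← pow_add, ← pow_succ']
      congr 1
      have : (m - 1) * (p + 4 + a) = (m - 1) * (p + 4) + (m - 1) * a := by ring
      rw [this, hk]
      ring
    rw [e5]
    have hP : 0 < (J : ℝ) ^ (k + (p + 2)) * (J : ℝ) ^ ((m - 1) * (p + 4)) := by positivity
    calc 2 * (4 * (m : ℝ) * (J : ℝ) ^ (k + (p + 2))) *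
          ((2 * (3 * (J : ℝ) ^ (m * (p + 4)))) ^ (((m : ℝ) - 1) / m) + (J : ℝ) ^ p)
        ≤ 2 * (4 * (m : ℝ) * (J : ℝ) ^ (k + (p + 2))) *
          (6 * (J : ℝ) ^ ((m - 1) * (p + 4)) + (J : ℝ) ^ ((m - 1) * (p + 4))) :=
          mul_le_mul_of_nonneg_left (add_le_add e3 e4) (by positivity)
      _ = (56 * m) * ((J : ℝ) ^ (k + (p + 2)) * (J : ℝ) ^ ((m - 1) * (p + 4))) := by ring
      _ < J * ((J : ℝ) ^ (k + (p + 2)) * (J : ℝ) ^ ((m - 1) * (p + 4))) :=
          mul_lt_mul_of_pos_right (by linarith) hP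
  · -- (4)
    push_cast
    have e4 : (J : ℝ) ^ p ≤ (J : ℝ) ^ ((m - 1) * (p + 5 + a)) := by
      apply pow_le_pow_right₀ hJ1
      have : 1 * (p + 5 + a) ≤ (m - 1) * (p + 5 + a) := Nat.mul_le_mul_right _ (by omega)
      omega
    have e5 : (J : ℝ) ^ p * (J : ℝ) ^ ((m - 1) * (p + 5 + 2 * a)) =
        J * ((J : ℝ) ^ (k + (p + 2)) * (J : ℝ) ^ ((m - 1) * (p + 5 + a))) := by
      rw [← pow_add, ← pow_add, ← pow_succ']
      congr 1
      have : (m - 1) * (p + 5 + 2 * a) = (m - 1) * (p + 5 + a) + (m - 1) * a := by ring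
      rw [this, hk]
      ring
    rw [e5]
    have hP : 0 < (J : ℝ) ^ (k + (p + 2)) * (J : ℝ) ^ ((m - 1) * (p + 5 + a)) := by positivity
    calc (4 * (m : ℝ) * (J : ℝ) ^ (k + (p + 2))) *
          ((J : ℝ) ^ p + (J : ℝ) ^ ((m - 1) * (p + 5 + a)))
        ≤ (4 * (m : ℝ) * (J : ℝ) ^ (k + (p + 2))) *
          ((J : ℝ) ^ ((m - 1) * (p + 5 + a)) + (J : ℝ) ^ ((m - 1) * (p + 5 + a))) :=
          mul_le_mul_of_nonneg_left (add_le_add e4 le_rfl) (by positivity)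
      _ = (8 * m) * ((J : ℝ) ^ (k + (p + 2)) * (J : ℝ) ^ ((m - 1) * (p + 5 + a))) := by ring
      _ < J * ((J : ℝ) ^ (k + (p + 2)) * (J : ℝ) ^ ((m - 1) * (p + 5 + a))) :=
          mul_lt_mul_of_pos_right (by linarith) hP
  · -- (5)
    have e0 : (((J ^ (m * (p + 5 + a + (k + p + 3))) : ℕ) : ℝ)) =
        (J : ℝ) ^ (m * (p + 5 + a + (k + p + 3))) := by push_cast; rfl
    rw [e0, n1_rpow hm _ hJ0]
    have e5 : (m - 1) * (p + 5 + a + (k + p + 3)) =
        (m - 1) * (k + p + 3) + (m - 1) * (p + 5 + a) := by ring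
    rw [e5, pow_add (J : ℝ) ((m - 1) * (k + p + 3))]
    apply mul_le_mul_of_nonneg_right _ (by positivity)
    calc 4 * (m : ℝ) * (J : ℝ) ^ (k + (p + 2)) ≤ J * (J : ℝ) ^ (k + (p + 2)) :=
          mul_le_mul_of_nonneg_right (by linarith) (by positivity)
      _ = (J : ℝ) ^ (k + p + 3) := by rw [← pow_succ']; congr 1
      _ ≤ (J : ℝ) ^ ((m - 1) * (k + p + 3)) := by
          apply pow_le_pow_right₀ hJ1
          have : 1 * (k + p + 3) ≤ (m - 1) * (k + p + 3) := Nat.mul_le_mul_right _ (by omega)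
          omega
  · -- (6)
    have h1 : J ^ (p + 4) ≤ J ^ (m * (p + 4)) := by
      apply Nat.pow_le_pow_right hJn1
      have : 1 * (p + 4) ≤ m * (p + 4) := Nat.mul_le_mul_right _ (by omega)
      omega
    have h2 : 2 * (J * J ^ (p + 2)) ≤ J ^ (p + 4) := by
      have : J ^ (p + 4) = J * (J * J ^ (p + 2)) := by ring
      rw [this]
      exact Nat.mul_le_mul_right _ (by omega)
    omega
  · -- (7)
    have h0 : m * (p + 4) = m * (p + 4) - 1 + 1 := by
      have : 0 < m * (p + 4) := by positivity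
      omega
    have h1 : (J : ℝ) * ((J ^ (m * (p + 4) - 1) : ℕ) : ℝ) = (J : ℝ) ^ (m * (p + 4)) := by
      push_cast
      rw [← pow_succ', ← h0]
    rw [h1]
    push_cast
    have h2 : (1 : ℝ) ≤ (J : ℝ) ^ (m * (p + 4)) := one_le_pow₀ hJ1
    linarith
  · -- (8)
    have h0 : m * (p + 4) = m * (p + 4) - 1 + 1 := by
      have : 0 < m * (p + 4) := by positivity
      omega
    have h1 : J * J ^ (m * (p + 4) - 1) = J ^ (m * (p + 4)) := by
      rw [← pow_succ', ← h0]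
    rw [h1]
    have h2 : J ^ (m * (p + 4)) ≤ J ^ (m * (p + 5 + a + (k + p + 3))) := by
      apply Nat.pow_le_pow_right hJn1
      exact Nat.mul_le_mul_left _ (by omega)
    have h3 : 0 < J ^ (m * (p + 5 + a + (k + p + 3))) := by positivity
    have h4 : 9 * J ^ (m * (p + 5 + a + (k + p + 3))) ≤
        J ^ (m * (p + 5 + a + (k + p + 3)) + 1) := by
      rw [pow_succ, mul_comm]
      exact Nat.mul_le_mul_left _ (by omega)
    omega

end Pool.Agent.UTSP
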