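import Pool.Agent.Work.MP_27a5a0_lc.Stmts

set_option autoImplicit false

namespace Pool.Agent.UTSP

namespace N2

/-- The inequality in abstract real variables. -/
theorem core (d : ℕ) (J t N D Ds x p G Y : ℝ) (hd : 3 ≤ d) (hJ : 50000 ≤ J) (hx : 1 ≤ x)
    (ht : t = J * x) (hD : 0 < D) (hDs : 0 < Ds) (hDJ : J * Ds ≤ D) (hND : D ≤ N) (hN1 : 1 ≤ N)
    (hp0 : 0 ≤ p) (hp : p ≤ 2 * (N / D + 1) ^ d * N) (hG : G ≤ 2 ^ d)
    (hN2 : N ≤ 2 ^ d) (hY : N / 2 ≤ Y) :
    4 ^ d * 2 ^ (d + 1) * G * ((N / t) ^ d * (12 * (5 * x + 1)) ^ d +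
      p * (7 * Ds / t) ^ d * (12 * (t + 1)) ^ d) < Y ^ d := by
  have hJ0 : 0 < J := by linarith
  have ht0 : 0 < t := by rw [ht]; positivity
  have ht1 : 1 ≤ t := by rw [ht]; nlinarith
  have hN0 : 0 < N := by linarith
  have a1 : (N / t) ^ d * (12 * (5 * x + 1)) ^ d ≤ (72 * N / J) ^ d := by
    rw [← mul_pow]
    apply pow_le_pow_left₀ (by positivity)
    rw [ht, div_mul_eq_mul_div, div_le_div_iff₀ (by positivity) hJ0]
    have : 12 * (5 * x + 1) ≤ 72 * x := by linarith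
    have h2 : 0 ≤ N * J := by positivity
    nlinarith [mul_le_mul_of_nonneg_left this h2]
  have a2 : (7 * Ds / t) ^ d * (12 * (t + 1)) ^ d ≤ (168 * Ds) ^ d := by
    rw [← mul_pow]
    apply pow_le_pow_left₀ (by positivity)
    rw [div_mul_eq_mul_div, div_le_iff₀ ht0]
    have : 12 * (t + 1) ≤ 24 * t := by linarith
    nlinarith [mul_le_mul_of_nonneg_left this (show (0 : ℝ) ≤ 7 * Ds by positivity)]
  have a3 : p * (168 * Ds) ^ d ≤ 2 * N * (336 * N / J) ^ d := by
    have b1 : N / D + 1 ≤ 2 * N / D := by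
      rw [div_add_one hD.ne']
      apply div_le_div_of_nonneg_right _ hD.le
      linarith
    have b2 : (N / D + 1) ^ d ≤ (2 * N / D) ^ d := pow_le_pow_left₀ (by positivity) b1 d
    have b3 : p ≤ 2 * (2 * N / D) ^ d * N :=
      hp.trans (mul_le_mul_of_nonneg_right (mul_le_mul_of_nonneg_left b2 (by norm_num)) hN0.le)
    have b4 : 2 * N / D * (168 * Ds) ≤ 336 * N / J := by
      rw [div_mul_eq_mul_div, div_le_div_iff₀ hD hJ0]
      nlinarith [mul_le_mul_of_nonneg_left hDJ (show (0 : ℝ) ≤ 336 * N by positivity)]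
    calc p * (168 * Ds) ^ d ≤ 2 * (2 * N / D) ^ d * N * (168 * Ds) ^ d :=
          mul_le_mul_of_nonneg_right b3 (by positivity)
      _ = 2 * N * (2 * N / D * (168 * Ds)) ^ d := by
        rw [mul_pow (2 * N / D) (168 * Ds)]
        ring
      _ ≤ 2 * N * (336 * N / J) ^ d := by
        apply mul_le_mul_of_nonneg_left _ (by positivity)
        exact pow_le_pow_left₀ (by positivity) b4 d
  have a4 : (N / t) ^ d * (12 * (5 * x + 1)) ^ d +
      p * (7 * Ds / t) ^ d * (12 * (t + 1)) ^ d ≤ (1 + 2 * N) * (336 * N / J) ^ d := by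
    have c1 : (72 * N / J) ^ d ≤ (336 * N / J) ^ d := by
      apply pow_le_pow_left₀ (by positivity)
      apply div_le_div_of_nonneg_right _ hJ0.le
      linarith
    have c2 : p * (7 * Ds / t) ^ d * (12 * (t + 1)) ^ d ≤ 2 * N * (336 * N / J) ^ d := by
      rw [mul_assoc]
      exact (mul_le_mul_of_nonneg_left a2 hp0).trans a3
    linarith
  have a5 : 0 ≤ (N / t) ^ d * (12 * (5 * x + 1)) ^ d +
      p * (7 * Ds / t) ^ d * (12 * (t + 1)) ^ d := by positivity
  have a6 : 16 * (336 * N / J) ≤ N / 8 := by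
    rw [mul_div_assoc', div_le_div_iff₀ hJ0 (by norm_num)]
    nlinarith
  have a7 : (8 : ℝ) ≤ 2 ^ d := by
    calc (8 : ℝ) = 2 ^ 3 := by norm_num
      _ ≤ 2 ^ d := pow_le_pow_right₀ (by norm_num) hd
  calc 4 ^ d * 2 ^ (d + 1) * G * ((N / t) ^ d * (12 * (5 * x + 1)) ^ d +
        p * (7 * Ds / t) ^ d * (12 * (t + 1)) ^ d)
      ≤ 4 ^ d * 2 ^ (d + 1) * 2 ^ d * ((1 + 2 * N) * (336 * N / J) ^ d) := by
        apply mul_le_mul (mul_le_mul_of_nonneg_left hG (by positivity)) a4 a5 (by positivity)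
    _ = 2 * (1 + 2 * N) * (16 * (336 * N / J)) ^ d := by
        rw [mul_pow 16, show (16 : ℝ) = 4 * 2 * 2 by norm_num, mul_pow, mul_pow]
        ring
    _ ≤ 2 * (1 + 2 * N) * (N / 8) ^ d := by
        apply mul_le_mul_of_nonneg_left _ (by positivity)
        exact pow_le_pow_left₀ (by positivity) a6 d
    _ ≤ 6 * 2 ^ d * (N / 8) ^ d := by
        apply mul_le_mul_of_nonneg_right _ (by positivity)
        linarith
    _ = 6 * (N / 4) ^ d := by
        rw [mul_assoc, ← mul_pow]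
        congr 2
        ring
    _ < 2 ^ d * (N / 4) ^ d := by
        apply mul_lt_mul_of_pos_right _ (by positivity)
        linarith
    _ = (N / 2) ^ d := by
        rw [← mul_pow]
        congr 1
        ring
    _ ≤ Y ^ d := pow_le_pow_left₀ (by positivity) hY d

theorem ev_pow (E : ℕ) : ∀ᶠ J : ℕ in Filter.atTop, (J : ℝ) ^ E ≤ 2 ^ J := by
  have h := tendsto_pow_const_div_const_pow_of_one_lt E (show (1 : ℝ) < 2 by norm_num)
  have h2 : ∀ᶠ J : ℕ in Filter.atTop, (J : ℝ) ^ E / 2 ^ J < 1 :=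
    h.eventually (gt_mem_nhds zero_lt_one)
  filter_upwards [h2] with J hJ
  rw [div_lt_one (by positivity)] at hJ
  exact hJ.le

end N2

open N2 in
theorem prfNumCount : claimNumCount := by
  intro m a hm ha
  set P := pp m a with hP
  set T := et m a with hT
  set es' := es m a with hes
  set eD' := eD m a with heD
  set er' := er m a with her
  set eu' := eu m a with heu
  set eN' := eN m a with heN
  set kp' := kp m a with hkp
  have ha1 : 1 ≤ a := by
    rcases Nat.eq_zero_or_pos a with h | h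
    · subst h
      simp at ha
    · exact h
  have hma : 2 ≤ m * a := by nlinarith
  have hPeq : P = 4 * (m * a) + 2 * m + 3 := by rw [hP]; unfold pp; ring
  have hTeq : T = m * (P + 2) := by rw [hT]; unfold et; rw [hP]
  have hT1 : 4 ≤ T := by rw [hTeq]; nlinarith
  have hese : es' = T + m * a := by rw [hes]; unfold es; rw [hT]
  have heDe : eD' = es' + m := by rw [heD]; unfold eD; rw [hes]
  have here : er' = eD' + m * a := by rw [her]; unfold er; rw [heD]
  have heue : eD' ≤ eu' := by rw [heu]; unfold eu; rw [heD]; exact Nat.le_add_right _ _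
  have heNe : eN' = P + eu' + 2 := by rw [heN]; unfold eN; rw [hP, heu]
  filter_upwards [Filter.eventually_ge_atTop 50000,
    ev_pow (2 * T + (kp' + P + m + 1) + 10 * (2 * P + eu' + 2)), ev_pow eN'] with J hJb hE hNE
  have hJ1 : 1 ≤ J := by omega
  have hJr : (50000 : ℝ) ≤ J := by exact_mod_cast hJb
  have hJ0 : (0 : ℝ) < J := by linarith
  have hJr1 : (1 : ℝ) ≤ J := by linarith
  have hmono : ∀ i j : ℕ, i ≤ j → J ^ i ≤ J ^ j := fun i j h => Nat.pow_le_pow_right hJ1 h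
  have hJT : J * J ^ (T - 1) = J ^ T := by
    rw [← Nat.pow_succ']
    congr 1 <;> omega
  -- hJ
  have hh : hJ m a J ≤ 3 * J ^ (P + eu' + 1) := by
    have e1 : hJ m a J = (J ^ P + 1) * J ^ (eu' + 1) + J ^ eu' := rfl
    rw [e1]
    have e2 : J ^ (P + eu' + 1) = J ^ P * J ^ (eu' + 1) := by rw [← pow_add, add_assoc]
    have e3 : 1 ≤ J ^ P := Nat.one_le_pow _ _ hJ1
    have e4 : J ^ eu' ≤ J ^ (eu' + 1) := hmono _ _ (Nat.le_succ _)
    rw [e2]
    nlinarith
  have hN12 : 4 * hJ m a J ≤ J ^ eN' := by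
    have e1 : J ^ eN' = J * J ^ (P + eu' + 1) := by
      rw [heNe, ← Nat.pow_succ']
    rw [e1]
    nlinarith
  refine ⟨by omega, ?_, ?_, ?_, ?_, ?_⟩
  · -- (ii)
    rw [hJT]
    push_cast
    have e1 : (J : ℝ) ^ es' = (J : ℝ) ^ T * (J : ℝ) ^ (m * a) := by rw [hese, pow_add]
    have e2 : (1 : ℝ) ≤ (J : ℝ) ^ T := one_le_pow₀ hJr1
    have e3 : (J : ℝ) ≤ (J : ℝ) ^ (m * a) := by
      calc (J : ℝ) = (J : ℝ) ^ 1 := (pow_one _).symm
        _ ≤ (J : ℝ) ^ (m * a) := pow_le_pow_right₀ hJr1 (by omega)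
    rw [e1]
    nlinarith
  · -- (iii)
    rw [hJT]
    have e0 : 2 * ((4 * J + 1) * J ^ (P - 2)) ≤ 10 * J ^ (P - 1) := by
      have e1 : J ^ (P - 1) = J * J ^ (P - 2) := by
        rw [← Nat.pow_succ']
        congr 1 <;> omega
      rw [e1]
      nlinarith [Nat.zero_le (J ^ (P - 2))]
    have e2 : hJ m a J + J ^ T ≤ 4 * J ^ (P + eu' + 1) := by
      have := hmono T (P + eu' + 1) (by omega)
      omega
    have e3 : 2 * ((4 * J + 1) * J ^ (P - 2)) * (hJ m a J + J ^ T) ≤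
        J ^ (2 * P + eu' + 1) := by
      calc 2 * ((4 * J + 1) * J ^ (P - 2)) * (hJ m a J + J ^ T)
          ≤ 10 * J ^ (P - 1) * (4 * J ^ (P + eu' + 1)) := Nat.mul_le_mul e0 e2
        _ = 40 * J ^ (2 * P + eu') := by
          have : J ^ (2 * P + eu') = J ^ (P - 1) * J ^ (P + eu' + 1) := by
            rw [← pow_add]
            congr 1 <;> omega
          rw [this]
          ring
        _ ≤ J * J ^ (2 * P + eu') := Nat.mul_le_mul_right _ (by omega)
        _ = J ^ (2 * P + eu' + 1) := (Nat.pow_succ').symm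
    exact_mod_cast e3
  · -- (iv)
    rw [hJT]
    set r := 2 * (m * a) + m + 1 with hr
    have e1 : Real.sqrt ((J ^ (P - 1) : ℕ) : ℝ) = (J : ℝ) ^ r := by
      have : P - 1 = 2 * r := by omega
      rw [this, Nat.cast_pow, mul_comm 2 r, pow_mul]
      exact Real.sqrt_sq (by positivity)
    rw [e1]
    have e2 : (J : ℝ) ^ er' = (J : ℝ) ^ r * (J : ℝ) ^ (T - 1) := by
      rw [← pow_add]
      congr 1 <;> omega
    have e3 : (((J ^ T : ℕ)) : ℝ) ≤ (J : ℝ) ^ er' := by
      rw [Nat.cast_pow]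
      exact pow_le_pow_right₀ hJr1 (by omega)
    have e4 : (0 : ℝ) < (J : ℝ) ^ r := by positivity
    have e5 : (1 : ℝ) ≤ (J : ℝ) ^ (T - 1) := one_le_pow₀ hJr1
    have e6 : 2 * ((J : ℝ) ^ er' + (((J ^ T : ℕ)) : ℝ)) / (J : ℝ) ^ r ≤ 4 * (J : ℝ) ^ (T - 1) := by
      rw [div_le_iff₀ e4]
      nlinarith
    linarith
  · -- (v)
    rw [Nat.cast_mul, Nat.cast_pow]
    apply mul_le_mul_of_nonneg_right _ (by positivity)
    linarith
  · -- (vi)
    intro p hp0 hp
    set n := J ^ (P - 1) with hn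
    have hPn : J ^ P = J * n := by
      rw [hn, ← Nat.pow_succ']
      congr 1 <;> omega
    have hdiv : 2 * J ^ P / J = 2 * n := by
      rw [hPn, show 2 * (J * n) = J * (2 * n) by ring]
      exact Nat.mul_div_cancel_left _ hJ1
    rw [hdiv]
    have hBq : 2 * ((4 * J + 1) * J ^ (P - 2)) ≤ 10 * n := by
      have e1 : n = J * J ^ (P - 2) := by
        rw [hn, ← Nat.pow_succ']
        congr 1 <;> omega
      rw [e1]
      nlinarith [Nat.zero_le (J ^ (P - 2))]
    set Bq := 2 * ((4 * J + 1) * J ^ (P - 2)) with hBqdef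
    set M : ℝ := ((8 * J ^ (kp' + P + m) : ℕ) : ℝ) + 1 with hM
    set q : ℝ := ((J ^ (2 * P + eu' + 1) : ℕ) : ℝ) + 1 with hq
    set t : ℝ := ((J * J ^ (T - 1) : ℕ) : ℝ) with ht
    set x : ℝ := (J : ℝ) ^ (T - 1) with hx
    have htx : t = J * x := by rw [ht, hx]; push_cast; ring
    have hx1 : 1 ≤ x := one_le_pow₀ hJr1
    -- the bound for the product of the powers of J
    have hM1 : M ≤ (J : ℝ) ^ (kp' + P + m + 1) := by
      have e1 : (1 : ℝ) ≤ (J : ℝ) ^ (kp' + P + m) := one_le_pow₀ hJr1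
      have e2 : (J : ℝ) ^ (kp' + P + m + 1) = (J : ℝ) ^ (kp' + P + m) * J := pow_succ _ _
      rw [hM, e2, Nat.cast_mul, Nat.cast_pow]
      push_cast
      nlinarith
    have hM0 : 0 ≤ M := by positivity
    have hq1 : q ≤ (J : ℝ) ^ (2 * P + eu' + 2) := by
      have e1 : (1 : ℝ) ≤ (J : ℝ) ^ (2 * P + eu' + 1) := one_le_pow₀ hJr1
      have e2 : (J : ℝ) ^ (2 * P + eu' + 2) = (J : ℝ) ^ (2 * P + eu' + 1) * J := pow_succ _ _
      rw [hq, e2, Nat.cast_pow]
      nlinarith
    have hq0 : 1 ≤ q := by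
      rw [hq]
      have : (0 : ℝ) ≤ ((J ^ (2 * P + eu' + 1) : ℕ) : ℝ) := Nat.cast_nonneg _
      linarith
    have htT : t = (J : ℝ) ^ T := by
      rw [ht, hJT]
      push_cast
      rfl
    have hG : t ^ (2 * n) * M ^ n * q ^ Bq ≤ 2 ^ (J ^ P) := by
      calc t ^ (2 * n) * M ^ n * q ^ Bq
          ≤ ((J : ℝ) ^ (2 * T)) ^ n * ((J : ℝ) ^ (kp' + P + m + 1)) ^ n *
            ((J : ℝ) ^ (10 * (2 * P + eu' + 2))) ^ n := by
            apply mul_le_mul
            · apply mul_le_mul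
              · rw [htT, ← pow_mul, ← pow_mul]
                apply le_of_eq
                congr 1
                ring
              · exact pow_le_pow_left₀ hM0 hM1 n
              · positivity
              · positivity
            · calc q ^ Bq ≤ q ^ (10 * n) := pow_le_pow_right₀ hq0 hBq
                _ ≤ ((J : ℝ) ^ (2 * P + eu' + 2)) ^ (10 * n) :=
                  pow_le_pow_left₀ (by linarith) hq1 _
                _ = ((J : ℝ) ^ (10 * (2 * P + eu' + 2))) ^ n := by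
                  rw [← pow_mul, ← pow_mul]
                  congr 1
                  ring
            · positivity
            · positivity
        _ = ((J : ℝ) ^ (2 * T + (kp' + P + m + 1) + 10 * (2 * P + eu' + 2))) ^ n := by
            rw [← mul_pow, ← mul_pow, ← pow_add, ← pow_add]
        _ ≤ ((2 : ℝ) ^ J) ^ n := pow_le_pow_left₀ (by positivity) hE n
        _ = 2 ^ (J ^ P) := by rw [← pow_mul, hPn]
    have hJP : J ≤ J ^ P := by
      calc J = J ^ 1 := (pow_one J).symm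
        _ ≤ J ^ P := hmono _ _ (by omega)
    set N : ℝ := ((J ^ eN' : ℕ) : ℝ) with hN
    have hNr : N = (J : ℝ) ^ eN' := by rw [hN]; push_cast; rfl
    have hN1 : 1 ≤ N := by rw [hNr]; exact one_le_pow₀ hJr1
    have hN2 : N ≤ 2 ^ (J ^ P) := by
      rw [hNr]
      exact hNE.trans (pow_le_pow_right₀ (by norm_num) hJP)
    set D : ℝ := (J : ℝ) ^ eD' with hD
    set Ds : ℝ := (J : ℝ) ^ es' with hDs
    have hD0 : 0 < D := by positivity
    have hDs0 : 0 < Ds := by positivity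
    have hDs1 : 1 ≤ Ds := one_le_pow₀ hJr1
    have hDJ : J * Ds ≤ D := by
      rw [hD, hDs, heDe, pow_add, mul_comm]
      apply mul_le_mul_of_nonneg_left _ (by positivity)
      calc (J : ℝ) = (J : ℝ) ^ 1 := (pow_one _).symm
        _ ≤ (J : ℝ) ^ m := pow_le_pow_right₀ hJr1 (by omega)
    have hND : D ≤ N := by
      rw [hNr, hD]
      exact pow_le_pow_right₀ hJr1 (by omega)
    have hNdiv : ((J ^ eN' / J ^ eD' : ℕ) : ℝ) = N / D := by
      rw [Nat.cast_div (pow_dvd_pow J (by omega)) (by positivity), hN, hD]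
      push_cast
      rfl
    have hal0 : (0 : ℝ) ≤ ((m : ℝ) - 1) / m := by
      have : (2 : ℝ) ≤ m := by exact_mod_cast hm
      apply div_nonneg <;> linarith
    have hal1 : ((m : ℝ) - 1) / m ≤ 1 := by
      have : (2 : ℝ) ≤ m := by exact_mod_cast hm
      rw [div_le_one (by linarith)]
      linarith
    have hp' : p ≤ 2 * (N / D + 1) ^ (J ^ P) * N := by
      rw [hNdiv] at hp
      have e1 : (1 : ℝ) ≤ Ds ^ (((m : ℝ) - 1) / m) := Real.one_le_rpow hDs1 hal0
      have e2 : N ^ (((m : ℝ) - 1) / m) ≤ N := by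
        calc N ^ (((m : ℝ) - 1) / m) ≤ N ^ (1 : ℝ) := Real.rpow_le_rpow_of_exponent_le hN1 hal1
          _ = N := Real.rpow_one N
      calc p = p * 1 := (mul_one p).symm
        _ ≤ p * Ds ^ (((m : ℝ) - 1) / m) := mul_le_mul_of_nonneg_left e1 hp0
        _ ≤ 2 * (N / D + 1) ^ (J ^ P) * N ^ (((m : ℝ) - 1) / m) := hp
        _ ≤ 2 * (N / D + 1) ^ (J ^ P) * N := by
          apply mul_le_mul_of_nonneg_left e2
          positivity
    have hY : N / 2 ≤ N - 2 * ((hJ m a J : ℕ) : ℝ) := by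
      have e1 : (4 : ℝ) * ((hJ m a J : ℕ) : ℝ) ≤ N := by
        rw [hN]
        exact_mod_cast hN12
      linarith
    have hd3 : 3 ≤ J ^ P := by omega
    have h0 := core (J ^ P) J t N D Ds x p (t ^ (2 * n) * M ^ n * q ^ Bq)
      (N - 2 * ((hJ m a J : ℕ) : ℝ)) hd3 hJr hx1 htx hD0 hDs0 hDJ hND hN1 hp0 hp'
      hG hN2 hY
    refine lt_of_eq_of_lt ?_ h0
    ring

end Pool.Agent.UTSP
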