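import Pool.Agent.Work.MP_27a5a0_lc.Stmts

/-!
N3: comparison of `κ` with `log n`.
-/

namespace Pool.Agent.UTSP

open Filter

private lemma n3_choice (c : ℝ) (hc : 0 < c) (hc4 : c < 1 / 4) :
    ∃ m : ℕ, 3 ≤ m ∧ c * (pp m m : ℝ) < (kp m m : ℝ) := by
  obtain ⟨n, hn⟩ := exists_nat_gt (6 / (1 - 4 * c))
  have hd : 0 < 1 - 4 * c := by linarith
  refine ⟨n + 3, by omega, ?_⟩
  have hm : (6 : ℝ) < (1 - 4 * c) * ((n + 3 : ℕ) : ℝ) := by
    rw [div_lt_iff₀ hd] at hn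
    push_cast
    nlinarith
  have h3 : (3 : ℝ) ≤ ((n + 3 : ℕ) : ℝ) := by push_cast; linarith [Nat.cast_nonneg (α := ℝ) n]
  generalize hM : n + 3 = M at *
  have hM3 : 3 ≤ M := by omega
  have hk : (kp M M : ℝ) = (M : ℝ) ^ 2 - M - 3 := by
    unfold kp
    have h1 : 3 ≤ (M - 1) * M := by
      have : 2 * 3 ≤ (M - 1) * M := Nat.mul_le_mul (by omega) hM3
      omega
    rw [Nat.cast_sub h1, Nat.cast_mul, Nat.cast_sub (by omega : 1 ≤ M)]
    push_cast
    ring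
  have hp : (pp M M : ℝ) = 4 * (M : ℝ) ^ 2 + 2 * M + 3 := by
    unfold pp
    push_cast
    ring
  rw [hk, hp]
  nlinarith

theorem prfNumLog : claimNumLog := by
  intro c hc hc4
  obtain ⟨m, hm3, hm⟩ := n3_choice c hc hc4
  refine ⟨m, m, by omega, ?_, ?_⟩
  · have : 2 * 3 ≤ (m - 1) * m := Nat.mul_le_mul (by omega) hm3
    omega
  set P : ℕ := pp m m with hP
  set K : ℕ := kp m m with hK
  set E : ℕ := eN m m with hE
  have h1c : 0 < 1 + c := by linarith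
  set ε : ℝ := (K - c * P) / (1 + c) with hε
  have hε0 : 0 < ε := div_pos (by linarith) h1c
  set C : ℝ := 2 ^ P * (E + 1) with hC
  have hC0 : 0 < C := by positivity
  have hlo := (isLittleO_log_rpow_atTop hε0).def (c := 1 / (2 * C)) (by positivity)
  have hlo2 := tendsto_natCast_atTop_atTop (R := ℝ) |>.eventually hlo
  filter_upwards [hlo2, eventually_ge_atTop 2] with J hJ hJ2
  have hJr : (2 : ℝ) ≤ (J : ℝ) := by exact_mod_cast hJ2
  have hJ0 : (0 : ℝ) < (J : ℝ) := by linarith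
  have hlogJ : 0 ≤ Real.log (J : ℝ) := Real.log_nonneg (by linarith)
  rw [Real.norm_of_nonneg hlogJ, Real.norm_of_nonneg (Real.rpow_nonneg hJ0.le _)] at hJ
  -- `C log (J + 1) ≤ J ^ ε`
  have hlog1 : Real.log ((J : ℝ) + 1) ≤ 2 * Real.log (J : ℝ) := by
    rw [← Real.log_rpow hJ0, show (2 : ℝ) = ((2 : ℕ) : ℝ) by norm_num, Real.rpow_natCast]
    apply Real.log_le_log (by linarith)
    nlinarith
  have hmain : C * Real.log ((J : ℝ) + 1) ≤ (J : ℝ) ^ ε := by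
    calc C * Real.log ((J : ℝ) + 1) ≤ C * (2 * Real.log (J : ℝ)) :=
          mul_le_mul_of_nonneg_left hlog1 hC0.le
      _ ≤ C * (2 * (1 / (2 * C) * (J : ℝ) ^ ε)) := by gcongr
      _ = (J : ℝ) ^ ε := by field_simp
  have hlogpos : 0 ≤ Real.log ((J : ℝ) + 1) := Real.log_nonneg (by linarith)
  -- the logarithm
  have hL : Real.log ((((J + 1) ^ E + 1) ^ ((J + 1) ^ P) : ℕ) : ℝ) ≤ (J : ℝ) ^ P * (J : ℝ) ^ ε := by
    rw [Nat.cast_pow, Real.log_pow]
    have h1 : (((J + 1) ^ E + 1 : ℕ) : ℝ) ≤ ((J : ℝ) + 1) ^ (E + 1) := by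
      push_cast
      have h2 : (1 : ℝ) ≤ ((J : ℝ) + 1) ^ E := one_le_pow₀ (by linarith)
      rw [pow_succ]
      nlinarith
    have h2 : Real.log (((J + 1) ^ E + 1 : ℕ) : ℝ) ≤ (E + 1) * Real.log ((J : ℝ) + 1) := by
      refine (Real.log_le_log (by positivity) h1).trans (le_of_eq ?_)
      rw [Real.log_pow]
      push_cast
      ring
    have h3 : (((J + 1) ^ P : ℕ) : ℝ) ≤ 2 ^ P * (J : ℝ) ^ P := by
      push_cast
      rw [← mul_pow]
      exact pow_le_pow_left₀ (by linarith) (by linarith) _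
    calc (((J + 1) ^ P : ℕ) : ℝ) * Real.log (((J + 1) ^ E + 1 : ℕ) : ℝ)
        ≤ (2 ^ P * (J : ℝ) ^ P) * ((E + 1) * Real.log ((J : ℝ) + 1)) := by
          apply mul_le_mul h3 h2
          · apply Real.log_nonneg
            have : (1 : ℝ) ≤ (((J + 1) ^ E + 1 : ℕ) : ℝ) := by
              push_cast
              have : (0 : ℝ) ≤ ((J : ℝ) + 1) ^ E := by positivity
              linarith
            exact this
          · positivity
      _ = (J : ℝ) ^ P * (C * Real.log ((J : ℝ) + 1)) := by rw [hC]; ring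
      _ ≤ (J : ℝ) ^ P * (J : ℝ) ^ ε := by gcongr
  have hL0 : 0 ≤ Real.log ((((J + 1) ^ E + 1) ^ ((J + 1) ^ P) : ℕ) : ℝ) := by
    apply Real.log_natCast_nonneg
  calc Real.log ((((J + 1) ^ E + 1) ^ ((J + 1) ^ P) : ℕ) : ℝ) ^ (1 + c)
      ≤ ((J : ℝ) ^ P * (J : ℝ) ^ ε) ^ (1 + c) := Real.rpow_le_rpow hL0 hL h1c.le
    _ = (J : ℝ) ^ (((P : ℝ) + ε) * (1 + c)) := by
        rw [← Real.rpow_natCast, ← Real.rpow_add hJ0, ← Real.rpow_mul hJ0.le]
    _ = (J : ℝ) ^ (((K + P : ℕ) : ℝ)) := by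
        congr 1
        rw [hε]
        push_cast
        field_simp
        ring
    _ = (J : ℝ) ^ (K + P) := Real.rpow_natCast _ _

end Pool.Agent.UTSP
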