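import Pool.Agent.Work.MP_27a5a0_lc.Stmts

/-!
MP_27a5a0_lc, universal TSP: item P1, small pools of labels.
-/

namespace Pool.Agent.UTSP

open Finset

theorem p1_walk_le {X : Type*} (δ : X → X → ℝ) (c : ℝ) (hc : 0 ≤ c) :
    ∀ l : List X, (∀ u ∈ l, ∀ v ∈ l, δ u v ≤ c) → walk δ l ≤ c * l.length
  | [], _ => by simp [walk]
  | [_], _ => by simp [walk]; exact hc
  | x :: y :: l, h => by
    have ih := p1_walk_le δ c hc (y :: l) (fun u hu v hv => h u (List.mem_cons_of_mem _ hu) v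
      (List.mem_cons_of_mem _ hv))
    have h1 := h x (by simp) y (by simp)
    simp only [walk, List.length_cons] at ih ⊢
    push_cast at ih ⊢
    linarith

theorem p1_walk_append {X : Type*} (δ : X → X → ℝ) (c : ℝ) (hc : 0 ≤ c) (l' : List X) :
    ∀ l : List X, (∀ u ∈ l, ∀ v ∈ l', δ u v ≤ c) → walk δ (l ++ l') ≤ walk δ l + c + walk δ l'
  | [], _ => by simp [walk]; exact hc
  | [x], h => by
    rcases l' with _ | ⟨y, l''⟩
    · simp [walk]; exact hc
    · have h1 := h x (by simp) y (by simp)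
      simp only [List.cons_append, List.nil_append, walk]
      linarith
  | x :: y :: l, h => by
    have ih := p1_walk_append δ c hc l' (y :: l) (fun u hu v hv =>
      h u (List.mem_cons_of_mem _ hu) v hv)
    simp only [List.cons_append, walk] at ih ⊢
    linarith

theorem p1_walk_nonneg {X : Type*} (δ : X → X → ℝ) (hδ : ∀ u v, 0 ≤ δ u v) :
    ∀ l : List X, 0 ≤ walk δ l
  | [] => by simp [walk]
  | [_] => by simp [walk]
  | x :: y :: l => by
    have ih := p1_walk_nonneg δ hδ (y :: l)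
    have h1 := hδ x y
    simp only [walk]
    linarith

theorem p1_cube_dist {d : ℕ} {y v w : Pt d} (hv : v ∈ cube y) (hw : w ∈ cube y) :
    dist v w ≤ 1 := by
  rw [dist_pi_le_iff zero_le_one]
  intro j
  have h1 := Fintype.mem_piFinset.1 hv j
  have h2 := Fintype.mem_piFinset.1 hw j
  simp only [Finset.mem_insert, Finset.mem_singleton] at h1 h2
  rw [Int.dist_eq]
  rcases h1 with h1 | h1 <;> rcases h2 with h2 | h2 <;> rw [h1, h2] <;> push_cast <;> simp

theorem p1_sum_ge {X : Type*} (f : X → ℝ) (c : ℝ) :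
    ∀ l : List X, (∀ v ∈ l, c ≤ f v) → (l.length : ℝ) * c ≤ (l.map f).sum
  | [], _ => by simp
  | x :: l, h => by
    have ih := p1_sum_ge f c l (fun v hv => h v (List.mem_cons_of_mem _ hv))
    have h1 := h x (by simp)
    simp only [List.length_cons, List.map_cons, List.sum_cons]
    push_cast
    linarith

section
variable {d N : ℕ} {α κ D Ds A : ℝ}

theorem p1_far_notMem (Q : Lab d N α κ D Ds A) (hDs : 0 < Ds) {v : Pt d} (hv : Q.far v) :
    v ∉ Q.S := by
  intro h
  have := hv.2 v h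
  rw [dist_self] at this
  linarith

/-- the admissible lists -/
def p1Adm (Q : Lab d N α κ D Ds A) (r : ℝ) (x : Pt d) (γ : List (Pt d)) : Prop :=
  (∀ v ∈ γ, Q.far v ∧ dist v x ≤ r) ∧ (γ.map Q.a).Nodup

/-- the functional which is maximised -/
noncomputable def p1Th (α κ Ds : ℝ) {d : ℕ} (γ : List (Pt d)) : ℝ :=
  γ.length * Ds ^ α - 2 * κ * walk (sn α) γ

theorem p1_len_le (Q : Lab d N α κ D Ds A) (hDs : 0 < Ds) {r : ℝ} {x : Pt d} {γ : List (Pt d)}
    (h : p1Adm Q r x γ) : γ.length ≤ Q.S.card := by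
  classical
  have h1 : (γ.map Q.a).toFinset ⊆ Q.S := by
    intro l hl
    rw [List.mem_toFinset, List.mem_map] at hl
    obtain ⟨v, hv, rfl⟩ := hl
    have hf := (h.1 v hv).1
    exact (Q.mem v hf.1 (p1_far_notMem Q hDs hf)).1
  have h2 := Finset.card_le_card h1
  rw [List.toFinset_card_of_nodup h.2, List.length_map] at h2
  exact h2

theorem p1_sn_nonneg (α : ℝ) (u v : Pt d) : 0 ≤ sn α u v := Real.rpow_nonneg dist_nonneg _

theorem p1_exists_max (Q : Lab d N α κ D Ds A) (r : ℝ) (x : Pt d) (hκ : 0 < κ)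
    (hDs : 0 < Ds) (ε : ℝ) (hε : 0 < ε) :
    ∃ γ, p1Adm Q r x γ ∧ 0 ≤ p1Th α κ Ds γ ∧
      ∀ γ', p1Adm Q r x γ' → p1Th α κ Ds γ' < p1Th α κ Ds γ + ε := by
  obtain ⟨T, hT⟩ : ∃ T : Set ℝ, T = {θ | ∃ γ, p1Adm Q r x γ ∧ 0 ≤ p1Th α κ Ds γ ∧
    p1Th α κ Ds γ = θ} := ⟨_, rfl⟩
  have hne : T.Nonempty := by
    refine ⟨0, ?_⟩
    rw [hT]
    refine ⟨[], ⟨by simp, by simp⟩, ?_, ?_⟩ <;> simp [p1Th, walk]
  have hbd : BddAbove T := by
    refine ⟨(Q.S.card : ℝ) * Ds ^ α, ?_⟩
    rw [hT]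
    rintro θ ⟨γ, h1, -, rfl⟩
    have h2 : (γ.length : ℝ) ≤ Q.S.card := by exact_mod_cast p1_len_le Q hDs h1
    have h3 : 0 ≤ Ds ^ α := Real.rpow_nonneg hDs.le _
    have h4 : 0 ≤ walk (sn α) γ := p1_walk_nonneg _ (p1_sn_nonneg α) γ
    have h5 : (γ.length : ℝ) * Ds ^ α ≤ (Q.S.card : ℝ) * Ds ^ α :=
      mul_le_mul_of_nonneg_right h2 h3
    have h6 : 0 ≤ 2 * κ * walk (sn α) γ := by positivity
    unfold p1Th
    linarith
  obtain ⟨θ, hθ, hlt⟩ := exists_lt_of_lt_csSup hne (sub_lt_self (sSup T) hε)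
  rw [hT] at hθ
  obtain ⟨γ, h1, h2, rfl⟩ := hθ
  refine ⟨γ, h1, h2, ?_⟩
  intro γ' h'
  by_cases h0 : 0 ≤ p1Th α κ Ds γ'
  · have : p1Th α κ Ds γ' ∈ T := by rw [hT]; exact ⟨γ', h', h0, rfl⟩
    have := le_csSup hbd this
    linarith
  · push Not at h0
    linarith

theorem p1_len_bound (Q : Lab d N α κ D Ds A) (r : ℝ) (x : Pt d) (M : ℕ) (hα : 0 < α)
    (hDs : 0 < Ds) (hM : 2 * κ * D ^ α ≤ M * Ds ^ α) {γ : List (Pt d)} (h : p1Adm Q r x γ)
    (h0 : 0 ≤ p1Th α κ Ds γ) : γ.length ≤ M := by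
  rcases eq_or_ne γ [] with rfl | hne
  · simp
  have hpow : 0 < Ds ^ α := Real.rpow_pos_of_pos hDs _
  have hmarg := Q.marg γ hne (fun v hv => ⟨(h.1 v hv).1.1, p1_far_notMem Q hDs (h.1 v hv).1⟩) h.2
  have hsum := p1_sum_ge (fun v => (min (dist v (Q.a v)) (dist v (Q.b v))) ^ α) (Ds ^ α) γ (by
    intro v hv
    have hf := (h.1 v hv).1
    obtain ⟨ha, hb⟩ := Q.mem v hf.1 (p1_far_notMem Q hDs hf)
    have h1 := hf.2 _ ha
    have h2 := hf.2 _ hb
    exact Real.rpow_le_rpow hDs.le (le_min h1.le h2.le) hα.le)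
  have h3 : (γ.length : ℝ) * Ds ^ α ≤ κ * (walk (sn α) γ + D ^ α) := hsum.trans hmarg
  unfold p1Th at h0
  have h4 : (γ.length : ℝ) * Ds ^ α ≤ M * Ds ^ α := by linarith
  have h5 : (γ.length : ℝ) ≤ M := le_of_mul_le_mul_right h4 hpow
  exact_mod_cast h5

theorem prfPool : claimPool := by
  classical
  intro d N α κ D Ds A Q M b r hα hκ hD hDs hr hb hM hgap
  have hεpos : 0 < (b : ℝ) * Ds ^ α - 2 * κ * ((2 * r) ^ α + b) := by linarith
  choose γ hγ1 hγ2 hγ3 using fun x : Pt d => p1_exists_max Q r x hκ hDs _ hεpos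
  refine ⟨fun x => ((γ x).map Q.a).toFinset, ?_, ?_⟩
  · intro x
    refine (List.toFinset_card_le _).trans ?_
    rw [List.length_map]
    exact p1_len_bound Q r x M hα hDs hM (hγ1 x) (hγ2 x)
  · intro x y hy hdist
    by_contra hcon
    push Not at hcon
    obtain ⟨Z, hZsub, hZcard⟩ := Finset.exists_subset_card_eq hcon
    have hex : ∀ l : Pt d, ∃ v : Pt d, l ∈ Z → (v ∈ cube y ∧ Q.far v ∧ Q.a v = l) := by
      intro l
      by_cases hl : l ∈ Z
      · have h1 := (Finset.mem_sdiff.1 (hZsub hl)).1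
        rw [Lab.sig, Finset.mem_image] at h1
        obtain ⟨v, hv, hval⟩ := h1
        rw [Finset.mem_filter] at hv
        exact ⟨v, fun _ => ⟨hv.1, hv.2, hval⟩⟩
      · exact ⟨l, fun h => absurd h hl⟩
    choose f hf using hex
    obtain ⟨γ', hγ'⟩ : ∃ γ' : List (Pt d), γ' = Z.toList.map f := ⟨_, rfl⟩
    have hmem : ∀ v ∈ γ', v ∈ cube y ∧ Q.far v ∧ Q.a v ∈ Z := by
      intro v hv
      rw [hγ', List.mem_map] at hv
      obtain ⟨l, hl, rfl⟩ := hv
      rw [Finset.mem_toList] at hl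
      obtain ⟨h1, h2, h3⟩ := hf l hl
      exact ⟨h1, h2, by rw [h3]; exact hl⟩
    have hmap : γ'.map Q.a = Z.toList := by
      rw [hγ', List.map_map]
      conv_rhs => rw [← List.map_id Z.toList]
      refine List.map_congr_left ?_
      intro l hl
      rw [Finset.mem_toList] at hl
      exact (hf l hl).2.2
    have hlen : γ'.length = b := by
      have := congrArg List.length hmap
      rw [List.length_map, Finset.length_toList, hZcard] at this
      exact this
    have hadm : p1Adm Q r x (γ x ++ γ') := by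
      refine ⟨?_, ?_⟩
      · intro v hv
        rcases List.mem_append.1 hv with h | h
        · exact (hγ1 x).1 v h
        · obtain ⟨h1, h2, -⟩ := hmem v h
          exact ⟨h2, hdist v h1⟩
      · rw [List.map_append, hmap]
        refine List.nodup_append.2 ⟨(hγ1 x).2, Z.nodup_toList, ?_⟩
        intro l hl l' hl' heq
        subst heq
        rw [Finset.mem_toList] at hl'
        have := (Finset.mem_sdiff.1 (hZsub hl')).2
        exact this (List.mem_toFinset.2 hl)
    have hC : 0 ≤ (2 * r) ^ α := Real.rpow_nonneg (by linarith) _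
    have hw1 : walk (sn α) (γ x ++ γ') ≤ walk (sn α) (γ x) + (2 * r) ^ α + walk (sn α) γ' := by
      refine p1_walk_append _ _ hC _ _ ?_
      intro u hu v hv
      have h1 := ((hγ1 x).1 u hu).2
      have h2 := hdist v (hmem v hv).1
      have h3 : dist u v ≤ 2 * r := by
        have := dist_triangle_right u v x
        linarith
      exact Real.rpow_le_rpow dist_nonneg h3 hα.le
    have hw2 : walk (sn α) γ' ≤ 1 * γ'.length := by
      refine p1_walk_le _ _ zero_le_one _ ?_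
      intro u hu v hv
      have h3 : dist u v ≤ 1 := p1_cube_dist (hmem u hu).1 (hmem v hv).1
      calc sn α u v ≤ (1 : ℝ) ^ α := Real.rpow_le_rpow dist_nonneg h3 hα.le
        _ = 1 := Real.one_rpow _
    have hlt := hγ3 x _ hadm
    unfold p1Th at hlt
    rw [List.length_append, hlen] at hlt
    rw [hlen] at hw2
    push_cast at hlt
    have hw3 : 2 * κ * walk (sn α) (γ x ++ γ') ≤
        2 * κ * (walk (sn α) (γ x) + (2 * r) ^ α + b) := by
      refine mul_le_mul_of_nonneg_left ?_ (by linarith)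
      linarith
    linarith

end

end Pool.Agent.UTSP
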