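import Pool.Agent.Work.MP_27a5a0_lc.Stmts

/-!
P2. Few labels of a cube are seen at vertices with large `u`; and `u` is bounded.
-/

namespace Pool.Agent.UTSP

open Finset

theorem p2_walk_le {X : Type*} (δ : X → X → ℝ) : ∀ l : List X,
    (∀ x ∈ l, ∀ y ∈ l, δ x y ≤ 1) → walk δ l ≤ (l.length : ℝ)
  | [], _ => by simp [walk]
  | [_], _ => by simp [walk]
  | x :: y :: l, h => by
      have h1 := p2_walk_le δ (y :: l) (fun a ha b hb =>
        h a (List.mem_cons_of_mem _ ha) b (List.mem_cons_of_mem _ hb))
      have h2 : δ x y ≤ 1 := h x (by simp) y (by simp)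
      simp only [walk]
      rw [List.length_cons]
      push_cast
      linarith

theorem p2_cube_dist {d : ℕ} {y v w : Pt d} (hv : v ∈ cube y) (hw : w ∈ cube y) :
    dist v w ≤ 1 := by
  rw [dist_pi_le_iff (by norm_num)]
  intro j
  unfold cube at hv hw
  rw [Fintype.mem_piFinset] at hv hw
  have h1 := hv j
  have h2 := hw j
  simp only [Finset.mem_insert, Finset.mem_singleton] at h1 h2
  rw [Int.dist_eq]
  rcases h1 with h1 | h1 <;> rcases h2 with h2 | h2 <;> rw [h1, h2] <;> push_cast <;> norm_num

theorem p2_far_notMem {d N : ℕ} {α κ D Ds A : ℝ} (Q : Lab d N α κ D Ds A) (hDs : 0 < Ds)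
    {v : Pt d} (hv : Q.far v) : v ∉ Q.S := by
  intro h
  have h1 := hv.2 v h
  rw [dist_self] at h1
  linarith

theorem prfOut : claimOut := by
  classical
  intro d N α κ D Ds A Q b ρ um hα hκ hD hDs hρ hum hb h1 h2
  constructor
  · intro y hy
    by_contra hcon
    rw [not_lt] at hcon
    obtain ⟨T, hT, hTc⟩ := Finset.exists_subset_card_eq hcon
    have hch : ∀ l : Pt d, ∃ v : Pt d, l ∈ T → (v ∈ cube y ∧ Q.far v ∧ ρ ≤ Q.u v ∧ Q.a v = l) := by
      intro l
      by_cases hl : l ∈ T
      · have h3 := hT hl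
        rw [Finset.mem_image] at h3
        obtain ⟨v, hv, hvl⟩ := h3
        rw [Finset.mem_filter] at hv
        exact ⟨v, fun _ => ⟨hv.1, hv.2.1, hv.2.2, hvl⟩⟩
      · exact ⟨l, fun h => absurd h hl⟩
    choose g hg using hch
    set γ : List (Pt d) := T.toList.map g with hγ
    have hmem : ∀ v ∈ γ, v ∈ cube y ∧ Q.far v ∧ ρ ≤ Q.u v := by
      intro v hv
      rw [hγ, List.mem_map] at hv
      obtain ⟨l, hl, rfl⟩ := hv
      have h3 := hg l (Finset.mem_toList.mp hl)
      exact ⟨h3.1, h3.2.1, h3.2.2.1⟩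
    have hlen : γ.length = b := by
      rw [hγ, List.length_map, Finset.length_toList, hTc]
    have hnd : (γ.map Q.a).Nodup := by
      have h3 : γ.map Q.a = T.toList := by
        rw [hγ, List.map_map]
        conv_rhs => rw [← List.map_id T.toList]
        apply List.map_congr_left
        intro l hl
        exact (hg l (Finset.mem_toList.mp hl)).2.2.2
      rw [h3]
      exact T.nodup_toList
    have hne : γ ≠ [] := by
      intro h
      rw [h] at hlen
      simp at hlen
      omega
    have hm := Q.marg γ hne (fun v hv => ⟨(hmem v hv).2.1.1,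
      p2_far_notMem Q hDs (hmem v hv).2.1⟩) hnd
    have hw : walk (sn α) γ ≤ (b : ℝ) := by
      have h3 := p2_walk_le (sn α) γ (fun v hv w hw => by
        unfold sn
        exact Real.rpow_le_one dist_nonneg (p2_cube_dist (hmem v hv).1 (hmem w hw).1) hα.le)
      rw [hlen] at h3
      exact h3
    have hs : (b : ℝ) * ρ ^ α ≤
        (γ.map (fun v => (min (dist v (Q.a v)) (dist v (Q.b v))) ^ α)).sum := by
      have h3 := List.card_nsmul_le_sum
        (γ.map (fun v => (min (dist v (Q.a v)) (dist v (Q.b v))) ^ α)) (ρ ^ α) (by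
          intro x hx
          rw [List.mem_map] at hx
          obtain ⟨v, hv, rfl⟩ := hx
          exact Real.rpow_le_rpow hρ.le (hmem v hv).2.2 hα.le)
      rw [List.length_map, hlen, nsmul_eq_mul] at h3
      exact h3
    have h4 : κ * (walk (sn α) γ + D ^ α) ≤ κ * (b + D ^ α) := by
      apply mul_le_mul_of_nonneg_left _ hκ.le
      linarith
    linarith
  · intro v hv
    have hm := Q.marg [v] (by simp) (fun w hw => by
      rw [List.mem_singleton] at hw
      subst hw
      exact ⟨hv.1, p2_far_notMem Q hDs hv⟩) (by simp)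
    simp only [List.map_cons, List.map_nil, List.sum_cons, List.sum_nil, walk, add_zero,
      zero_add] at hm
    have h3 : (Q.u v) ^ α ≤ um ^ α := le_trans hm h2
    have h4 : 0 ≤ Q.u v := le_min dist_nonneg dist_nonneg
    exact (Real.rpow_le_rpow_iff h4 hum hα).mp h3

end Pool.Agent.UTSP
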