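import Pool.Agent.Work.MP_27a5a0_lc.Stmts

/-! MP_27a5a0_lc, item Q1: number of bad cells. -/

namespace Pool.Agent.UTSP

open Finset

/-- number of integers in a half-open interval -/
theorem q1_card_le (A B : ℝ) (h : 0 ≤ B - A + 1) :
    ((Finset.Icc (⌊A⌋ + 1) ⌊B⌋).card : ℝ) ≤ B - A + 1 := by
  rw [Int.card_Icc]
  have h1 : (⌊B⌋ : ℝ) ≤ B := Int.floor_le B
  have h2 : A - 1 < ⌊A⌋ := Int.sub_one_lt_floor A
  rcases le_total 0 (⌊B⌋ + 1 - (⌊A⌋ + 1)) with h3 | h3
  · have h4 : (((⌊B⌋ + 1 - (⌊A⌋ + 1)).toNat : ℤ) : ℝ) = ((⌊B⌋ + 1 - (⌊A⌋ + 1) : ℤ) : ℝ) := by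
      rw [Int.toNat_of_nonneg h3]
    rw [Int.cast_natCast] at h4
    rw [h4]
    push_cast
    linarith
  · rw [Int.toNat_of_nonpos h3]
    simpa using h

theorem prfBad : claimBad := by
  classical
  intro d t Ds P Kb ht hDs htD hK
  have ht0 : (0 : ℝ) < t := by exact_mod_cast ht
  set I : Pt d → Fin d → Finset ℤ := fun p j =>
    Finset.Icc (⌊((p j : ℝ) - 2 * Ds - 1) / t - 1⌋ + 1) ⌊((p j : ℝ) + 2 * Ds) / t⌋ with hI
  have hsub : Kb ⊆ P.biUnion (fun p => Fintype.piFinset (I p)) := by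
    intro k hk
    obtain ⟨y, v, hy, hv, p, hp, hvp⟩ := hK k hk
    rw [Finset.mem_biUnion]
    refine ⟨p, hp, ?_⟩
    rw [Fintype.mem_piFinset]
    intro j
    have h1 : |(v j : ℝ) - p j| ≤ 2 * Ds := by
      have h2 := (dist_pi_le_iff (by linarith : (0 : ℝ) ≤ 2 * Ds)).1 hvp j
      rw [Int.dist_eq] at h2
      exact h2
    have h3 : v j = y j ∨ v j = y j + 1 := by
      unfold cube at hv
      rw [Fintype.mem_piFinset] at hv
      have := hv j
      simpa using this
    have hkj : k j = y j / (t : ℤ) := by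
      rw [← hy]
      rfl
    have htz : (0 : ℤ) < t := by exact_mod_cast ht
    have h4 : (t : ℤ) * k j ≤ y j := by
      rw [hkj]
      exact Int.mul_ediv_self_le htz.ne'
    have h5 : y j < (t : ℤ) * (k j + 1) := by
      rw [hkj]
      have := Int.lt_mul_ediv_self_add (x := y j) htz
      linarith
    have h4r : (t : ℝ) * k j ≤ y j := by exact_mod_cast h4
    have h5r : (y j : ℝ) < (t : ℝ) * (k j + 1) := by exact_mod_cast h5
    have h6 : (y j : ℝ) ≤ v j ∧ (v j : ℝ) ≤ y j + 1 := by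
      rcases h3 with h3 | h3
      · rw [h3]
        constructor <;> linarith
      · rw [h3]
        push_cast
        constructor <;> linarith
    rw [abs_le] at h1
    rw [hI]
    simp only [Finset.mem_Icc]
    constructor
    · rw [Int.add_one_le_iff, Int.floor_lt]
      rw [sub_lt_iff_lt_add, div_lt_iff₀ ht0]
      linarith [h1.1, h6.2]
    · rw [Int.le_floor, le_div_iff₀ ht0]
      linarith [h1.2, h6.1]
  have hcard : ∀ p j, ((I p j).card : ℝ) ≤ 7 * Ds / t := by
    intro p j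
    have e : ((p j : ℝ) + 2 * Ds) / t - (((p j : ℝ) - 2 * Ds - 1) / t - 1) + 1 =
        (4 * Ds + 1 + 2 * t) / t := by
      field_simp
      ring
    have h0 : 0 ≤ ((p j : ℝ) + 2 * Ds) / t - (((p j : ℝ) - 2 * Ds - 1) / t - 1) + 1 := by
      rw [e]
      positivity
    refine (q1_card_le _ _ h0).trans ?_
    rw [e]
    gcongr
    linarith
  have h1 : (Kb.card : ℝ) ≤ ∑ p ∈ P, ((Fintype.piFinset (I p)).card : ℝ) := by
    have := (Finset.card_le_card hsub).trans Finset.card_biUnion_le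
    exact_mod_cast this
  refine h1.trans ?_
  have h2 : ∀ p ∈ P, ((Fintype.piFinset (I p)).card : ℝ) ≤ (7 * Ds / t) ^ d := by
    intro p _
    rw [Fintype.card_piFinset]
    push_cast
    calc ∏ j, ((I p j).card : ℝ) ≤ ∏ _j : Fin d, (7 * Ds / t) :=
          Finset.prod_le_prod (fun j _ => by positivity) (fun j _ => hcard p j)
      _ = (7 * Ds / t) ^ d := by rw [Finset.prod_const, Finset.card_univ, Fintype.card_fin]
  refine (Finset.sum_le_sum h2).trans ?_
  rw [Finset.sum_const, nsmul_eq_mul]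

end Pool.Agent.UTSP
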