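import Pool.Agent.Work.MP_27a5a0_lc.Stmts

/-!
T1: the cost of a cyclic list does not increase when the list is filtered.
-/

namespace Pool.Agent.UTSP

theorem t1_cons_le {X : Type*} {δ : X → X → ℝ} (h : IsMet δ) (x z : X) (m : List X)
    (hm : m ≠ []) : walk δ (x :: m) ≤ δ x z + walk δ (z :: m) := by
  cases m with
  | nil => exact absurd rfl hm
  | cons w m' =>
    simp only [walk]
    have := h.tri x z w
    linarith

theorem t1_filter_le {X : Type*} {δ : X → X → ℝ} (h : IsMet δ) (p : X → Bool) (y : X) :
    ∀ (l : List X) (x : X), walk δ (x :: (l.filter p ++ [y])) ≤ walk δ (x :: (l ++ [y])) := by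
  intro l
  induction l with
  | nil => intro x; exact le_rfl
  | cons z l ih =>
    intro x
    by_cases hp : p z
    · rw [List.filter_cons_of_pos hp]
      simp only [List.cons_append, walk]
      have := ih z
      linarith
    · rw [List.filter_cons_of_neg hp]
      refine (ih x).trans ?_
      have := t1_cons_le h x z (l ++ [y]) (by simp)
      simpa only [List.cons_append, walk] using this

theorem t1_end_le {X : Type*} {δ : X → X → ℝ} (h : IsMet δ) (x y : X) :
    ∀ (m : List X) (a : X), walk δ (a :: (m ++ [y])) ≤ δ x y + walk δ (a :: (m ++ [x])) := by
  intro m
  induction m with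
  | nil =>
    intro a
    simp only [List.nil_append, walk]
    have := h.tri a x y
    linarith
  | cons z m ih =>
    intro a
    simp only [List.cons_append, walk]
    have := ih z
    linarith

theorem prfFilter : claimFilter := by
  intro X _ δ h p l
  induction l with
  | nil => exact le_rfl
  | cons x l ih =>
    by_cases hp : p x
    · rw [List.filter_cons_of_pos hp]
      simp only [cyc]
      exact t1_filter_le h p x l x
    · rw [List.filter_cons_of_neg hp]
      refine ih.trans ?_
      cases l with
      | nil => simp [cyc, walk, h.self]
      | cons y l' =>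
        simp only [cyc, List.cons_append, walk]
        exact t1_end_le h x y l' y

end Pool.Agent.UTSP
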