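import Pool.Agent.Work.MP_27a5a0_lc.Stmts

/-!
MP_27a5a0_lc, item T2: cost of separated lists.
-/

namespace Pool.Agent.UTSP

open Finset

theorem t2_walk_nonneg {X : Type} {δ : X → X → ℝ} (h : ∀ x y, 0 ≤ δ x y) :
    ∀ l : List X, 0 ≤ walk δ l := by
  intro l
  induction l with
  | nil => exact le_rfl
  | cons x l ih =>
    cases l with
    | nil => exact le_rfl
    | cons y l => exact add_nonneg (h x y) ih

theorem t2_walk_sep {X : Type} {δ : X → X → ℝ} {ε : ℝ} {y : X} :
    ∀ (l : List X) (m : X), (m :: l).Nodup →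
      (∀ a ∈ m :: l, ∀ b ∈ m :: l, a ≠ b → ε ≤ δ a b) → (∀ z ∈ m :: l, ε ≤ δ z y) →
      ((l.length : ℝ) + 1) * ε ≤ walk δ (m :: (l ++ [y])) := by
  intro l
  induction l with
  | nil =>
    intro m _ _ hy
    have h1 : ε ≤ δ m y := hy m (List.mem_cons_self)
    show (((([] : List X).length : ℕ) : ℝ) + 1) * ε ≤ δ m y + 0
    simpa using h1
  | cons p l ih =>
    intro m hn hs hy
    have h1 : ε ≤ δ m p := by
      apply hs m List.mem_cons_self p (List.mem_cons_of_mem _ List.mem_cons_self)
      rintro rfl
      rw [List.nodup_cons] at hn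
      exact hn.1 List.mem_cons_self
    have h2 := ih p (List.nodup_cons.1 hn).2
      (fun a ha b hb => hs a (List.mem_cons_of_mem _ ha) b (List.mem_cons_of_mem _ hb))
      (fun z hz => hy z (List.mem_cons_of_mem _ hz))
    show ((((p :: l).length : ℕ) : ℝ) + 1) * ε ≤ δ m p + walk δ (p :: (l ++ [y]))
    rw [List.length_cons]
    push_cast
    linarith

/-- T2 -/
theorem prfSepCost : claimSepCost := by
  intro X _ δ hδ
  have h0 : ∀ x y, 0 ≤ δ x y := by
    intro x y
    by_cases h : x = y
    · subst h
      rw [hδ.self]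
    · exact (hδ.pos x y h).le
  refine ⟨?_, ?_⟩
  · intro l
    cases l with
    | nil => exact le_rfl
    | cons x l => exact t2_walk_nonneg h0 _
  · intro ε l hn hl hs
    match l, hn, hl, hs with
    | x :: m :: l, hn, _, hs =>
      have hx : ∀ z ∈ m :: l, ε ≤ δ z x := by
        intro z hz
        apply hs z (List.mem_cons_of_mem _ hz) x List.mem_cons_self
        rintro rfl
        exact (List.nodup_cons.1 hn).1 hz
      have h1 : ε ≤ δ x m := by
        rw [hδ.symm]
        exact hx m List.mem_cons_self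
      have h2 := t2_walk_sep (y := x) l m (List.nodup_cons.1 hn).2
        (fun a ha b hb => hs a (List.mem_cons_of_mem _ ha) b (List.mem_cons_of_mem _ hb)) hx
      show (((x :: m :: l).length : ℕ) : ℝ) * ε ≤ δ x m + walk δ (m :: (l ++ [x]))
      rw [List.length_cons, List.length_cons]
      push_cast
      linarith

end Pool.Agent.UTSP
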