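import Pool.Agent.Work.MP_27a5a0_lc.Stmts

/-!
MP_27a5a0_lc, item T3: insertion of new points into a cyclic ordering.
-/

namespace Pool.Agent.UTSP

open Finset

private theorem t3_nonneg {X : Type*} {δ : X → X → ℝ} (h : IsMet δ) (x y : X) : 0 ≤ δ x y := by
  by_cases hxy : x = y
  · subst hxy; rw [h.self]
  · exact (h.pos x y hxy).le

/-- length of a walk that is continued -/
private theorem t3_walk_append {X : Type*} (δ : X → X → ℝ) :
    ∀ (l : List X) (x y : X) (m : List X),
      walk δ (l ++ x :: y :: m) = walk δ (l ++ [x]) + δ x y + walk δ (y :: m)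
  | [], x, y, m => by simp [walk]
  | [a], x, y, m => by simp [walk]; ring
  | a :: b :: l, x, y, m => by
      have := t3_walk_append δ (b :: l) x y m
      simp only [List.cons_append, walk] at this ⊢
      rw [this]; ring

/-- first-to-last distance -/
private theorem t3_first_last {X : Type*} {δ : X → X → ℝ} (h : IsMet δ) :
    ∀ (l : List X) (p z : X), δ p z ≤ walk δ (p :: (l ++ [z]))
  | [], p, z => by simp [walk]
  | a :: l, p, z => by
      have := t3_first_last h l a z
      have h2 := h.tri p a z
      simp only [List.cons_append, walk] at this ⊢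
      linarith

/-- rotation invariance -/
private theorem t3_rot {X : Type*} (δ : X → X → ℝ) (u v : List X) (s : X) :
    cyc δ (u ++ s :: v) = cyc δ (s :: (v ++ u)) := by
  cases u with
  | nil => simp
  | cons a u =>
    have e1 : cyc δ (a :: u ++ s :: v) = walk δ ((a :: u) ++ s :: (v ++ [a])) := by
      simp [cyc]
    have e2 : cyc δ (s :: (v ++ a :: u)) = walk δ ((s :: v) ++ a :: (u ++ [s])) := by
      simp [cyc]
    rw [e1, e2]
    cases v with
    | nil =>
      cases u with
      | nil => simp [walk]; ring
      | cons b u =>
        have h1 := t3_walk_append δ (a :: b :: u) s a []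
        have h2 := t3_walk_append δ [s] a b (u ++ [s])
        simp only [List.cons_append, List.nil_append, walk, List.append_nil] at h1 h2 ⊢
        linarith
    | cons c v =>
      cases u with
      | nil =>
        have h1 := t3_walk_append δ [a] s c (v ++ [a])
        have h2 := t3_walk_append δ (s :: c :: v) a s []
        simp only [List.cons_append, List.nil_append, walk] at h1 h2 ⊢
        linarith
      | cons b u =>
        have h1 := t3_walk_append δ (a :: b :: u) s c (v ++ [a])
        have h2 := t3_walk_append δ (s :: c :: v) a b (u ++ [s])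
        simp only [List.cons_append, List.nil_append, walk, List.append_nil] at h1 h2 ⊢
        linarith

/-- inserting a list before a walk -/
private theorem t3_ins {X : Type*} {δ : X → X → ℝ} (h : IsMet δ) (p : X) (γ : List X) (y : X)
    (m : List X) :
    walk δ ((p :: γ) ++ y :: m) ≤ 2 * walk δ (p :: γ) + δ p y + walk δ (y :: m) := by
  rcases List.eq_nil_or_concat γ with rfl | ⟨g, z, rfl⟩
  · simp only [List.cons_append, List.nil_append, walk]
    linarith
  · have h1 := t3_walk_append δ (p :: g) z y m
    have h2 := t3_first_last h g p z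
    have h3 := h.tri z p y
    have h4 := h.symm z p
    have e : (p :: (g ++ [z])) ++ y :: m = (p :: g) ++ z :: y :: m := by simp
    rw [List.concat_eq_append, e, h1]
    simp only [List.cons_append] at h2 ⊢
    linarith

/-- T3. Insertion of a list of new points after a point `s` of `S`. -/
theorem prfInsert : claimInsert := by
  intro X _ δ hδ S σ hσ s hs p γ hnd hnew
  obtain ⟨hσn, hσS⟩ := hσ
  have hsσ : s ∈ σ := by
    rw [← List.mem_toFinset, hσS]; exact hs
  obtain ⟨u, v, rfl⟩ := List.append_of_mem hsσ
  have hperm : (u ++ s :: v).Perm (s :: (v ++ u)) := by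
    have h1 : (u ++ s :: v).Perm (s :: v ++ u) := List.perm_append_comm
    simpa using h1
  have hnd2 : (s :: (v ++ u)).Nodup := hperm.nodup_iff.1 hσn
  have hS2 : ∀ x, x ∈ S ↔ x = s ∨ x ∈ v ++ u := by
    intro x
    rw [← hσS, List.mem_toFinset, hperm.mem_iff, List.mem_cons]
  refine ⟨s :: ((p :: γ) ++ (v ++ u)), ⟨?_, ?_⟩, ?_⟩
  · rw [List.nodup_cons] at hnd2 ⊢
    obtain ⟨hs1, hvu⟩ := hnd2
    refine ⟨?_, ?_⟩
    · intro hmem
      rcases List.mem_append.1 hmem with h1 | h1
      · exact hnew s h1 hs
      · exact hs1 h1
    · refine List.Nodup.append hnd hvu ?_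
      intro x hx1 hx2
      exact hnew x hx1 ((hS2 x).2 (Or.inr hx2))
  · ext x
    simp only [List.mem_toFinset, Finset.mem_union, List.mem_cons, List.mem_append]
    have := hS2 x
    simp only [List.mem_append] at this
    rw [this]
    tauto
  · rw [t3_rot δ u v s]
    generalize v ++ u = w
    cases w with
    | nil =>
      have h1 := t3_ins hδ p γ s []
      have h2 := hδ.symm p s
      have h3 := hδ.self s
      simp only [cyc, List.cons_append, List.nil_append, List.append_nil, walk] at h1 ⊢
      linarith
    | cons x w =>
      have h1 := t3_ins hδ p γ x (w ++ [s])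
      have h2 := hδ.symm p s
      have h3 := hδ.tri p s x
      simp only [cyc, List.cons_append, List.append_assoc, walk] at h1 ⊢
      linarith

end Pool.Agent.UTSP
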