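import Pool.Agent.Work.MP_27a5a0_lc.Stmts

set_option autoImplicit false

/-!
MP_27a5a0_lc, T4: gaps of `S` in the tour and additivity of marginal costs.
-/

namespace Pool.Agent.UTSP

open Finset

namespace T4

variable {X : Type}

/-! ### cyclic rotation -/

theorem walk_split (δ : X → X → ℝ) (x : X) (l' : List X) : ∀ l : List X,
    walk δ (l ++ x :: l') = walk δ (l ++ [x]) + walk δ (x :: l') := by
  intro l
  induction l with
  | nil => simp [walk]
  | cons y l ih =>
    cases l with
    | nil => simp [walk]
    | cons z l =>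
      simp only [List.cons_append] at ih ⊢
      rw [walk, walk, ih]
      ring

theorem cyc_rot (δ : X → X → ℝ) (x : X) (l1 l2 : List X) :
    cyc δ (l1 ++ x :: l2) = walk δ (x :: (l2 ++ l1 ++ [x])) := by
  cases l1 with
  | nil => simp [cyc]
  | cons y l1 =>
    have h1 : cyc δ (y :: l1 ++ x :: l2) = walk δ ((y :: l1) ++ x :: (l2 ++ [y])) := by
      simp [cyc]
    have h2 := walk_split δ x (l2 ++ [y]) (y :: l1)
    have h3 := walk_split δ y (l1 ++ [x]) (x :: l2)
    rw [h1, h2, show x :: (l2 ++ y :: l1 ++ [x]) = (x :: l2) ++ y :: (l1 ++ [x]) by simp, h3,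
      add_comm]
    rfl

/-! ### neighbours -/

variable [DecidableEq X]

/-- the last element of `S` before `v` -/
def pre (S : Finset X) : X → List X → X → X
  | s, [], _ => s
  | s, x :: ρ, v => if x = v then s else pre S (if x ∈ S then x else s) ρ v

/-- the first element of `S` -/
def nxt (S : Finset X) (z : X) : List X → X
  | [] => z
  | x :: ρ => if x ∈ S then x else nxt S z ρ

/-- the first element of `S` after `v` -/
def post (S : Finset X) (z : X) : List X → X → X
  | [], _ => z
  | x :: ρ, v => if x = v then nxt S z ρ else post S z ρ v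

variable {S : Finset X}

theorem pre_mem (v : X) : ∀ (ρ : List X) (s : X), s ∈ S → pre S s ρ v ∈ S := by
  intro ρ
  induction ρ with
  | nil => intro s hs; exact hs
  | cons x ρ ih =>
    intro s hs
    unfold pre
    split_ifs with h1 h2
    · exact hs
    · exact ih x h2
    · exact ih s hs

theorem nxt_mem {z : X} (hz : z ∈ S) : ∀ ρ : List X, nxt S z ρ ∈ S := by
  intro ρ
  induction ρ with
  | nil => exact hz
  | cons x ρ ih =>
    unfold nxt
    split_ifs with h1
    · exact h1
    · exact ih

theorem post_mem {z : X} (hz : z ∈ S) (v : X) : ∀ ρ : List X, post S z ρ v ∈ S := by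
  intro ρ
  induction ρ with
  | nil => exact hz
  | cons x ρ ih =>
    unfold post
    split_ifs with h1
    · exact nxt_mem hz ρ
    · exact ih

theorem pre_eq_or (v : X) : ∀ (ρ : List X) (s : X), pre S s ρ v = s ∨ pre S s ρ v ∈ ρ := by
  intro ρ
  induction ρ with
  | nil => intro s; exact Or.inl rfl
  | cons x ρ ih =>
    intro s
    unfold pre
    split_ifs with h1 h2
    · exact Or.inl rfl
    · right
      rcases ih x with h | h
      · rw [h]; exact List.mem_cons_self
      · exact List.mem_cons_of_mem _ h
    · rcases ih s with h | h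
      · exact Or.inl h
      · exact Or.inr (List.mem_cons_of_mem _ h)

theorem pre_cons_ne {x v : X} (h : x ≠ v) (s : X) (ρ : List X) :
    pre S s (x :: ρ) v = pre S (if x ∈ S then x else s) ρ v := by
  rw [pre, if_neg h]

theorem post_cons_ne {x v : X} (h : x ≠ v) (z : X) (ρ : List X) :
    post S z (x :: ρ) v = post S z ρ v := by
  rw [post, if_neg h]

theorem post_of_pre (z w : X) (hw : w ∉ S) : ∀ (ρ : List X) (s : X), s ∉ ρ → w ∈ ρ →
    ρ.Nodup → pre S s ρ w = s → post S z ρ w = nxt S z ρ := by
  intro ρ
  induction ρ with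
  | nil => intro s _ h; exact absurd h List.not_mem_nil
  | cons x ρ ih =>
    intro s hs hwρ hnd hp
    rw [List.nodup_cons] at hnd
    rw [List.mem_cons, not_or] at hs
    by_cases hx : x = w
    · subst hx
      rw [post, if_pos rfl, nxt, if_neg hw]
    · rw [post_cons_ne hx]
      rw [pre_cons_ne hx] at hp
      have hwρ' : w ∈ ρ := by
        rcases List.mem_cons.1 hwρ with h | h
        · exact absurd h.symm hx
        · exact h
      by_cases hxS : x ∈ S
      · rw [if_pos hxS] at hp
        exfalso
        rcases pre_eq_or (S := S) w ρ x with h | h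
        · rw [hp] at h
          exact hs.1 h
        · rw [hp] at h
          exact hs.2 h
      · rw [if_neg hxS] at hp
        rw [nxt, if_neg hxS]
        exact ih s hs.2 hwρ' hnd.2 hp

theorem post_eq (z v w : X) (hv : v ∉ S) (hw : w ∉ S) : ∀ (ρ : List X) (s : X), s ∉ ρ → v ∈ ρ →
    w ∈ ρ → ρ.Nodup → pre S s ρ v = pre S s ρ w → post S z ρ v = post S z ρ w := by
  intro ρ
  induction ρ with
  | nil => intro s _ h; exact absurd h List.not_mem_nil
  | cons x ρ ih =>
    intro s hs hvρ hwρ hnd hp
    have hnd0 := hnd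
    have hs0 := hs
    rw [List.nodup_cons] at hnd
    rw [List.mem_cons, not_or] at hs
    by_cases hxv : x = v
    · have hp1 : pre S s (x :: ρ) v = s := by rw [pre, if_pos hxv]
      have e1 := post_of_pre z v hv (x :: ρ) s hs0 hvρ hnd0 hp1
      have e2 := post_of_pre z w hw (x :: ρ) s hs0 hwρ hnd0 (hp ▸ hp1)
      rw [e1, e2]
    by_cases hxw : x = w
    · have hp1 : pre S s (x :: ρ) w = s := by rw [pre, if_pos hxw]
      have e1 := post_of_pre z v hv (x :: ρ) s hs0 hvρ hnd0 (hp.trans hp1)
      have e2 := post_of_pre z w hw (x :: ρ) s hs0 hwρ hnd0 hp1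
      rw [e1, e2]
    rw [post_cons_ne hxv, post_cons_ne hxw]
    rw [pre_cons_ne hxv, pre_cons_ne hxw] at hp
    have hv' : v ∈ ρ := by
      rcases List.mem_cons.1 hvρ with h | h
      · exact absurd h.symm hxv
      · exact h
    have hw' : w ∈ ρ := by
      rcases List.mem_cons.1 hwρ with h | h
      · exact absurd h.symm hxw
      · exact h
    by_cases hxS : x ∈ S
    · rw [if_pos hxS] at hp
      exact ih x hnd.1 hv' hw' hnd.2 hp
    · rw [if_neg hxS] at hp
      exact ih s hs.2 hv' hw' hnd.2 hp

theorem head_filter (z s : X) (p : X → Bool) (hpS : ∀ x ∈ S, p x = true) : ∀ ρ : List X,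
    ρ.Nodup → (∀ v ∈ ρ, p v = true → v ∉ S → pre S s ρ v ≠ s) →
    ∃ t : List X, ρ.filter p ++ [z] = nxt S z ρ :: t := by
  intro ρ
  induction ρ with
  | nil => intro _ _; exact ⟨[], rfl⟩
  | cons x ρ ih =>
    intro hnd h
    rw [List.nodup_cons] at hnd
    by_cases hxS : x ∈ S
    · rw [List.filter_cons_of_pos (hpS x hxS), nxt, if_pos hxS]
      exact ⟨ρ.filter p ++ [z], rfl⟩
    · have hpx : ¬ p x = true := by
        intro hp
        exact h x List.mem_cons_self hp hxS (by rw [pre, if_pos rfl])
      rw [List.filter_cons_of_neg hpx, nxt, if_neg hxS]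
      refine ih hnd.2 fun v hv hpv hvS => ?_
      have hne : x ≠ v := by
        rintro rfl
        exact hnd.1 hv
      have := h v (List.mem_cons_of_mem _ hv) hpv hvS
      rwa [pre_cons_ne hne, if_neg hxS] at this

/-- the marginal cost -/
def mc (δ : X → X → ℝ) (S : Finset X) (s z : X) (ρ : List X) (v : X) : ℝ :=
  δ (pre S s ρ v) v + δ v (post S z ρ v) - δ (pre S s ρ v) (post S z ρ v)

theorem main (δ : X → X → ℝ) (z : X) (p : X → Bool) (hpS : ∀ x ∈ S, p x = true) :
    ∀ (ρ : List X) (s : X), ρ.Nodup →
    (∀ v ∈ ρ, ∀ w ∈ ρ, p v = true → p w = true → v ∉ S → w ∉ S →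
      pre S s ρ v = pre S s ρ w → v = w) →
    walk δ (s :: (ρ.filter p ++ [z])) =
      walk δ (s :: (ρ.filter (fun x => decide (x ∈ S)) ++ [z])) +
        ((ρ.filter (fun x => p x && decide (x ∉ S))).map (mc δ S s z ρ)).sum := by
  intro ρ
  induction ρ with
  | nil => intro s _ _; simp
  | cons x ρ ih =>
    intro s hnd hinj
    rw [List.nodup_cons] at hnd
    have hne : ∀ v ∈ ρ, x ≠ v := by
      rintro v hv rfl
      exact hnd.1 hv
    have hinj' : ∀ v ∈ ρ, ∀ w ∈ ρ, p v = true → p w = true → v ∉ S → w ∉ S →
        pre S (if x ∈ S then x else s) ρ v = pre S (if x ∈ S then x else s) ρ w → v = w := by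
      intro v hv w hw h1 h2 h3 h4 h5
      refine hinj v (List.mem_cons_of_mem _ hv) w (List.mem_cons_of_mem _ hw) h1 h2 h3 h4 ?_
      rw [pre_cons_ne (hne v hv), pre_cons_ne (hne w hw)]
      exact h5
    have IH := ih (if x ∈ S then x else s) hnd.2 hinj'
    have hmap : (ρ.filter (fun x => p x && decide (x ∉ S))).map (mc δ S s z (x :: ρ)) =
        (ρ.filter (fun x => p x && decide (x ∉ S))).map
          (mc δ S (if x ∈ S then x else s) z ρ) := by
      apply List.map_congr_left
      intro v hv
      have hv' := List.mem_of_mem_filter hv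
      unfold mc
      rw [pre_cons_ne (hne v hv'), post_cons_ne (hne v hv')]
    by_cases hxS : x ∈ S
    · rw [if_pos hxS] at IH hmap
      rw [List.filter_cons_of_pos (hpS x hxS), List.filter_cons_of_pos (by simpa using hxS),
        List.filter_cons_of_neg (by simp [hxS]), hmap]
      simp only [List.cons_append]
      rw [walk, walk, IH]
      ring
    · rw [if_neg hxS] at IH hmap hinj'
      rw [List.filter_cons_of_neg (p := fun x => decide (x ∈ S)) (by simpa using hxS)]
      by_cases hpx : p x = true
      · rw [List.filter_cons_of_pos hpx,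
          List.filter_cons_of_pos (p := fun x => p x && decide (x ∉ S)) (by simp [hpx, hxS]),
          List.map_cons, List.sum_cons, hmap]
        obtain ⟨t, ht⟩ := head_filter (S := S) z s p hpS ρ hnd.2 (by
          intro v hv hpv hvS hcon
          have h1 := hinj x List.mem_cons_self v (List.mem_cons_of_mem _ hv) hpx hpv hxS hvS (by
            rw [pre, if_pos rfl, pre_cons_ne (hne v hv), if_neg hxS, hcon])
          exact hne v hv h1)
        have hx1 : mc δ S s z (x :: ρ) x = δ s x + δ x (nxt S z ρ) - δ s (nxt S z ρ) := by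
          unfold mc
          rw [pre, if_pos rfl, post, if_pos rfl]
        rw [hx1]
        simp only [List.cons_append]
        rw [walk]
        have e1 : walk δ (x :: (ρ.filter p ++ [z])) =
            δ x (nxt S z ρ) - δ s (nxt S z ρ) + walk δ (s :: (ρ.filter p ++ [z])) := by
          rw [ht, walk, walk]
          ring
        rw [e1, IH]
        ring
      · rw [List.filter_cons_of_neg hpx,
          List.filter_cons_of_neg (p := fun x => p x && decide (x ∉ S)) (by simp [hpx]), hmap]
        exact IH

end T4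

open T4

theorem prfGap : claimGap := by
  intro X _ _ δ τ hτ S hS
  obtain ⟨s, hs⟩ := Finset.card_pos.1 hS
  have hall : ∀ x : X, x ∈ τ := by
    intro x
    have : x ∈ τ.toFinset := by rw [hτ.2]; exact Finset.mem_univ x
    exact List.mem_toFinset.1 this
  obtain ⟨t1, t2, ht⟩ := List.append_of_mem (hall s)
  have hnd : (t1 ++ s :: t2).Nodup := ht ▸ hτ.1
  have hnd2 : (s :: (t2 ++ t1)).Nodup := by
    refine hnd.perm ?_
    rw [← List.cons_append]
    exact List.perm_append_comm
  rw [List.nodup_cons] at hnd2
  set ρ := t2 ++ t1 with hρ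
  have hρall : ∀ v : X, v ∉ S → v ∈ ρ := by
    intro v hv
    have h1 := hall v
    rw [ht, List.mem_append, List.mem_cons] at h1
    rw [hρ, List.mem_append]
    rcases h1 with h | h | h
    · exact Or.inr h
    · exact absurd (h ▸ hs) hv
    · exact Or.inl h
  have hcyc : ∀ p : X → Bool, p s = true →
      cyc δ (τ.filter p) = walk δ (s :: (ρ.filter p ++ [s])) := by
    intro p hp
    rw [ht, List.filter_append, List.filter_cons_of_pos hp, cyc_rot, hρ, List.filter_append]
  refine ⟨pre S s ρ, post S s ρ, fun v _ => ⟨pre_mem v ρ s hs, post_mem hs v ρ⟩, ?_, ?_⟩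
  · intro v w hv hw h
    exact post_eq s v w hv hw ρ s hnd2.1 (hρall v hv) (hρall w hw) hnd2.2 h
  · intro γ hγ hnodup
    have hinj := List.inj_on_of_nodup_map hnodup
    have hγnd : γ.Nodup := List.Nodup.of_map _ hnodup
    have hpS : ∀ x ∈ S, decide (x ∈ S ∪ γ.toFinset) = true := by
      intro x hx
      simp [hx]
    rw [hcyc _ (hpS s hs), hcyc _ (by simpa using hs)]
    have hm := main (S := S) δ s (fun x => decide (x ∈ S ∪ γ.toFinset)) hpS ρ s hnd2.2 (by
      intro v hv w hw h1 h2 h3 h4 h5
      simp only [decide_eq_true_eq, Finset.mem_union, List.mem_toFinset] at h1 h2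
      exact hinj (h1.resolve_left h3) (h2.resolve_left h4) h5)
    rw [hm]
    congr 1
    have hperm : (ρ.filter (fun x => decide (x ∈ S ∪ γ.toFinset) && decide (x ∉ S))).Perm γ := by
      rw [List.perm_ext_iff_of_nodup (hnd2.2.filter _) hγnd]
      intro x
      rw [List.mem_filter]
      simp only [Bool.and_eq_true, decide_eq_true_eq, Finset.mem_union, List.mem_toFinset]
      constructor
      · rintro ⟨-, h1, h2⟩
        exact h1.resolve_left h2
      · intro h
        exact ⟨hρall x (hγ x h), Or.inr h, hγ x h⟩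
    exact (hperm.map _).sum_eq

end Pool.Agent.UTSP
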