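import Pool.Agent.Work.MP_27a5a0_lc.Stmts

/-!
MP_27a5a0_lc, T5: main statement on tours.
-/

namespace Pool.Agent.UTSP

open Finset

namespace T5aux

theorem exists_opt {X : Type} [Fintype X] [DecidableEq X] (δ : X → X → ℝ) (S : Finset X) :
    ∃ σ : List X, IsOrd S σ ∧ ∀ σ' : List X, IsOrd S σ' → cyc δ σ ≤ cyc δ σ' := by
  have hfin : {σ : List X | IsOrd S σ}.Finite := by
    refine Set.Finite.subset (Set.finite_range (fun l : {l : List X // l.Nodup} => l.1)) ?_
    intro σ hσ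
    exact ⟨⟨σ, hσ.1⟩, rfl⟩
  have hne : {σ : List X | IsOrd S σ}.Nonempty := ⟨S.toList, S.nodup_toList, S.toList_toFinset⟩
  obtain ⟨σ, hσ, hmin⟩ := Set.exists_min_image _ (cyc δ) hfin hne
  exact ⟨σ, hσ, fun σ' hσ' => hmin σ' hσ'⟩

end T5aux

theorem prfTour (h1 : claimFilter) (h2 : claimSepCost) (h3 : claimInsert) (h4 : claimGap) :
    claimTour := by
  intro X _ _ δ hδ κ hκ τ hτ hrat S₀ hS₀ σ₀ hσ₀
  choose o ho hmin using T5aux.exists_opt δ
  obtain ⟨hnn, hsepc⟩ := h2 X δ hδ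
  set f : Finset X → ℝ := fun S =>
    cyc δ (τ.filter (fun x => decide (x ∈ S))) - 2 * κ * cyc δ (o S) with hf
  obtain ⟨S, hS, hmax⟩ := Finset.exists_max_image
    (Finset.univ.filter (fun S : Finset X => S₀ ⊆ S)) f ⟨S₀, by simp⟩
  rw [Finset.mem_filter] at hS
  have hS0 : S₀ ⊆ S := hS.2
  have hmax' : ∀ T : Finset X, S₀ ⊆ T → f T ≤ f S := fun T hT =>
    hmax T (by rw [Finset.mem_filter]; exact ⟨Finset.mem_univ _, hT⟩)
  have hcard : 2 ≤ S.card := hS₀.trans (Finset.card_le_card hS0)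
  -- (i)
  have hi : cyc δ (o S) ≤ 2 * cyc δ σ₀ := by
    have e1 := hmax' S₀ (Finset.Subset.refl _)
    have e2 := hrat S hcard (o S) (ho S)
    have e3 := hnn (τ.filter (fun x => decide (x ∈ S₀)))
    have e4 := hmin S₀ σ₀ hσ₀
    simp only [hf] at e1
    have e5 : κ * cyc δ (o S) ≤ 2 * κ * cyc δ (o S₀) := by linarith
    have e6 : 2 * κ * cyc δ (o S₀) ≤ 2 * κ * cyc δ σ₀ := by gcongr
    have e7 : κ * cyc δ (o S) ≤ κ * (2 * cyc δ σ₀) := by linarith
    exact le_of_mul_le_mul_left e7 hκ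
  obtain ⟨a, b, hab, hdet, hgap⟩ := h4 X δ τ hτ S (by omega)
  refine ⟨S, a, b, hS0, hab, hdet, ?_, ?_⟩
  · intro p γ hγ hnd s hs
    have hnd' : (p :: γ).Nodup := List.Nodup.of_map a hnd
    have e1 := hgap (p :: γ) hγ hnd
    obtain ⟨σ', hσ', hc⟩ := h3 X δ hδ S (o S) (ho S) s hs p γ hnd' hγ
    have e2 := hmin _ σ' hσ'
    have e3 := hmax' (S ∪ (p :: γ).toFinset) (hS0.trans Finset.subset_union_left)
    simp only [hf] at e3
    have e4 : 2 * κ * cyc δ (o (S ∪ (p :: γ).toFinset)) ≤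
        2 * κ * (cyc δ (o S) + 2 * (walk δ (p :: γ) + δ s p)) := by
      have := e2.trans hc
      gcongr
    linarith
  · intro P hP hP2 ε hε
    set l := (o S).filter (fun x => decide (x ∈ P)) with hl
    have hlnd : l.Nodup := (ho S).1.filter _
    have hlset : l.toFinset = P := by
      ext x
      rw [List.mem_toFinset, hl, List.mem_filter, decide_eq_true_eq, ← List.mem_toFinset,
        (ho S).2]
      exact ⟨fun h => h.2, fun h => ⟨hP h, h⟩⟩
    have hlen : l.length = P.card := by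
      rw [← hlset, List.toFinset_card_of_nodup hlnd]
    have hmem : ∀ x, x ∈ l ↔ x ∈ P := fun x => by rw [← hlset, List.mem_toFinset]
    have e1 := hsepc ε l hlnd (by omega) (fun x hx y hy hxy =>
      hε x ((hmem x).1 hx) y ((hmem y).1 hy) hxy)
    have e2 := h1 X δ hδ (fun x => decide (x ∈ P)) (o S)
    rw [hlen] at e1
    exact (e1.trans e2).trans hi

end Pool.Agent.UTSP
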