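import Pool.Agent.Work.MP_27a5a0_lc.Stmts

/-!
W1: properties of the ramp functions.
-/

namespace Pool.Agent.UTSP

open Finset

theorem prfPsi : claimPsi := by
  intro L w i y hL hw hi
  unfold psi inW
  set t : ℤ := (L : ℤ) * w with ht
  have hL' : (1 : ℤ) ≤ L := by exact_mod_cast hL
  have hw' : (1 : ℤ) ≤ w := by exact_mod_cast hw
  have hi' : (i : ℤ) + 1 ≤ L := by exact_mod_cast hi
  have hi0 : (0 : ℤ) ≤ i := by positivity
  have htpos : 0 < t := by rw [ht]; positivity
  have hiw : (i : ℤ) * w + w ≤ t := by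
    rw [ht]
    nlinarith
  have hr0 : 0 ≤ y % t := Int.emod_nonneg y htpos.ne'
  have hrt : y % t < t := Int.emod_lt_of_pos y htpos
  have hdm : t * (y / t) + y % t = y := by
    have := Int.mul_ediv_add_emod y t
    linarith
  set q := y / t with hq
  set r := y % t with hr
  have hLw : (L : ℤ) ≤ t := by rw [ht]; nlinarith
  refine ⟨?_, ?_, ?_⟩
  · have : 0 ≤ min t (max 0 ((L : ℤ) * (r - (i : ℤ) * w))) := le_min htpos.le (le_max_left _ _)
    linarith
  · have : min t (max 0 ((L : ℤ) * (r - (i : ℤ) * w))) ≤ t := min_le_left _ _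
    linarith
  have hnext : (r + 1 < t ∧ (y + 1) / t = q ∧ (y + 1) % t = r + 1) ∨
      (r + 1 = t ∧ (y + 1) / t = q + 1 ∧ (y + 1) % t = 0) := by
    rcases lt_or_eq_of_le (Int.add_one_le_iff.2 hrt) with h | h
    · left
      have h1 : y + 1 = (r + 1) + t * q := by linarith
      refine ⟨h, ?_, ?_⟩
      · rw [h1, Int.add_mul_ediv_left _ _ htpos.ne', Int.ediv_eq_zero_of_lt (by linarith) h,
          zero_add]
      · rw [h1, Int.add_mul_emod_self_left, Int.emod_eq_of_lt (by linarith) h]
    · right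
      have h1 : y + 1 = 0 + t * (q + 1) := by
        have : t * (q + 1) = t * q + t := by ring
        linarith
      refine ⟨h, ?_, ?_⟩
      · rw [h1, Int.add_mul_ediv_left _ _ htpos.ne', Int.zero_ediv, zero_add]
      · rw [h1, Int.add_mul_emod_self_left, Int.zero_emod]
  have hmono : (L : ℤ) * (r - (i : ℤ) * w) ≤ (L : ℤ) * (r + 1 - (i : ℤ) * w) ∧
      (L : ℤ) * (r + 1 - (i : ℤ) * w) = (L : ℤ) * (r - (i : ℤ) * w) + L := by
    constructor
    · nlinarith
    · ring
  obtain ⟨hm1, hm2⟩ := hmono
  refine ⟨?_, ?_, ?_⟩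
  · rcases hnext with ⟨-, h2, h3⟩ | ⟨h1, h2, h3⟩
    · rw [h2, h3]
      have : min t (max 0 ((L : ℤ) * (r - (i : ℤ) * w)))
          ≤ min t (max 0 ((L : ℤ) * (r + 1 - (i : ℤ) * w))) :=
        min_le_min le_rfl (max_le_max le_rfl hm1)
      linarith
    · rw [h2, h3]
      have h4 : min t (max 0 ((L : ℤ) * (r - (i : ℤ) * w))) ≤ t := min_le_left _ _
      have h5 : 0 ≤ min t (max 0 ((L : ℤ) * (0 - (i : ℤ) * w))) := le_min htpos.le (le_max_left _ _)
      have h6 : t * (q + 1) = t * q + t := by ring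
      linarith
  · rcases hnext with ⟨-, h2, h3⟩ | ⟨h1, h2, h3⟩
    · rw [h2, h3]
      have : min t (max 0 ((L : ℤ) * (r + 1 - (i : ℤ) * w)))
          ≤ min t (max 0 ((L : ℤ) * (r - (i : ℤ) * w))) + L := by
        rw [hm2]
        rcases le_total t (max 0 ((L : ℤ) * (r - (i : ℤ) * w))) with h4 | h4
        · rw [min_eq_left h4]
          exact (min_le_left _ _).trans (by linarith)
        · rw [min_eq_right h4]
          refine (min_le_right _ _).trans ?_
          refine max_le ?_ ?_
          · have := le_max_left 0 ((L : ℤ) * (r - (i : ℤ) * w))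
            linarith
          · have := le_max_right 0 ((L : ℤ) * (r - (i : ℤ) * w))
            linarith
      linarith
    · rw [h2, h3]
      have h4 : max 0 ((L : ℤ) * (0 - (i : ℤ) * w)) = 0 := by
        apply max_eq_left
        have : 0 ≤ (L : ℤ) * ((i : ℤ) * w) := by positivity
        linarith
      rw [h4, min_eq_right htpos.le]
      have h5 : t - L ≤ (L : ℤ) * (r - (i : ℤ) * w) := by
        have h6 : (w : ℤ) - 1 ≤ r - (i : ℤ) * w := by linarith
        have h7 : (L : ℤ) * ((w : ℤ) - 1) ≤ (L : ℤ) * (r - (i : ℤ) * w) :=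
          mul_le_mul_of_nonneg_left h6 (by linarith)
        have h8 : (L : ℤ) * ((w : ℤ) - 1) = t - L := by rw [ht]; ring
        linarith
      have h6 : t - L ≤ min t (max 0 ((L : ℤ) * (r - (i : ℤ) * w))) := by
        refine le_min (by linarith) (h5.trans (le_max_right _ _))
      have h7 : t * (q + 1) = t * q + t := by ring
      linarith
  · intro hnot
    rw [not_and_or, not_le, not_lt] at hnot
    rcases hnot with h | h
    · left
      have h4 : max 0 ((L : ℤ) * (r - (i : ℤ) * w)) = 0 := by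
        apply max_eq_left
        nlinarith
      rw [h4, min_eq_right htpos.le, add_zero]
    · right
      have h4 : t ≤ (L : ℤ) * (r - (i : ℤ) * w) := by
        have h5 : (w : ℤ) ≤ r - (i : ℤ) * w := by linarith
        rw [ht]
        exact mul_le_mul_of_nonneg_left h5 (by linarith)
      rw [min_eq_left (h4.trans (le_max_right _ _))]

end Pool.Agent.UTSP
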