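import Pool.Agent.Work.MP_27a5a0_lc.Stmts

/-!
W2: for every cube there is a good window.
-/

namespace Pool.Agent.UTSP

open Finset

private lemma w2_unique {L w : ℕ} (hw : 1 ≤ w) {i i' : ℕ} {x : ℤ} (h : inW L w i x)
    (h' : inW L w i' x) : i = i' := by
  unfold inW at h h'
  have hw' : (1 : ℤ) ≤ w := by exact_mod_cast hw
  have h1 : (i : ℤ) * w < ((i' : ℤ) + 1) * w := lt_of_le_of_lt h.1 h'.2
  have h2 : (i' : ℤ) * w < ((i : ℤ) + 1) * w := lt_of_le_of_lt h'.1 h.2
  have h3 : (i : ℤ) < (i' : ℤ) + 1 := lt_of_mul_lt_mul_right h1 (by linarith)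
  have h4 : (i' : ℤ) < (i : ℤ) + 1 := lt_of_mul_lt_mul_right h2 (by linarith)
  omega

open Classical in
private lemma w2_sum {d L w : ℕ} (hw : 1 ≤ w) (y : Fin d → ℤ) :
    ∑ i ∈ range L, ((univ : Finset (Fin d)).filter (fun j => inW L w i (y j))).card ≤ d := by
  have h1 : ∀ i, ((univ : Finset (Fin d)).filter (fun j => inW L w i (y j))).card
      = ∑ j : Fin d, if inW L w i (y j) then 1 else 0 := by
    intro i
    rw [Finset.card_filter]
  rw [Finset.sum_congr rfl (fun i _ => h1 i), Finset.sum_comm]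
  have h2 : ∀ j : Fin d, (∑ i ∈ range L, if inW L w i (y j) then 1 else 0) ≤ 1 := by
    intro j
    rw [← Finset.card_filter, Finset.card_le_one]
    intro a ha b hb
    rw [Finset.mem_filter] at ha hb
    exact w2_unique hw ha.2 hb.2
  calc _ ≤ ∑ j : Fin d, 1 := Finset.sum_le_sum fun j _ => h2 j
    _ = d := by simp

theorem prfWin : claimWin := by
  classical
  intro d L w y hL hw
  by_contra hne
  push Not at hne
  have h1 : ∀ i ∈ range L, 2 * d + 1 ≤ L * ((univ : Finset (Fin d)).filter
      (fun j => inW L w i (y j) ∨ inW L w i (y j + 1))).card := by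
    intro i hi
    exact Nat.succ_le_of_lt (hne i (Finset.mem_range.1 hi))
  have h2 := Finset.sum_le_sum h1
  rw [Finset.sum_const, Finset.card_range, smul_eq_mul, ← Finset.mul_sum] at h2
  have h3 := le_of_mul_le_mul_left h2 hL
  have h4 : ∑ i ∈ range L, ((univ : Finset (Fin d)).filter
      (fun j => inW L w i (y j) ∨ inW L w i (y j + 1))).card ≤ d + d := by
    refine le_trans ?_ (add_le_add (w2_sum (L := L) hw y) (w2_sum (L := L) hw (fun j => y j + 1)))
    rw [← Finset.sum_add_distrib]
    refine Finset.sum_le_sum fun i _ => ?_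
    rw [Finset.filter_or]
    exact Finset.card_union_le _ _
  omega

end Pool.Agent.UTSP
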