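import Pool.Agent.Work.MP_27a5a0_lc.Stmts

/-!
Z1: number of skeleton points of a cell.
-/

namespace Pool.Agent.UTSP

open Finset

theorem z1_card {d : ℕ} (t s : ℕ) (k : Pt d) (ht : 1 ≤ t) (T : Finset (Fin d)) (hT : T.card ≤ s) :
    (Fintype.piFinset (fun j => if j ∈ T then Finset.Ioo ((t : ℤ) * k j) ((t : ℤ) * k j + t)
      else {(t : ℤ) * k j, (t : ℤ) * k j + t})).card ≤ 2 ^ d * t ^ s := by
  rw [Fintype.card_piFinset]
  have h1 : ∀ j : Fin d, (if j ∈ T then Finset.Ioo ((t : ℤ) * k j) ((t : ℤ) * k j + t)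
      else {(t : ℤ) * k j, (t : ℤ) * k j + t} : Finset ℤ).card ≤ (if j ∈ T then t else 1) * 2 := by
    intro j
    by_cases hj : j ∈ T
    · rw [if_pos hj, if_pos hj, Int.card_Ioo]
      omega
    · rw [if_neg hj, if_neg hj, one_mul]
      exact Finset.card_le_two
  calc ∏ j : Fin d, (if j ∈ T then Finset.Ioo ((t : ℤ) * k j) ((t : ℤ) * k j + t)
      else {(t : ℤ) * k j, (t : ℤ) * k j + t} : Finset ℤ).card
      ≤ ∏ j : Fin d, (if j ∈ T then t else 1) * 2 := Finset.prod_le_prod' (fun j _ => h1 j)
    _ = (∏ j : Fin d, if j ∈ T then t else 1) * 2 ^ d := by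
        rw [Finset.prod_mul_distrib]
        simp
    _ = t ^ T.card * 2 ^ d := by
        rw [Finset.prod_ite_mem]
        simp
    _ ≤ t ^ s * 2 ^ d := Nat.mul_le_mul_right _ (Nat.pow_le_pow_right ht hT)
    _ = 2 ^ d * t ^ s := Nat.mul_comm _ _

theorem prfZcard : claimZcard := by
  classical
  intro d t s k ht
  have hsub : Zset t s k ⊆ ((Finset.univ : Finset (Finset (Fin d))).filter (fun T => T.card ≤ s)).biUnion
      (fun T => Fintype.piFinset (fun j => if j ∈ T then
        Finset.Ioo ((t : ℤ) * k j) ((t : ℤ) * k j + t) else {(t : ℤ) * k j, (t : ℤ) * k j + t})) := by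
    intro z hz
    unfold Zset at hz
    rw [Finset.mem_filter, Fintype.mem_piFinset] at hz
    obtain ⟨hz1, hz2⟩ := hz
    rw [Finset.mem_biUnion]
    refine ⟨(Finset.univ : Finset (Fin d)).filter
      (fun j => z j ≠ (t : ℤ) * k j ∧ z j ≠ (t : ℤ) * k j + t), ?_, ?_⟩
    · rw [Finset.mem_filter]
      refine ⟨Finset.mem_univ _, ?_⟩
      convert hz2
    · rw [Fintype.mem_piFinset]
      intro j
      have hj := hz1 j
      rw [Finset.mem_Icc] at hj
      split_ifs with h
      · rw [Finset.mem_filter] at h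
        rw [Finset.mem_Ioo]
        obtain ⟨-, h1, h2⟩ := h
        constructor
        · exact lt_of_le_of_ne hj.1 (Ne.symm h1)
        · exact lt_of_le_of_ne hj.2 h2
      · rw [Finset.mem_filter] at h
        rw [Finset.mem_insert, Finset.mem_singleton]
        by_contra hne
        push Not at hne
        exact h ⟨Finset.mem_univ _, hne.1, hne.2⟩
  refine (Finset.card_le_card hsub).trans ?_
  refine Finset.card_biUnion_le.trans ?_
  calc ∑ T ∈ (Finset.univ : Finset (Finset (Fin d))).filter (fun T => T.card ≤ s),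
      (Fintype.piFinset (fun j => if j ∈ T then
        Finset.Ioo ((t : ℤ) * k j) ((t : ℤ) * k j + t)
          else {(t : ℤ) * k j, (t : ℤ) * k j + t} : Fin d → Finset ℤ)).card
      ≤ ∑ T ∈ (Finset.univ : Finset (Finset (Fin d))).filter (fun T => T.card ≤ s),
        2 ^ d * t ^ s := by
        apply Finset.sum_le_sum
        intro T hT
        rw [Finset.mem_filter] at hT
        exact z1_card t s k ht T hT.2
    _ = ((Finset.univ : Finset (Finset (Fin d))).filter (fun T => T.card ≤ s)).card *
        (2 ^ d * t ^ s) := by rw [Finset.sum_const, smul_eq_mul]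
    _ ≤ 2 ^ d * (2 ^ d * t ^ s) := by
        apply Nat.mul_le_mul_right
        refine (Finset.card_filter_le _ _).trans ?_
        simp
    _ = 4 ^ d * t ^ s := by
        rw [← mul_assoc, ← mul_pow]
        norm_num

end Pool.Agent.UTSP
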