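import Pool.Agent.Work.MP_27a5a0_lc.Stmts

/-!
MP_27a5a0_lc, item A2: Lipschitz property of the averages.
-/

namespace Pool.Agent.UTSP

open Finset

namespace AvgLipAux

/-- one coordinate: few points of the interval leave it under a translation -/
theorem one_dim (G : ℕ) (t : ℤ) :
    ((Finset.Icc (-(G : ℤ)) G).filter (fun x => x + t ∉ Finset.Icc (-(G : ℤ)) G)).card
      ≤ t.natAbs := by
  rcases le_total 0 t with h | h
  · have hs : (Finset.Icc (-(G : ℤ)) G).filter (fun x => x + t ∉ Finset.Icc (-(G : ℤ)) G) ⊆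
        Finset.Ioc ((G : ℤ) - t) G := by
      intro x hx
      rw [mem_filter, mem_Icc, mem_Icc] at hx
      rw [mem_Ioc]
      omega
    refine (card_le_card hs).trans ?_
    rw [Int.card_Ioc]
    omega
  · have hs : (Finset.Icc (-(G : ℤ)) G).filter (fun x => x + t ∉ Finset.Icc (-(G : ℤ)) G) ⊆
        Finset.Ico (-(G : ℤ)) (-(G : ℤ) - t) := by
      intro x hx
      rw [mem_filter, mem_Icc, mem_Icc] at hx
      rw [mem_Ico]
      omega
    refine (card_le_card hs).trans ?_
    rw [Int.card_Ico]
    omega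

/-- the points of the ball whose coordinate `j` leaves the interval -/
theorem one_coord (d G : ℕ) (t : ℤ) (j : Fin d) :
    (2 * G + 1) * ((ball d G).filter (fun g => g j + t ∉ Finset.Icc (-(G : ℤ)) G)).card
      ≤ t.natAbs * (2 * G + 1) ^ d := by
  classical
  have hs : (ball d G).filter (fun g => g j + t ∉ Finset.Icc (-(G : ℤ)) G) ⊆
      Fintype.piFinset (fun i => if i = j then
        (Finset.Icc (-(G : ℤ)) G).filter (fun x => x + t ∉ Finset.Icc (-(G : ℤ)) G)
        else Finset.Icc (-(G : ℤ)) G) := by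
    intro g hg
    rw [mem_filter] at hg
    obtain ⟨hg1, hg2⟩ := hg
    unfold ball at hg1
    rw [Fintype.mem_piFinset] at hg1 ⊢
    intro i
    by_cases hi : i = j
    · subst hi
      rw [if_pos rfl, mem_filter]
      exact ⟨hg1 i, hg2⟩
    · rw [if_neg hi]
      exact hg1 i
  have hI : (Finset.Icc (-(G : ℤ)) G).card = 2 * G + 1 := by
    rw [Int.card_Icc]
    omega
  have hc := card_le_card hs
  rw [Fintype.card_piFinset, ← Finset.mul_prod_erase univ _ (mem_univ j), if_pos rfl] at hc
  have hp : ∏ i ∈ univ.erase j, (if i = j then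
        (Finset.Icc (-(G : ℤ)) G).filter (fun x => x + t ∉ Finset.Icc (-(G : ℤ)) G)
        else Finset.Icc (-(G : ℤ)) G).card = (2 * G + 1) ^ (d - 1) := by
    rw [Finset.prod_congr rfl (g := fun _ => 2 * G + 1)]
    · rw [Finset.prod_const, card_erase_of_mem (mem_univ j), card_univ, Fintype.card_fin]
    · intro i hi
      rw [if_neg (ne_of_mem_erase hi), hI]
  rw [hp] at hc
  have hd : d - 1 + 1 = d := Nat.sub_add_cancel (Nat.one_le_of_lt j.pos)
  have h1 := one_dim G t
  calc (2 * G + 1) * ((ball d G).filter (fun g => g j + t ∉ Finset.Icc (-(G : ℤ)) G)).card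
      ≤ (2 * G + 1) * (t.natAbs * (2 * G + 1) ^ (d - 1)) :=
        Nat.mul_le_mul_left _ (hc.trans (Nat.mul_le_mul_right _ h1))
    _ = t.natAbs * (2 * G + 1) ^ (d - 1 + 1) := by ring
    _ = _ := by rw [hd]

/-- the points of the ball which leave it under a translation -/
theorem bad_card (d G K : ℕ) (t : Pt d) (ht : (∑ j, |t j|) ≤ (K : ℤ)) :
    (2 * G + 1) * ((ball d G).filter (fun g => g + t ∉ ball d G)).card
      ≤ K * (2 * G + 1) ^ d := by
  classical
  have hs : (ball d G).filter (fun g => g + t ∉ ball d G) ⊆ univ.biUnion (fun j : Fin d =>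
      (ball d G).filter (fun g => g j + t j ∉ Finset.Icc (-(G : ℤ)) G)) := by
    intro g hg
    rw [mem_filter] at hg
    obtain ⟨hg1, hg2⟩ := hg
    have hg3 : ¬ ∀ j, g j + t j ∈ Finset.Icc (-(G : ℤ)) G := by
      intro h
      apply hg2
      unfold ball
      rw [Fintype.mem_piFinset]
      exact h
    push Not at hg3
    obtain ⟨j, hj⟩ := hg3
    rw [mem_biUnion]
    exact ⟨j, mem_univ _, mem_filter.mpr ⟨hg1, hj⟩⟩
  have h1 := (card_le_card hs).trans card_biUnion_le
  have h2 : (∑ j, (t j).natAbs) ≤ K := by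
    have : ((∑ j, (t j).natAbs : ℕ) : ℤ) = ∑ j, |t j| := by
      push_cast
      rfl
    exact_mod_cast this ▸ ht
  calc (2 * G + 1) * ((ball d G).filter (fun g => g + t ∉ ball d G)).card
      ≤ (2 * G + 1) * ∑ j : Fin d,
        ((ball d G).filter (fun g => g j + t j ∉ Finset.Icc (-(G : ℤ)) G)).card :=
        Nat.mul_le_mul_left _ h1
    _ = ∑ j : Fin d, (2 * G + 1) *
        ((ball d G).filter (fun g => g j + t j ∉ Finset.Icc (-(G : ℤ)) G)).card := by
        rw [Finset.mul_sum]
    _ ≤ ∑ j : Fin d, (t j).natAbs * (2 * G + 1) ^ d :=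
        Finset.sum_le_sum (fun j _ => one_coord d G (t j) j)
    _ = (∑ j, (t j).natAbs) * (2 * G + 1) ^ d := by rw [Finset.sum_mul]
    _ ≤ _ := Nat.mul_le_mul_right _ h2

end AvgLipAux

open AvgLipAux in
/-- A2. Lipschitz property of the averages. -/
theorem prfAvgLip : claimAvgLip := by
  classical
  intro d G K U l z z' hK hG
  have h1 : cnt G U l z ≤ cnt G U l z' +
      ((ball d G).filter (fun g => g + (z - z') ∉ ball d G)).card := by
    unfold cnt
    have hs : (ball d G).filter (fun g => l ∈ U (z + g)) ⊆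
        ((ball d G).filter (fun g => l ∈ U (z' + g))).image (fun g => g - (z - z')) ∪
        (ball d G).filter (fun g => g + (z - z') ∉ ball d G) := by
      intro g hg
      rw [mem_filter] at hg
      obtain ⟨hg1, hg2⟩ := hg
      rw [mem_union]
      by_cases hb : g + (z - z') ∈ ball d G
      · left
        rw [mem_image]
        refine ⟨g + (z - z'), ?_, by abel⟩
        rw [mem_filter]
        refine ⟨hb, ?_⟩
        have e : z' + (g + (z - z')) = z + g := by abel
        rw [e]
        exact hg2
      · right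
        rw [mem_filter]
        exact ⟨hg1, hb⟩
    have h := (card_le_card hs).trans ((card_union_le _ _).trans
      (Nat.add_le_add_right card_image_le _))
    convert h
  have h2 := bad_card d G K (z - z') (by simpa using hK)
  have h3 : 4 * ((ball d G).filter (fun g => g + (z - z') ∉ ball d G)).card
      ≤ (2 * G + 1) ^ d := by
    have h4 : (2 * G + 1) * (4 * ((ball d G).filter (fun g => g + (z - z') ∉ ball d G)).card)
        ≤ (2 * G + 1) * (2 * G + 1) ^ d := by
      calc (2 * G + 1) * (4 * ((ball d G).filter (fun g => g + (z - z') ∉ ball d G)).card)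
          = 4 * ((2 * G + 1) *
            ((ball d G).filter (fun g => g + (z - z') ∉ ball d G)).card) := by ring
        _ ≤ 4 * (K * (2 * G + 1) ^ d) := Nat.mul_le_mul_left _ h2
        _ = (4 * K) * (2 * G + 1) ^ d := by ring
        _ ≤ _ := Nat.mul_le_mul_right _ hG
    exact Nat.le_of_mul_le_mul_left h4 (by omega)
  omega

end Pool.Agent.UTSP
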