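import Mathlib

/-!
MP_27a5a0_lc, universal TSP: definitions.
-/

namespace Pool.Agent.UTSP

open Finset

/-! ### Tours (these definitions occur in the final statement) -/

/-- Length of the open walk visiting the points of the list in order. -/
def walk {X : Type*} (δ : X → X → ℝ) : List X → ℝ
  | [] => 0
  | [_] => 0
  | x :: y :: l => δ x y + walk δ (y :: l)

/-- Cost of the cyclic ordering given by a list: the sum of the distances between consecutive
points, including the distance from the last point back to the first. -/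
def cyc {X : Type*} (δ : X → X → ℝ) : List X → ℝ
  | [] => 0
  | x :: l => walk δ (x :: (l ++ [x]))

/-- The list `σ` is an ordering of the finite set `S`. -/
def IsOrd {X : Type*} [DecidableEq X] (S : Finset X) (σ : List X) : Prop :=
  σ.Nodup ∧ σ.toFinset = S

/-- Cost of an optimal cyclic ordering of `S`. -/
noncomputable def opt {X : Type*} [DecidableEq X] (δ : X → X → ℝ) (S : Finset X) : ℝ :=
  sInf {c : ℝ | ∃ σ : List X, IsOrd S σ ∧ cyc δ σ = c}

/-- Competitive ratio of the master tour `τ`; the restriction of `τ` to `S` is the list of the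
points of `S` in the order of `τ`. -/
noncomputable def ratio {X : Type*} [DecidableEq X] (δ : X → X → ℝ) (τ : List X) : ENNReal :=
  ⨆ S : {S : Finset X // 2 ≤ S.card},
    ENNReal.ofReal (cyc δ (τ.filter (fun x => decide (x ∈ S.1))) / opt δ S.1)

/-- `R n`: the supremum over all metrics on an `n`-point set of the best competitive ratio of a
master tour. -/
noncomputable def R (n : ℕ) : ENNReal :=
  ⨆ m : MetricSpace (Fin n), ⨅ τ : {τ : List (Fin n) // IsOrd Finset.univ τ},
    ratio (fun x y => m.dist x y) τ.1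

/-! ### Working versions -/

/-- Metric axioms. -/
structure IsMet {X : Type*} (δ : X → X → ℝ) : Prop where
  self : ∀ x, δ x x = 0
  pos : ∀ x y, x ≠ y → 0 < δ x y
  symm : ∀ x y, δ x y = δ y x
  tri : ∀ x y z, δ x z ≤ δ x y + δ y z

/-- The restriction of the master tour `τ` to any set `S` costs at most `κ` times any cyclic
ordering of `S`. -/
def HasRatio {X : Type*} [DecidableEq X] (δ : X → X → ℝ) (κ : ℝ) (τ : List X) : Prop :=
  ∀ S : Finset X, 2 ≤ S.card → ∀ σ : List X, IsOrd S σ →
    cyc δ (τ.filter (fun x => decide (x ∈ S))) ≤ κ * cyc δ σ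

/-- No master tour has ratio at most `κ`. -/
def NoTour {X : Type*} [DecidableEq X] [Fintype X] (δ : X → X → ℝ) (κ : ℝ) : Prop :=
  ∀ τ : List X, IsOrd (Finset.univ : Finset X) τ → ¬ HasRatio δ κ τ

/-! ### The grid -/

/-- Points of the integer grid. -/
abbrev Pt (d : ℕ) := Fin d → ℤ

/-- The box `{0..N}^d`. -/
def Box {d : ℕ} (N : ℕ) (v : Pt d) : Prop := ∀ j, 0 ≤ v j ∧ v j ≤ (N : ℤ)

/-- Snowflake distance. -/
noncomputable def sn {d : ℕ} (α : ℝ) (v w : Pt d) : ℝ := dist v w ^ α

/-- Data extracted from a tour: a set `S`, for `v ∉ S` the neighbours `a v`, `b v` of `v` in `S`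
along the tour. The label of `v` is `a v`. -/
structure Lab (d N : ℕ) (α κ D Ds A : ℝ) where
  S : Finset (Pt d)
  a : Pt d → Pt d
  b : Pt d → Pt d
  net : ∀ v : Pt d, Box N v → ∃ s ∈ S, dist v s ≤ D
  mem : ∀ v : Pt d, Box N v → v ∉ S → a v ∈ S ∧ b v ∈ S
  det : ∀ v w : Pt d, Box N v → Box N w → v ∉ S → w ∉ S → a v = a w → b v = b w
  marg : ∀ γ : List (Pt d), γ ≠ [] → (∀ v ∈ γ, Box N v ∧ v ∉ S) → (γ.map a).Nodup →
    (γ.map (fun v => (min (dist v (a v)) (dist v (b v))) ^ α)).sum ≤ κ * (walk (sn α) γ + D ^ α)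
  sep : ∀ P ⊆ S, (∀ x ∈ P, ∀ y ∈ P, x ≠ y → Ds < dist x y) → (P.card : ℝ) * Ds ^ α ≤ A

variable {d N : ℕ} {α κ D Ds A : ℝ}

/-- Distance to the closer neighbour. -/
noncomputable def Lab.u (Q : Lab d N α κ D Ds A) (v : Pt d) : ℝ :=
  min (dist v (Q.a v)) (dist v (Q.b v))

open Classical in
/-- The closer neighbour. -/
noncomputable def Lab.e (Q : Lab d N α κ D Ds A) (v : Pt d) : Pt d :=
  if dist v (Q.a v) ≤ dist v (Q.b v) then Q.a v else Q.b v

/-- Points of the box at distance more than `Ds` from `S`. -/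
def Lab.far (Q : Lab d N α κ D Ds A) (v : Pt d) : Prop :=
  Box N v ∧ ∀ s ∈ Q.S, Ds < dist v s

/-- Vertices of the unit cube with smallest vertex `y`. -/
def cube {d : ℕ} (y : Pt d) : Finset (Pt d) := Fintype.piFinset (fun j => {y j, y j + 1})

/-- The cube `cube y` is contained in the box. -/
def InBox {d : ℕ} (N : ℕ) (y : Pt d) : Prop := ∀ j, 0 ≤ y j ∧ y j < (N : ℤ)

open Classical in
/-- Labels of the far vertices of a cube. -/
noncomputable def Lab.sig (Q : Lab d N α κ D Ds A) (y : Pt d) : Finset (Pt d) :=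
  ((cube y).filter (fun v => Q.far v)).image Q.a

/-! ### Averaging -/

/-- The cube `{-G..G}^d`. -/
noncomputable def ball (d G : ℕ) : Finset (Pt d) := Fintype.piFinset (fun _ => Finset.Icc (-(G : ℤ)) G)

open Classical in
/-- Number of `g` in the cube with `l ∈ U (z + g)`. -/
noncomputable def cnt {d : ℕ} (G : ℕ) (U : Pt d → Finset (Pt d)) (l z : Pt d) : ℕ :=
  ((ball d G).filter (fun g => l ∈ U (z + g))).card

open Classical in
/-- Labels lying in `U (z + g)` for at least a quarter of the `g`. -/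
noncomputable def pool {d : ℕ} (G : ℕ) (U : Pt d → Finset (Pt d)) (z : Pt d) : Finset (Pt d) :=
  ((ball d G).biUnion (fun g => U (z + g))).filter (fun l => (2 * G + 1) ^ d ≤ 4 * cnt G U l z)

/-! ### Windows -/

/-- `y` lies in window `i` of its period of length `L * w`. -/
def inW (L w i : ℕ) (y : ℤ) : Prop :=
  (i : ℤ) * w ≤ y % ((L : ℤ) * w) ∧ y % ((L : ℤ) * w) < ((i : ℤ) + 1) * w

/-- The ramp function of window `i`. -/
noncomputable def psi (L w i : ℕ) (y : ℤ) : ℤ :=
  (L : ℤ) * w * (y / ((L : ℤ) * w)) +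
    min ((L : ℤ) * w) (max 0 ((L : ℤ) * (y % ((L : ℤ) * w) - (i : ℤ) * w)))

/-- The ramp function of window `i` in every coordinate. -/
noncomputable def zz {d : ℕ} (L w i : ℕ) (v : Pt d) : Pt d := fun j => psi L w i (v j)

open Classical in
/-- Windows `i` such that few coordinates of `v` lie in window `i`. -/
noncomputable def Iset {d : ℕ} (L w : ℕ) (v : Pt d) : Finset ℕ :=
  (Finset.range L).filter
    (fun i => L * ((Finset.univ : Finset (Fin d)).filter (fun j => inW L w i (v j))).card ≤ 2 * d)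

/-- The kept points. -/
def Lab.kept (Q : Lab d N α κ D Ds A) (ρ : ℝ) (G : ℕ) (U : Pt d → Finset (Pt d)) (L w : ℕ)
    (v : Pt d) : Prop :=
  Q.far v ∧ Q.u v < ρ ∧ ∀ i ∈ Iset L w v, (2 * G + 1) ^ d ≤ 2 * cnt G U (Q.a v) (zz L w i v)

/-- Index of the cell of side `t` containing `y`. -/
def cell {d : ℕ} (t : ℕ) (y : Pt d) : Pt d := fun j => y j / (t : ℤ)

open Classical in
/-- Points of the closed cell of index `k` all but `s` of whose coordinates are end points. -/
noncomputable def Zset {d : ℕ} (t s : ℕ) (k : Pt d) : Finset (Pt d) :=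
  (Fintype.piFinset (fun j => Finset.Icc ((t : ℤ) * k j) ((t : ℤ) * k j + t))).filter
    (fun z => ((Finset.univ : Finset (Fin d)).filter
      (fun j => z j ≠ (t : ℤ) * k j ∧ z j ≠ (t : ℤ) * k j + t)).card ≤ s)

end Pool.Agent.UTSP
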