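import Pool.Agent.Work.MP_27a5a0_lc.Stmts

/-!
MP_27a5a0_lc, universal TSP: assembly of the final statement from the items.
-/

namespace Pool.Agent.UTSP

open Finset

theorem emb_inj {d N : ℕ} : Function.Injective (emb (d := d) (N := N)) := by
  intro v w h
  funext j
  have h1 := congrFun h j
  simp only [emb] at h1
  exact Fin.ext (by exact_mod_cast h1)

theorem isMet_dl (h1 : claimSnow) (d N : ℕ) (α : ℝ) (h0 : 0 < α) (h2 : α < 1) :
    IsMet (dl d N α) := by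
  have h := (h1 α h0 h2).2 d
  exact ⟨fun x => h.self _, fun x y hxy => h.pos _ _ (fun hc => hxy (emb_inj hc)),
    fun x y => h.symm _ _, fun x y z => h.tri _ _ _⟩

/-- For large `J` there is no tour with ratio at most `J ^ (kp + pp)`. -/
theorem noTour (hLab : claimLab) (hNear : claimNear) (hPhi : claimPhi)
    (hCount : claimCount) (hN1 : claimNumPhi) (hN2 : claimNumCount)
    (m a : ℕ) (hm : 2 ≤ m) (ha : 4 ≤ (m - 1) * a) :
    ∀ᶠ J : ℕ in Filter.atTop,
      NoTour (dl (J ^ pp m a) (J ^ eN m a) (((m : ℝ) - 1) / m)) ((J : ℝ) ^ (kp m a + pp m a)) := by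
  filter_upwards [hN1 m a hm ha, hN2 m a hm ha, Filter.eventually_ge_atTop 2] with J h1 h2 hJge
  intro τ hτ hr
  have hm0 : (0 : ℝ) < m := by exact_mod_cast (by omega : 0 < m)
  have hm2 : (2 : ℝ) ≤ m := by exact_mod_cast hm
  have hα0 : (0 : ℝ) < ((m : ℝ) - 1) / m := by apply div_pos <;> linarith
  have hα1 : ((m : ℝ) - 1) / m < 1 := by rw [div_lt_one hm0]; linarith
  have hJ0 : 0 < J := by omega
  have hJr : (0 : ℝ) < J := by exact_mod_cast hJ0
  have hJ1 : (1 : ℝ) ≤ J := by exact_mod_cast (by omega : 1 ≤ J)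
  have hpos : ∀ e : ℕ, 1 ≤ J ^ e := fun e => Nat.one_le_pow _ _ hJ0
  have hposr : ∀ e : ℕ, (0 : ℝ) < (J : ℝ) ^ e := fun e => pow_pos hJr e
  obtain ⟨c1, c2, c3, c4, c5, c6, c7, c8⟩ := h1
  obtain ⟨g1, g2, g3, g4, g5, g6⟩ := h2
  have het : 1 ≤ et m a := by
    have : 1 * 1 ≤ m * (pp m a + 2) := Nat.mul_le_mul (by omega) (by omega)
    simpa [et] using this
  have hple : er m a ≤ eu m a := by
    unfold er eu
    have h3 : a ≤ kp m a + pp m a + 1 := by
      have : a ≤ pp m a := by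
        unfold pp
        have h4 : 1 * a ≤ (4 * m) * a := Nat.mul_le_mul_right a (by omega)
        omega
      omega
    have := Nat.mul_le_mul_left m h3
    omega
  have hesN : es m a ≤ eN m a := by unfold eN eu eD; omega
  have heDN : eD m a ≤ eN m a := by unfold eN eu; omega
  have hetN : et m a ≤ eN m a := by
    have : et m a ≤ es m a := by unfold es; omega
    omega
  have ht : J * J ^ (et m a - 1) = J ^ et m a := by
    rw [← pow_succ']; congr 1; omega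
  -- the labels
  have hL := hLab (J ^ pp m a) (J ^ eN m a) (J ^ eD m a) (((m : ℝ) - 1) / m)
    ((J : ℝ) ^ (kp m a + pp m a)) ((J : ℝ) ^ es m a) (hpos _) (hpos _)
    (Nat.pow_dvd_pow _ heDN) (hpos _) hα0 hα1 (hposr _) (hposr _)
    (by push_cast; exact pow_le_pow_right₀ hJ1 hesN) ⟨τ, hτ, hr⟩
  rw [c1] at hL
  obtain ⟨Q⟩ := hL
  obtain ⟨P, hP1, hP2⟩ := hNear _ _ _ _ _ _ _ Q (hposr _)
  have hcD : ((J ^ eD m a : ℕ) : ℝ) = (J : ℝ) ^ eD m a := by push_cast; rfl
  have hcb : ((J ^ (pp m a - 2) : ℕ) : ℝ) = (J : ℝ) ^ (pp m a - 2) := by push_cast; rfl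
  have hNm := hPhi (J ^ pp m a) (J ^ eN m a) _ _ _ _ _ Q (J ^ (kp m a + pp m a + m))
    (J ^ (pp m a - 2)) J (J ^ (et m a - 1)) (J ^ et m a) (J ^ (eu m a + 1)) (J ^ eu m a)
    (3 * (J : ℝ) ^ et m a) ((J : ℝ) ^ er m a) (hpos _) (by omega) (hpos _) (hpos _) hα0
    (by have := hposr (kp m a + pp m a); positivity) (Nat.cast_nonneg _) (hposr _) (hposr _)
    (by have := hposr (et m a); positivity)
    (by push_cast; exact pow_le_pow_right₀ hJ1 hple)
    (by rw [hcD]; exact c2) c3 (by rw [hcD]; exact c4) (by rw [hcD]; exact c5) c6 c7 c8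
  have hfin := hCount (J ^ pp m a) (J ^ eN m a) (J * J ^ (et m a - 1)) (2 * J ^ pp m a / J)
    (8 * J ^ (kp m a + pp m a + m)) (2 * ((4 * J + 1) * J ^ (pp m a - 2)))
    (J ^ (2 * pp m a + eu m a + 1)) (J ^ (pp m a - 1)) (hJ m a J)
    ((J : ℝ) ^ er m a) ((hJ m a J + J * J ^ (et m a - 1) : ℕ) : ℝ)
    (5 * (J : ℝ) ^ (et m a - 1)) ((J : ℝ) ^ es m a) Q.far P (hpos _)
    (by rw [ht]; exact hpos _) (by rw [ht]; exact Nat.pow_dvd_pow _ hetN) (hpos _) g1 (hpos _)
    (hpos _) (hposr _).le (Nat.cast_nonneg _) (hposr _) g2 g3 g4 g5 hP2 hNm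
  have h6 := g6 P.card (Nat.cast_nonneg _) (by
    refine hP1.trans (le_of_eq ?_)
    push_cast
    rfl)
  linarith

theorem le_n (m a J : ℕ) (hJ : 1 ≤ J) : J ≤ (J ^ eN m a + 1) ^ (J ^ pp m a) := by
  have h1 : 1 ≤ J ^ pp m a := Nat.one_le_pow _ _ hJ
  have h2 : 1 ≤ eN m a := by unfold eN; omega
  have h3 : J ≤ J ^ eN m a := by
    calc J = J ^ 1 := (pow_one J).symm
      _ ≤ J ^ eN m a := Nat.pow_le_pow_right hJ h2
  calc J ≤ J ^ eN m a + 1 := by omega
    _ = (J ^ eN m a + 1) ^ 1 := (pow_one _).symm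
    _ ≤ (J ^ eN m a + 1) ^ (J ^ pp m a) := Nat.pow_le_pow_right (by omega) h1

/-- Assembly. -/
theorem final (hSnow : claimSnow) (hLab : claimLab) (hNear : claimNear) (hPhi : claimPhi)
    (hCount : claimCount) (hN1 : claimNumPhi) (hN2 : claimNumCount) (hN3 : claimNumLog)
    (hExt : claimExt) : claimFinal := by
  intro c hc hc4
  obtain ⟨m, a, hm, ha, hlog⟩ := hN3 c hc hc4
  have hno := noTour hLab hNear hPhi hCount hN1 hN2 m a hm ha
  obtain ⟨J₀, hJ₀⟩ := Filter.eventually_atTop.1 (hno.and hlog)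
  have hm0 : (0 : ℝ) < m := by exact_mod_cast (by omega : 0 < m)
  have hm2 : (2 : ℝ) ≤ m := by exact_mod_cast hm
  have hα0 : (0 : ℝ) < ((m : ℝ) - 1) / m := by apply div_pos <;> linarith
  have hα1 : ((m : ℝ) - 1) / m < 1 := by rw [div_lt_one hm0]; linarith
  set J₁ := max J₀ 1 with hJ₁
  set f : ℕ → ℕ := fun J => (J ^ eN m a + 1) ^ (J ^ pp m a) with hf
  filter_upwards [Filter.eventually_ge_atTop (f J₁ + 1)] with n hn
  -- the largest J with f J ≤ n
  have hP : f J₁ ≤ n := by omega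
  have hJ₁n : J₁ ≤ n := (le_n m a J₁ (le_max_right _ _)).trans hP
  set J := Nat.findGreatest (fun J => f J ≤ n) n with hJ
  have hspec : f J ≤ n := Nat.findGreatest_spec (P := fun J => f J ≤ n) hJ₁n hP
  have hJ₁J : J₁ ≤ J := Nat.le_findGreatest hJ₁n hP
  have hJ0 : J₀ ≤ J := (le_max_left _ _).trans hJ₁J
  have hJ1 : 1 ≤ J := (le_max_right _ _).trans hJ₁J
  have hlt : n < f (J + 1) := by
    by_contra hcon
    push Not at hcon
    have h1 : J + 1 ≤ n := (le_n m a (J + 1) (by omega)).trans hcon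
    exact absurd hcon (Nat.findGreatest_is_greatest (P := fun J => f J ≤ n) (Nat.lt_succ_self J) h1)
  obtain ⟨h1, h2⟩ := hJ₀ J hJ0
  have h3 := hExt (Fin (J ^ pp m a) → Fin (J ^ eN m a + 1)) _
    (isMet_dl hSnow (J ^ pp m a) (J ^ eN m a) _ hα0 hα1) ((J : ℝ) ^ (kp m a + pp m a))
    (by positivity) h1 n (by simpa using hspec)
  refine le_trans (ENNReal.ofReal_le_ofReal ?_) h3
  refine le_trans ?_ h2
  have hn1 : (1 : ℝ) ≤ n := by exact_mod_cast (by omega : 1 ≤ n)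
  refine Real.rpow_le_rpow (Real.log_nonneg hn1) (Real.log_le_log (by linarith) ?_) (by linarith)
  exact_mod_cast hlt.le

/-- The lower bound implies that `R n` is not `O(log n)`. -/
theorem not_bigO (h : claimFinal) :
    ¬ ∃ C : ℝ, ∀ᶠ n : ℕ in Filter.atTop, R n ≤ ENNReal.ofReal (C * Real.log n) := by
  rintro ⟨C, hC⟩
  have h1 := h (1 / 8) (by norm_num) (by norm_num)
  have hlog : Filter.Tendsto (fun n : ℕ => Real.log (n : ℝ)) Filter.atTop Filter.atTop :=
    Real.tendsto_log_atTop.comp tendsto_natCast_atTop_atTop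
  have h2 : Filter.Tendsto (fun n : ℕ => (Real.log (n : ℝ)) ^ (1 / 8 : ℝ)) Filter.atTop
      Filter.atTop := (tendsto_rpow_atTop (by norm_num : (0 : ℝ) < 1 / 8)).comp hlog
  obtain ⟨n, h3, h4, h5, h6⟩ := (hC.and (h1.and ((h2.eventually_gt_atTop C).and
    (hlog.eventually_gt_atTop 0)))).exists
  have h7 := h4.trans h3
  have h8 : (0 : ℝ) < Real.log n ^ (1 + 1 / 8 : ℝ) := Real.rpow_pos_of_pos h6 _
  have h9 : Real.log n ^ (1 + 1 / 8 : ℝ) ≤ C * Real.log n := by
    rcases le_or_gt 0 (C * Real.log n) with h10 | h10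
    · exact (ENNReal.ofReal_le_ofReal_iff h10).1 h7
    · rw [ENNReal.ofReal_of_nonpos h10.le] at h7
      have h11 : 0 < ENNReal.ofReal (Real.log n ^ (1 + 1 / 8 : ℝ)) := ENNReal.ofReal_pos.2 h8
      exact absurd h7 (not_le.2 h11)
  rw [Real.rpow_add h6, Real.rpow_one] at h9
  have h12 : Real.log n * C < Real.log n * Real.log n ^ (1 / 8 : ℝ) :=
    mul_lt_mul_of_pos_left h5 h6
  linarith

end Pool.Agent.UTSP
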