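import Pool.Agent.Work.MP_27a5a0_lc.Stmts

/-!
MP_27a5a0_lc, item Q2: the counting inequality.
-/

namespace Pool.Agent.UTSP

open Finset

/-- A point `y` is represented by a cube in the cell of index `k`. -/
private def q2Rep {d : ℕ} (N t B : ℕ) (ρ : ℝ) (far : Pt d → Prop) (Φ : Pt d → Pt d)
    (Kz Ck : Finset (Pt d)) (k y : Pt d) : Prop :=
  ∃ x : Pt d, InBox N x ∧ cell t x = k ∧ ∃ Cs ⊆ Ck, Cs.card ≤ B ∧
    (∀ v ∈ cube x, (¬ far v ∧ Φ v = v) ∨ (Φ v ∈ Kz ∧ dist (Φ v) v ≤ ρ) ∨ Φ v ∈ Cs) ∧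
    ∃ μ : Pt d → ℝ, (∀ v, 0 ≤ μ v) ∧ (∑ v ∈ cube x, μ v) = 1 ∧
      ∀ j, (y j : ℝ) = ∑ v ∈ cube x, μ v * (Φ v j : ℝ)

private lemma q2_cube {d t : ℕ} (ht : 1 ≤ t) {x v k : Pt d} (hc : cell t x = k)
    (hv : v ∈ cube x) (j : Fin d) :
    (t : ℤ) * k j ≤ v j ∧ v j ≤ (t : ℤ) * k j + t := by
  have h1 : v j = x j ∨ v j = x j + 1 := by
    have := Fintype.mem_piFinset.1 hv j
    simpa using this
  have h2 : k j = x j / (t : ℤ) := by rw [← hc]; rfl
  have ht' : (0 : ℤ) < t := by exact_mod_cast ht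
  have h3 := Int.mul_ediv_self_le (x := x j) (k := (t : ℤ)) ht'.ne'
  have h4 := Int.lt_mul_ediv_self_add (x := x j) (k := (t : ℤ)) ht'
  rw [h2]
  rcases h1 with h1 | h1 <;> constructor <;> linarith [h1, h3, h4]

private lemma q2_decomp {d : ℕ} {N t B : ℕ} {ρ s' : ℝ} {far : Pt d → Prop} {Φ : Pt d → Pt d}
    {Kz Ck : Finset (Pt d)} {k y : Pt d} (ht : 1 ≤ t) (hs' : 0 ≤ s')
    (h : q2Rep N t B ρ far Φ Kz Ck k y)
    (hgood : (t : ℝ) ≤ s' ∨ ∀ x v, InBox N x → cell t x = k → v ∈ cube x → far v) :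
    ∃ (μ ν : Pt d → ℝ) (Cs : Finset (Pt d)) (x : Fin d → ℝ),
      Cs ⊆ Ck ∧ Cs.card ≤ B ∧ (∀ p, 0 ≤ μ p) ∧ (∀ p, 0 ≤ ν p) ∧
      (∑ p ∈ Kz.filter (fun p => dist p (fun j => (t : ℤ) * k j) ≤ ρ + t), μ p) ≤ 1 ∧
      (∑ p ∈ Cs, ν p) ≤ 1 ∧ (∀ j, 0 ≤ x j ∧ x j ≤ s') ∧
      ∀ j, ((y j : ℝ) - (((t : ℤ) * k j : ℤ) : ℝ)) =
        (∑ p ∈ Kz.filter (fun p => dist p (fun j => (t : ℤ) * k j) ≤ ρ + t),
          μ p * ((p j : ℝ) - (((t : ℤ) * k j : ℤ) : ℝ))) +
        (∑ p ∈ Cs, ν p * ((p j : ℝ) - (((t : ℤ) * k j : ℤ) : ℝ))) + x j := by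
  classical
  obtain ⟨x, hx, hcell, Cs, hCs, hCB, hv, μ, hμ0, hμ1, hy⟩ := h
  set cN : Finset (Pt d) := (cube x).filter (fun v => ¬ far v ∧ Φ v = v) with hcN
  set cR : Finset (Pt d) := (cube x).filter (fun v => ¬ (¬ far v ∧ Φ v = v)) with hcR
  set cP : Finset (Pt d) := cR.filter (fun v => Φ v ∈ Kz ∧ dist (Φ v) v ≤ ρ) with hcP
  set cC : Finset (Pt d) := cR.filter (fun v => ¬ (Φ v ∈ Kz ∧ dist (Φ v) v ≤ ρ)) with hcC
  have hsplit : ∀ f : Pt d → ℝ, ∑ v ∈ cube x, f v = ∑ v ∈ cP, f v + ∑ v ∈ cC, f v +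
      ∑ v ∈ cN, f v := by
    intro f
    rw [← Finset.sum_filter_add_sum_filter_not (cube x) (fun v => ¬ far v ∧ Φ v = v) f,
      ← Finset.sum_filter_add_sum_filter_not cR (fun v => Φ v ∈ Kz ∧ dist (Φ v) v ≤ ρ) f]
    ring
  have hsub : ∀ c : Finset (Pt d), c ⊆ cube x → ∑ v ∈ c, μ v ≤ 1 := by
    intro c hc
    rw [← hμ1]
    exact Finset.sum_le_sum_of_subset_of_nonneg hc (fun v _ _ => hμ0 v)
  have hcPsub : cP ⊆ cube x := (Finset.filter_subset _ _).trans (Finset.filter_subset _ _)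
  have hcCsub : cC ⊆ cube x := (Finset.filter_subset _ _).trans (Finset.filter_subset _ _)
  have hcNsub : cN ⊆ cube x := Finset.filter_subset _ _
  -- maps
  have hmapP : ∀ v ∈ cP, Φ v ∈ Kz.filter (fun p => dist p (fun j => (t : ℤ) * k j) ≤ ρ + t) := by
    intro v hvP
    have h1 := (Finset.mem_filter.1 hvP).2
    refine Finset.mem_filter.2 ⟨h1.1, ?_⟩
    have h2 : dist v (fun j => (t : ℤ) * k j) ≤ t := by
      refine (dist_pi_le_iff (by positivity)).2 fun j => ?_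
      have h3 := q2_cube ht hcell (hcPsub hvP) j
      rw [Int.dist_eq, abs_le]
      constructor
      · have : ((t : ℤ) : ℝ) * (k j : ℝ) ≤ (v j : ℝ) := by exact_mod_cast h3.1
        have h0 : (0 : ℝ) ≤ t := by positivity
        push_cast at this ⊢
        linarith
      · have : (v j : ℝ) ≤ ((t : ℤ) : ℝ) * (k j : ℝ) + ((t : ℤ) : ℝ) := by exact_mod_cast h3.2
        push_cast at this ⊢
        linarith
    linarith [dist_triangle (Φ v) v (fun j => (t : ℤ) * k j), h1.2, h2]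
  have hmapC : ∀ v ∈ cC, Φ v ∈ Cs := by
    intro v hvC
    have h1 := Finset.mem_filter.1 hvC
    have h2 := Finset.mem_filter.1 h1.1
    rcases hv v h2.1 with h3 | h3 | h3
    · exact absurd h3 h2.2
    · exact absurd h3 h1.2
    · exact h3
  refine ⟨fun p => ∑ v ∈ cP.filter (fun v => Φ v = p), μ v,
    fun p => ∑ v ∈ cC.filter (fun v => Φ v = p), μ v, Cs,
    fun j => ∑ v ∈ cN, μ v * ((v j : ℝ) - (((t : ℤ) * k j : ℤ) : ℝ)), hCs, hCB, ?_, ?_, ?_, ?_,
    ?_, ?_⟩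
  · intro p; exact Finset.sum_nonneg fun v _ => hμ0 v
  · intro p; exact Finset.sum_nonneg fun v _ => hμ0 v
  · rw [Finset.sum_fiberwise_of_maps_to hmapP]
    exact hsub _ hcPsub
  · rw [Finset.sum_fiberwise_of_maps_to hmapC]
    exact hsub _ hcCsub
  · intro j
    have hb : ∀ v ∈ cN, 0 ≤ (v j : ℝ) - (((t : ℤ) * k j : ℤ) : ℝ) ∧
        (v j : ℝ) - (((t : ℤ) * k j : ℤ) : ℝ) ≤ t := by
      intro v hvN
      have h3 := q2_cube ht hcell (hcNsub hvN) j
      constructor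
      · have : (((t : ℤ) * k j : ℤ) : ℝ) ≤ (v j : ℝ) := by exact_mod_cast h3.1
        linarith
      · have : (v j : ℝ) ≤ (((t : ℤ) * k j + t : ℤ) : ℝ) := by exact_mod_cast h3.2
        push_cast at this ⊢
        linarith
    refine ⟨Finset.sum_nonneg fun v hvN => mul_nonneg (hμ0 v) (hb v hvN).1, ?_⟩
    rcases hgood with hg | hg
    · calc ∑ v ∈ cN, μ v * ((v j : ℝ) - (((t : ℤ) * k j : ℤ) : ℝ)) ≤ ∑ v ∈ cN, μ v * t :=
            Finset.sum_le_sum fun v hvN => mul_le_mul_of_nonneg_left (hb v hvN).2 (hμ0 v)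
        _ = (∑ v ∈ cN, μ v) * t := by rw [Finset.sum_mul]
        _ ≤ 1 * t := mul_le_mul_of_nonneg_right (hsub _ hcNsub) (by positivity)
        _ ≤ s' := by linarith
    · have hcN0 : cN = ∅ := by
        refine Finset.filter_eq_empty_iff.2 fun v hvc hh => ?_
        exact hh.1 (hg x v hx hcell hvc)
      simp only [hcN0, Finset.sum_empty]
      exact hs'
  · intro j
    have e1 : ∑ p ∈ Kz.filter (fun p => dist p (fun j => (t : ℤ) * k j) ≤ ρ + t),
        (∑ v ∈ cP.filter (fun v => Φ v = p), μ v) * ((p j : ℝ) - (((t : ℤ) * k j : ℤ) : ℝ)) =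
        ∑ v ∈ cP, μ v * ((Φ v j : ℝ) - (((t : ℤ) * k j : ℤ) : ℝ)) := by
      rw [← Finset.sum_fiberwise_of_maps_to hmapP]
      refine Finset.sum_congr rfl fun p _ => ?_
      rw [Finset.sum_mul]
      refine Finset.sum_congr rfl fun v hvp => ?_
      rw [(Finset.mem_filter.1 hvp).2]
    have e2 : ∑ p ∈ Cs,
        (∑ v ∈ cC.filter (fun v => Φ v = p), μ v) * ((p j : ℝ) - (((t : ℤ) * k j : ℤ) : ℝ)) =
        ∑ v ∈ cC, μ v * ((Φ v j : ℝ) - (((t : ℤ) * k j : ℤ) : ℝ)) := by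
      rw [← Finset.sum_fiberwise_of_maps_to hmapC]
      refine Finset.sum_congr rfl fun p _ => ?_
      rw [Finset.sum_mul]
      refine Finset.sum_congr rfl fun v hvp => ?_
      rw [(Finset.mem_filter.1 hvp).2]
    have e3 : ∑ v ∈ cN, μ v * ((v j : ℝ) - (((t : ℤ) * k j : ℤ) : ℝ)) =
        ∑ v ∈ cN, μ v * ((Φ v j : ℝ) - (((t : ℤ) * k j : ℤ) : ℝ)) := by
      refine Finset.sum_congr rfl fun v hvN => ?_
      rw [(Finset.mem_filter.1 hvN).2.2]
    have e4 : (y j : ℝ) - (((t : ℤ) * k j : ℤ) : ℝ) =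
        ∑ v ∈ cube x, μ v * ((Φ v j : ℝ) - (((t : ℤ) * k j : ℤ) : ℝ)) := by
      simp_rw [mul_sub, Finset.sum_sub_distrib, ← Finset.sum_mul, hμ1, one_mul]
      rw [hy j]
    simp only
    rw [e1, e2, e3, e4, hsplit]

theorem prfCount (h1 : claimTopo) (h2 : claimCell) (h3 : claimBad) (h4 : claimZcard) :
    claimCount := by
  classical
  intro d N t s₀ m B q k h ρ ρc s Ds far P hd ht htN hN h2h hk hq hρ hρc hDs htDs hBq hs hst
    hcov hNm
  obtain ⟨Q⟩ := hNm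
  have ht0 : (0 : ℝ) < t := by exact_mod_cast ht
  have hs0 : 0 ≤ s := by
    have : 0 ≤ 2 * (ρ + t) / Real.sqrt k := by positivity
    linarith
  set W : ℝ := (m + 1 : ℝ) ^ k * 2 ^ (d + 1) * (q + 1 : ℝ) ^ B with hW
  have hW0 : 0 ≤ W := by positivity
  -- the points
  set V : Finset (Pt d) := Fintype.piFinset (fun _ => Finset.Icc (h : ℤ) ((N : ℤ) - h)) with hV
  have hVcard : ((N : ℝ) - 2 * h) ^ d ≤ (V.card : ℝ) := by
    rw [hV, Fintype.card_piFinset, Finset.prod_const, Finset.card_univ, Fintype.card_fin,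
      Int.card_Icc, Nat.cast_pow]
    have h2h' : (2 : ℝ) * h ≤ N := by exact_mod_cast h2h
    refine pow_le_pow_left₀ (by linarith) ?_ d
    have h5 : (((N : ℤ) - h + 1 - h).toNat : ℤ) = (N : ℤ) - h + 1 - h :=
      Int.toNat_of_nonneg (by omega)
    have h6 : ((((N : ℤ) - h + 1 - h).toNat : ℕ) : ℝ) = (N : ℝ) - h + 1 - h := by
      have := congrArg (fun z : ℤ => (z : ℝ)) h5
      push_cast at this
      simpa using this
    rw [h6]
    linarith
  -- the cells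
  set I : Finset (Pt d) := Fintype.piFinset (fun _ => Finset.Ico (0 : ℤ) ((N / t : ℕ) : ℤ))
    with hI
  have hIcard : (I.card : ℝ) = ((N : ℝ) / t) ^ d := by
    rw [hI, Fintype.card_piFinset, Finset.prod_const, Finset.card_univ, Fintype.card_fin,
      Int.card_Ico, Nat.cast_pow]
    congr 1
    rw [sub_zero, Int.toNat_natCast, Nat.cast_div htN ht0.ne']
  have hcellI : ∀ x : Pt d, InBox N x → cell t x ∈ I := by
    intro x hx
    refine Fintype.mem_piFinset.2 fun j => Finset.mem_Ico.2 ⟨?_, ?_⟩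
    · exact Int.ediv_nonneg (hx j).1 (by positivity)
    · have : x j / (t : ℤ) < (N : ℤ) / t := by
        have ht' : (0 : ℤ) < t := by exact_mod_cast ht
        obtain ⟨c, hc⟩ := htN
        rw [hc]
        push_cast
        rw [Int.mul_ediv_cancel_left _ ht'.ne']
        refine Int.ediv_lt_of_lt_mul ht' ?_
        have := (hx j).2
        rw [hc] at this
        push_cast at this
        linarith
      simpa [cell] using this
  set bad : Pt d → Prop := fun k' => ∃ x v : Pt d, InBox N x ∧ cell t x = k' ∧ v ∈ cube x ∧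
    ¬ far v with hbad
  have hKb : ((I.filter bad).card : ℝ) ≤ P.card * (7 * Ds / t) ^ d := by
    refine h3 d t Ds P (I.filter bad) ht hDs htDs ?_
    intro k' hk'
    obtain ⟨x, v, hx, hc, hv, hf⟩ := (Finset.mem_filter.1 hk').2
    refine ⟨x, v, hc, hv, hcov v ?_ hf⟩
    intro j
    have h5 : v j = x j ∨ v j = x j + 1 := by
      have := Fintype.mem_piFinset.1 hv j
      simpa using this
    have := hx j
    omega
  set Y : Pt d → Pt d → Finset (Pt d) := fun k' z =>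
    V.filter (fun y => q2Rep N t B ρ far Q.Φ (Q.K z) (Q.C k') k' y) with hY
  have hYcard : ∀ k' z : Pt d, ((Y k' z).card : ℝ) ≤
      W * (if bad k' then (12 * ((t : ℝ) + 1)) ^ d else (12 * (s + 1)) ^ d) := by
    intro k' z
    by_cases hb : bad k'
    · rw [if_pos hb]
      refine h2 d m B q k (ρ + t) ρc t hd hk hq (by positivity) hρc hBq (by linarith)
        ((Q.K z).filter (fun p => dist p (fun j => (t : ℤ) * k' j) ≤ ρ + t)) (Q.C k')
        (fun j => (t : ℤ) * k' j) ((Finset.card_filter_le _ _).trans (Q.Kcard z)) (Q.Ccard k')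
        (fun p hp => (Finset.mem_filter.1 hp).2) (Q.Cdist k') (Y k' z) ?_
      intro y hy
      exact q2_decomp ht ht0.le (Finset.mem_filter.1 hy).2 (Or.inl le_rfl)
    · rw [if_neg hb]
      refine h2 d m B q k (ρ + t) ρc s hd hk hq (by positivity) hρc hBq hs
        ((Q.K z).filter (fun p => dist p (fun j => (t : ℤ) * k' j) ≤ ρ + t)) (Q.C k')
        (fun j => (t : ℤ) * k' j) ((Finset.card_filter_le _ _).trans (Q.Kcard z)) (Q.Ccard k')
        (fun p hp => (Finset.mem_filter.1 hp).2) (Q.Cdist k') (Y k' z) ?_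
      intro y hy
      refine q2_decomp ht hs0 (Finset.mem_filter.1 hy).2 (Or.inr ?_)
      intro x v hx hc hv
      by_contra hf
      exact hb ⟨x, v, hx, hc, hv, hf⟩
  have hcover : V ⊆ I.biUnion (fun k' => (Zset t s₀ k').biUnion (fun z => Y k' z)) := by
    intro y hy
    have hy' : ∀ j, (h : ℝ) ≤ ((y j : ℤ) : ℝ) ∧ ((y j : ℤ) : ℝ) ≤ N - h := by
      intro j
      have := Finset.mem_Icc.1 (Fintype.mem_piFinset.1 hy j)
      refine ⟨by exact_mod_cast this.1, ?_⟩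
      have h5 : ((y j : ℤ) : ℝ) ≤ (((N : ℤ) - h : ℤ) : ℝ) := by exact_mod_cast this.2
      push_cast at h5
      exact h5
    obtain ⟨x, hx, μ, hμ0, hμ1, hyx⟩ := h1 d N h Q.Φ hN Q.disp (fun j => (y j : ℝ)) hy'
    obtain ⟨z, hz, Cs, hCs, hCB, hv⟩ := Q.main x hx
    refine Finset.mem_biUnion.2 ⟨cell t x, hcellI x hx, Finset.mem_biUnion.2 ⟨z, hz, ?_⟩⟩
    exact Finset.mem_filter.2 ⟨hy, x, hx, rfl, Cs, hCs, hCB, hv, μ, hμ0, hμ1, hyx⟩
  -- final computation
  have hZ : ∀ k' : Pt d, ((Zset t s₀ k').card : ℝ) ≤ 4 ^ d * (t : ℝ) ^ s₀ := by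
    intro k'
    exact_mod_cast h4 d t s₀ k' ht
  have hfin : (V.card : ℝ) ≤ ∑ k' ∈ I, (4 ^ d * (t : ℝ) ^ s₀) *
      (W * (if bad k' then (12 * ((t : ℝ) + 1)) ^ d else (12 * (s + 1)) ^ d)) := by
    have h5 : V.card ≤ ∑ k' ∈ I, ∑ z ∈ Zset t s₀ k', (Y k' z).card :=
      (Finset.card_le_card hcover).trans (Finset.card_biUnion_le.trans
        (Finset.sum_le_sum fun k' _ => Finset.card_biUnion_le))
    have h6 : (V.card : ℝ) ≤ ∑ k' ∈ I, ∑ z ∈ Zset t s₀ k', ((Y k' z).card : ℝ) := by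
      exact_mod_cast h5
    refine h6.trans (Finset.sum_le_sum fun k' _ => ?_)
    refine (Finset.sum_le_sum fun z _ => hYcard k' z).trans ?_
    rw [Finset.sum_const, nsmul_eq_mul]
    refine mul_le_mul_of_nonneg_right (hZ k') ?_
    split_ifs <;> positivity
  refine hVcard.trans (hfin.trans ?_)
  rw [← Finset.mul_sum, ← Finset.mul_sum, mul_assoc _ W]
  refine mul_le_mul_of_nonneg_left (mul_le_mul_of_nonneg_left ?_ hW0) (by positivity)
  rw [← Finset.sum_filter_add_sum_filter_not I bad, add_comm]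
  refine add_le_add ?_ ?_
  · calc ∑ k' ∈ I.filter (fun k' => ¬ bad k'),
          (if bad k' then (12 * ((t : ℝ) + 1)) ^ d else (12 * (s + 1)) ^ d)
        = ∑ k' ∈ I.filter (fun k' => ¬ bad k'), (12 * (s + 1)) ^ d := by
          refine Finset.sum_congr rfl fun k' hk' => ?_
          rw [if_neg (Finset.mem_filter.1 hk').2]
      _ = ((I.filter (fun k' => ¬ bad k')).card : ℝ) * (12 * (s + 1)) ^ d := by
          rw [Finset.sum_const, nsmul_eq_mul]
      _ ≤ ((N : ℝ) / t) ^ d * (12 * (s + 1)) ^ d := by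
          refine mul_le_mul_of_nonneg_right ?_ (by positivity)
          rw [← hIcard]
          exact_mod_cast Finset.card_filter_le _ _
  · calc ∑ k' ∈ I.filter (fun k' => bad k'),
          (if bad k' then (12 * ((t : ℝ) + 1)) ^ d else (12 * (s + 1)) ^ d)
        = ∑ k' ∈ I.filter (fun k' => bad k'), (12 * ((t : ℝ) + 1)) ^ d := by
          refine Finset.sum_congr rfl fun k' hk' => ?_
          rw [if_pos (Finset.mem_filter.1 hk').2]
      _ = ((I.filter (fun k' => bad k')).card : ℝ) * (12 * ((t : ℝ) + 1)) ^ d := by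
          rw [Finset.sum_const, nsmul_eq_mul]
      _ ≤ P.card * (7 * Ds / t) ^ d * (12 * ((t : ℝ) + 1)) ^ d :=
          mul_le_mul_of_nonneg_right hKb (by positivity)

end Pool.Agent.UTSP
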