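import Pool.Agent.Work.MP_27a5a0_lc.Defs

/-!
MP_27a5a0_lc, universal TSP: statements of the items.
-/

namespace Pool.Agent.UTSP

open Finset

/-! ### T: tours in a metric space -/

/-- T1. `cyc` does not increase when the list is filtered (shortcutting). -/
def claimFilter : Prop :=
  ∀ (X : Type) [DecidableEq X] (δ : X → X → ℝ), IsMet δ → ∀ (p : X → Bool) (l : List X),
    cyc δ (l.filter p) ≤ cyc δ l

/-- T2. A separated nodup list with at least two points has large cost; costs are nonnegative. -/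
def claimSepCost : Prop :=
  ∀ (X : Type) [DecidableEq X] (δ : X → X → ℝ), IsMet δ →
    (∀ l : List X, 0 ≤ cyc δ l) ∧
    ∀ (ε : ℝ) (l : List X), l.Nodup → 2 ≤ l.length →
      (∀ x ∈ l, ∀ y ∈ l, x ≠ y → ε ≤ δ x y) → (l.length : ℝ) * ε ≤ cyc δ l

/-- T3. Insertion of a list of new points after a point `s` of `S`. -/
def claimInsert : Prop :=
  ∀ (X : Type) [DecidableEq X] (δ : X → X → ℝ), IsMet δ →
    ∀ (S : Finset X) (σ : List X), IsOrd S σ → ∀ s ∈ S, ∀ (p : X) (γ : List X), (p :: γ).Nodup →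
      (∀ v ∈ p :: γ, v ∉ S) →
      ∃ σ' : List X, IsOrd (S ∪ (p :: γ).toFinset) σ' ∧
        cyc δ σ' ≤ cyc δ σ + 2 * (walk δ (p :: γ) + δ s p)

/-- T4. Gaps of `S` in the tour `τ`: neighbours `a v`, `b v` of the points `v ∉ S`, and the cost of
the restriction to `S` together with a list of new points in pairwise distinct gaps. -/
def claimGap : Prop :=
  ∀ (X : Type) [Fintype X] [DecidableEq X] (δ : X → X → ℝ) (τ : List X),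
    IsOrd (Finset.univ : Finset X) τ → ∀ S : Finset X, 1 ≤ S.card →
    ∃ a b : X → X, (∀ v, v ∉ S → a v ∈ S ∧ b v ∈ S) ∧
      (∀ v w, v ∉ S → w ∉ S → a v = a w → b v = b w) ∧
      ∀ γ : List X, (∀ v ∈ γ, v ∉ S) → (γ.map a).Nodup →
        cyc δ (τ.filter (fun x => decide (x ∈ S ∪ γ.toFinset))) =
          cyc δ (τ.filter (fun x => decide (x ∈ S))) +
            (γ.map (fun v => δ (a v) v + δ v (b v) - δ (a v) (b v))).sum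

/-- T5. Main statement on tours: a set `S` maximising `c(τ|S) - 2 κ opt(S)`. -/
def claimTour : Prop :=
  ∀ (X : Type) [Fintype X] [DecidableEq X] (δ : X → X → ℝ), IsMet δ → ∀ κ : ℝ, 0 < κ →
    ∀ τ : List X, IsOrd (Finset.univ : Finset X) τ → HasRatio δ κ τ →
    ∀ S₀ : Finset X, 2 ≤ S₀.card → ∀ σ₀ : List X, IsOrd S₀ σ₀ →
    ∃ (S : Finset X) (a b : X → X), S₀ ⊆ S ∧ (∀ v, v ∉ S → a v ∈ S ∧ b v ∈ S) ∧
      (∀ v w, v ∉ S → w ∉ S → a v = a w → b v = b w) ∧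
      (∀ (p : X) (γ : List X), (∀ v ∈ p :: γ, v ∉ S) → ((p :: γ).map a).Nodup → ∀ s ∈ S,
        ((p :: γ).map (fun v => δ (a v) v + δ v (b v) - δ (a v) (b v))).sum
          ≤ 4 * κ * (walk δ (p :: γ) + δ s p)) ∧
      (∀ P ⊆ S, 2 ≤ P.card → ∀ ε : ℝ, (∀ x ∈ P, ∀ y ∈ P, x ≠ y → ε ≤ δ x y) →
        (P.card : ℝ) * ε ≤ 2 * cyc δ σ₀)

/-! ### L: the labels of a tour of the snowflaked grid -/

/-- L1. The snowflake inequality, and the snowflake of a metric is a metric. -/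
def claimSnow : Prop :=
  ∀ α : ℝ, 0 < α → α < 1 →
    (∀ x y z : ℝ, 0 ≤ x → 0 ≤ y → 0 ≤ z → z ≤ x + y →
      (1 - α) * (min x y) ^ α ≤ x ^ α + y ^ α - z ^ α) ∧
    ∀ d : ℕ, IsMet (sn (d := d) α)

/-- The embedding of `{0..N}^d`, as a finite type, into the grid. -/
def emb {d N : ℕ} (v : Fin d → Fin (N + 1)) : Pt d := fun j => ((v j : ℕ) : ℤ)

/-- The snowflake metric on `{0..N}^d`. -/
noncomputable def dl (d N : ℕ) (α : ℝ) (v w : Fin d → Fin (N + 1)) : ℝ := sn α (emb v) (emb w)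

/-- L2. From a tour of the snowflaked grid with ratio at most `κ` to the labels. -/
def claimLab : Prop :=
  ∀ (d N D : ℕ) (α κ Ds : ℝ), 1 ≤ d → 1 ≤ D → D ∣ N → 1 ≤ N → 0 < α → α < 1 → 0 < κ →
    0 < Ds → Ds ≤ N →
    (∃ τ : List (Fin d → Fin (N + 1)), IsOrd (Finset.univ : Finset (Fin d → Fin (N + 1))) τ ∧
      HasRatio (dl d N α) κ τ) →
    Nonempty (Lab d N α (4 * κ / (1 - α)) D Ds (2 * ((N / D : ℕ) + 1 : ℝ) ^ d * (N : ℝ) ^ α))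

/-- L3. The near points are covered by few balls. -/
def claimNear : Prop :=
  ∀ (d N : ℕ) (α κ D Ds A : ℝ) (Q : Lab d N α κ D Ds A), 0 < Ds →
    ∃ P : Finset (Pt d), (P.card : ℝ) * Ds ^ α ≤ A ∧
      ∀ v, Box N v → ¬ Q.far v → ∃ p ∈ P, dist v p ≤ 2 * Ds

/-! ### P: pools -/

/-- P1. Small pools of labels. -/
def claimPool : Prop :=
  ∀ (d N : ℕ) (α κ D Ds A : ℝ) (Q : Lab d N α κ D Ds A) (M b : ℕ) (r : ℝ),
    0 < α → 0 < κ → 0 ≤ D → 0 < Ds → 0 ≤ r → 1 ≤ b →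
    2 * κ * D ^ α ≤ M * Ds ^ α → 2 * κ * ((2 * r) ^ α + b) < b * Ds ^ α →
    ∃ U : Pt d → Finset (Pt d), (∀ x, (U x).card ≤ M) ∧
      ∀ x y : Pt d, InBox N y → (∀ v ∈ cube y, dist v x ≤ r) → (Q.sig y \ U x).card < b

open Classical in
/-- P2. Few labels of a cube are seen at vertices with large `u`; and `u` is bounded. -/
def claimOut : Prop :=
  ∀ (d N : ℕ) (α κ D Ds A : ℝ) (Q : Lab d N α κ D Ds A) (b : ℕ) (ρ um : ℝ),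
    0 < α → 0 < κ → 0 ≤ D → 0 < Ds → 0 < ρ → 0 ≤ um → 1 ≤ b →
    κ * (b + D ^ α) < b * ρ ^ α → κ * D ^ α ≤ um ^ α →
    (∀ y : Pt d, InBox N y →
      (((cube y).filter (fun v => Q.far v ∧ ρ ≤ Q.u v)).image Q.a).card < b) ∧
    ∀ v, Q.far v → Q.u v ≤ um

/-! ### A: averaging -/

/-- A1. The pool of the averages is small. -/
def claimAvgPool : Prop :=
  ∀ (d G M : ℕ) (U : Pt d → Finset (Pt d)), (∀ x, (U x).card ≤ M) →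
    ∀ z : Pt d, (pool G U z).card ≤ 4 * M ∧
      ∀ l : Pt d, (2 * G + 1) ^ d ≤ 4 * cnt G U l z → l ∈ pool G U z

/-- A2. Lipschitz property of the averages. -/
def claimAvgLip : Prop :=
  ∀ (d G K : ℕ) (U : Pt d → Finset (Pt d)) (l z z' : Pt d),
    (∑ j, |z j - z' j|) ≤ (K : ℤ) → 4 * K ≤ 2 * G + 1 →
    4 * cnt G U l z ≤ 4 * cnt G U l z' + (2 * G + 1) ^ d

open Classical in
/-- A3. Few labels of a captured set have small average. -/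
def claimAvgCap : Prop :=
  ∀ (d G b : ℕ) (U : Pt d → Finset (Pt d)) (z : Pt d) (σ : Finset (Pt d)),
    (∀ g ∈ ball d G, (σ \ U (z + g)).card < b) →
    (σ.filter (fun l => 4 * cnt G U l z < 3 * (2 * G + 1) ^ d)).card ≤ 4 * b

/-! ### W: windows -/

/-- W1. Properties of the ramp functions. -/
def claimPsi : Prop :=
  ∀ (L w i : ℕ) (y : ℤ), 1 ≤ L → 1 ≤ w → i < L →
    (L : ℤ) * w * (y / ((L : ℤ) * w)) ≤ psi L w i y ∧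
    psi L w i y ≤ (L : ℤ) * w * (y / ((L : ℤ) * w)) + (L : ℤ) * w ∧
    psi L w i y ≤ psi L w i (y + 1) ∧ psi L w i (y + 1) ≤ psi L w i y + L ∧
    (¬ inW L w i y → psi L w i y = (L : ℤ) * w * (y / ((L : ℤ) * w)) ∨
      psi L w i y = (L : ℤ) * w * (y / ((L : ℤ) * w)) + (L : ℤ) * w)

open Classical in
/-- W2. For every cube there is a good window. -/
def claimWin : Prop :=
  ∀ (d L w : ℕ) (y : Pt d), 1 ≤ L → 1 ≤ w →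
    ∃ i < L, L * ((Finset.univ : Finset (Fin d)).filter
      (fun j => inW L w i (y j) ∨ inW L w i (y j + 1))).card ≤ 2 * d

open Classical in
/-- K1. Kept labels of a cube lie in one pool of few possible pools, few labels are not kept. -/
def claimKeep : Prop :=
  ∀ (d N : ℕ) (α κ D Ds A : ℝ) (Q : Lab d N α κ D Ds A) (M b L w G : ℕ) (r ρ : ℝ)
    (U : Pt d → Finset (Pt d)),
    1 ≤ L → 1 ≤ w → 1 ≤ b → 4 * (L * d) ≤ 2 * G + 1 → (1 + L * w + G : ℝ) ≤ r →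
    (∀ x, (U x).card ≤ M) →
    (∀ x y : Pt d, InBox N y → (∀ v ∈ cube y, dist v x ≤ r) → (Q.sig y \ U x).card < b) →
    (∀ y : Pt d, InBox N y →
      (((cube y).filter (fun v => Q.far v ∧ ρ ≤ Q.u v)).image Q.a).card < b) →
    ∀ y : Pt d, InBox N y → ∃ z ∈ Zset (L * w) (2 * d / L) (cell (L * w) y),
      (∀ v ∈ cube y, Q.kept ρ G U L w v → Q.a v ∈ pool G U z) ∧
      (((cube y).filter (fun v => Q.far v ∧ ¬ Q.kept ρ G U L w v)).image Q.a).card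
        ≤ (4 * L + 1) * b

/-! ### C: coarse names -/

/-- C1. Coarse rounding with at most `d + 1` values on every small ball. -/
def claimCoarse : Prop :=
  ∀ (d h₁ : ℕ), 1 ≤ h₁ → ∃ Rd : Pt d → Pt d,
    (∀ e, dist (Rd e) e ≤ ((d + 1) * h₁ : ℕ)) ∧
    ∀ (x : Pt d) (r : ℝ), 4 * r < h₁ → ∃ C : Finset (Pt d), C.card ≤ d + 1 ∧
      ∀ e, dist e x ≤ r → Rd e ∈ C

/-- Z1. Number of possible values of `z` in a cell. -/
def claimZcard : Prop :=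
  ∀ (d t s : ℕ) (k : Pt d), 1 ≤ t → (Zset t s k).card ≤ 4 ^ d * t ^ s

/-- The data of the map `Φ`: for every cube, the image of every vertex is the vertex itself (near
vertices), or one of at most `m` points within `ρ` of it, or one of at most `B` coarse names. -/
structure Nm (d N : ℕ) (t s m B : ℕ) (ρ ρc h : ℝ) (far : Pt d → Prop) where
  Φ : Pt d → Pt d
  K : Pt d → Finset (Pt d)
  C : Pt d → Finset (Pt d)
  disp : ∀ v, Box N v → dist (Φ v) v ≤ h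
  Kcard : ∀ z, (K z).card ≤ m
  Ccard : ∀ k, (C k).card ≤ d + 1
  Cdist : ∀ k, ∀ p ∈ C k, dist p (fun j => (t : ℤ) * k j) ≤ ρc
  main : ∀ y : Pt d, InBox N y → ∃ z ∈ Zset t s (cell t y), ∃ Cs ⊆ C (cell t y), Cs.card ≤ B ∧
    ∀ v ∈ cube y, (¬ far v ∧ Φ v = v) ∨ (Φ v ∈ K z ∧ dist (Φ v) v ≤ ρ) ∨ Φ v ∈ Cs

/-- F1. Construction of `Φ` from the labels. -/
def claimPhi : Prop :=
  ∀ (d N : ℕ) (α κ D Ds A : ℝ) (Q : Lab d N α κ D Ds A) (M b L w G h₁ um : ℕ) (r ρ : ℝ),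
    1 ≤ d → 1 ≤ L → 1 ≤ w → 1 ≤ b → 0 < α → 0 < κ → 0 ≤ D → 0 < Ds → 0 < ρ → 0 ≤ r →
    ρ ≤ um →
    2 * κ * D ^ α ≤ M * Ds ^ α → 2 * κ * ((2 * r) ^ α + b) < b * Ds ^ α →
    κ * (b + D ^ α) < b * ρ ^ α → κ * D ^ α ≤ (um : ℝ) ^ α →
    4 * (L * d) ≤ 2 * G + 1 → (1 + L * w + G : ℝ) ≤ r →
    4 * (L * w + um) < h₁ →
    Nonempty (Nm d N (L * w) (2 * d / L) (8 * M) (2 * ((4 * L + 1) * b)) ρ
      (((d + 1) * h₁ + um + L * w : ℕ) : ℝ) (((d + 1) * h₁ + um : ℕ) : ℝ) Q.far)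

/-! ### B: topology -/

/-- B1. Every point of the inner box is an average of the images of the vertices of a cube. -/
def claimTopo : Prop :=
  ∀ (d N : ℕ) (h : ℝ) (Φ : Pt d → Pt d), 1 ≤ N → (∀ v, Box N v → dist (Φ v) v ≤ h) →
    ∀ y : Fin d → ℝ, (∀ j, h ≤ y j ∧ y j ≤ N - h) →
    ∃ x : Pt d, InBox N x ∧ ∃ μ : Pt d → ℝ, (∀ v, 0 ≤ μ v) ∧ (∑ v ∈ cube x, μ v) = 1 ∧
      ∀ j, y j = ∑ v ∈ cube x, μ v * (Φ v j : ℝ)

/-! ### M: counting -/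

/-- M1. Maurey's lemma: an average of points of `K` is approximated by averages of `k` points. -/
def claimMaurey : Prop :=
  ∀ (d : ℕ) (K : Finset (Fin d → ℝ)) (r : ℝ), 0 ≤ r → (∀ p ∈ K, ∑ j, p j ^ 2 ≤ r ^ 2) →
    ∀ μ : (Fin d → ℝ) → ℝ, (∀ p ∈ K, 0 ≤ μ p) → (∑ p ∈ K, μ p) ≤ 1 →
    ∀ k : ℕ, 1 ≤ k → ∃ f : Fin k → Fin d → ℝ, (∀ i, f i ∈ insert 0 K) ∧
      ∑ j, ((∑ p ∈ K, μ p * p j) - (∑ i, f i j) / k) ^ 2 ≤ (2 * r) ^ 2 / k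

/-- M2. Number of lattice points in the sum of a Euclidean ball and a cube. -/
def claimLat : Prop :=
  ∀ (d : ℕ) (s : ℝ), 0 < s → ∀ (Y : Finset (Pt d)) (y₀ : Fin d → ℝ),
    (∀ y ∈ Y, ∃ w c : Fin d → ℝ, (∀ j, (y j : ℝ) = y₀ j + w j + c j ∧ 0 ≤ c j ∧ c j ≤ s) ∧
      ∑ j, w j ^ 2 ≤ s ^ 2 * d) →
    (Y.card : ℝ) ≤ (12 * (s + 1)) ^ d

/-- M3. Number of lattice points obtained from one pool, one set of coarse names, and a box. -/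
def claimCell : Prop :=
  ∀ (d m B q k : ℕ) (ρ ρc s : ℝ), 1 ≤ d → 1 ≤ k → 1 ≤ q → 0 ≤ ρ → 0 ≤ ρc → B * ρc ≤ q →
    2 * ρ / Real.sqrt k + 1 ≤ s →
    ∀ (K C : Finset (Pt d)) (c : Pt d), K.card ≤ m → C.card ≤ d + 1 →
      (∀ p ∈ K, dist p c ≤ ρ) → (∀ p ∈ C, dist p c ≤ ρc) →
    ∀ Y : Finset (Pt d), (∀ y ∈ Y, ∃ (μ ν : Pt d → ℝ) (Cs : Finset (Pt d)) (x : Fin d → ℝ),
      Cs ⊆ C ∧ Cs.card ≤ B ∧ (∀ p, 0 ≤ μ p) ∧ (∀ p, 0 ≤ ν p) ∧ (∑ p ∈ K, μ p) ≤ 1 ∧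
      (∑ p ∈ Cs, ν p) ≤ 1 ∧ (∀ j, 0 ≤ x j ∧ x j ≤ s) ∧
      ∀ j, ((y j : ℝ) - c j) = (∑ p ∈ K, μ p * ((p j : ℝ) - c j)) +
        (∑ p ∈ Cs, ν p * ((p j : ℝ) - c j)) + x j) →
    (Y.card : ℝ) ≤ ((m + 1 : ℝ) ^ k * 2 ^ (d + 1) * (q + 1 : ℝ) ^ B) * (12 * (s + 1)) ^ d

/-- Q1. Number of bad cells. -/
def claimBad : Prop :=
  ∀ (d t : ℕ) (Ds : ℝ) (P Kb : Finset (Pt d)), 1 ≤ t → 0 < Ds → 2 * (t : ℝ) + 2 ≤ 3 * Ds →
    (∀ k ∈ Kb, ∃ y v : Pt d, cell t y = k ∧ v ∈ cube y ∧ ∃ p ∈ P, dist v p ≤ 2 * Ds) →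
    (Kb.card : ℝ) ≤ P.card * (7 * Ds / t) ^ d

/-- Q2. The counting inequality. -/
def claimCount : Prop :=
  ∀ (d N t s₀ m B q k : ℕ) (h : ℕ) (ρ ρc s Ds : ℝ) (far : Pt d → Prop) (P : Finset (Pt d)),
    1 ≤ d → 1 ≤ t → t ∣ N → 1 ≤ N → 2 * h ≤ N → 1 ≤ k → 1 ≤ q → 0 ≤ ρ → 0 ≤ ρc → 0 < Ds →
    2 * (t : ℝ) + 2 ≤ 3 * Ds → B * ρc ≤ q → 2 * (ρ + t) / Real.sqrt k + 1 ≤ s → s ≤ t →
    (∀ v, Box N v → ¬ far v → ∃ p ∈ P, dist v p ≤ 2 * Ds) →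
    Nonempty (Nm d N t s₀ m B ρ ρc h far) →
    ((N : ℝ) - 2 * h) ^ d ≤ (4 ^ d * (t : ℝ) ^ s₀) *
      ((m + 1 : ℝ) ^ k * 2 ^ (d + 1) * (q + 1 : ℝ) ^ B) *
      (((N : ℝ) / t) ^ d * (12 * (s + 1)) ^ d + P.card * (7 * Ds / t) ^ d * (12 * (t + 1)) ^ d)

/-! ### N: numbers. All parameters are powers of the integer `J`; `m`, `a` are fixed. -/

/-- exponent of `κ / d` -/
def kp (m a : ℕ) : ℕ := (m - 1) * a - 3
/-- exponent of the dimension `d` -/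
def pp (m a : ℕ) : ℕ := 4 * m * a + 2 * m + 3
/-- exponent of the cell side `t` -/
def et (m a : ℕ) : ℕ := m * (pp m a + 2)
/-- exponent of `Ds` -/
def es (m a : ℕ) : ℕ := et m a + m * a
/-- exponent of the net spacing `D` -/
def eD (m a : ℕ) : ℕ := es m a + m
/-- exponent of `ρ` -/
def er (m a : ℕ) : ℕ := eD m a + m * a
/-- exponent of `um` -/
def eu (m a : ℕ) : ℕ := eD m a + m * (kp m a + pp m a + 1)
/-- exponent of `N` -/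
def eN (m a : ℕ) : ℕ := pp m a + eu m a + 2

/-- N1. The conditions of `claimPhi`, with `κ' = 4 κ / (1 - α) = 4 m κ`, `κ = J ^ (kp + pp)`. -/
def claimNumPhi : Prop :=
  ∀ m a : ℕ, 2 ≤ m → 4 ≤ (m - 1) * a → ∀ᶠ J : ℕ in Filter.atTop,
    4 * (J : ℝ) ^ (kp m a + pp m a) / (1 - ((m : ℝ) - 1) / m) =
      4 * m * (J : ℝ) ^ (kp m a + pp m a) ∧
    2 * (4 * m * (J : ℝ) ^ (kp m a + pp m a)) * ((J : ℝ) ^ eD m a) ^ (((m : ℝ) - 1) / m) ≤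
      ((J ^ (kp m a + pp m a + m) : ℕ) : ℝ) * ((J : ℝ) ^ es m a) ^ (((m : ℝ) - 1) / m) ∧
    2 * (4 * m * (J : ℝ) ^ (kp m a + pp m a)) *
        ((2 * (3 * (J : ℝ) ^ et m a)) ^ (((m : ℝ) - 1) / m) + ((J ^ (pp m a - 2) : ℕ) : ℝ)) <
      ((J ^ (pp m a - 2) : ℕ) : ℝ) * ((J : ℝ) ^ es m a) ^ (((m : ℝ) - 1) / m) ∧
    (4 * m * (J : ℝ) ^ (kp m a + pp m a)) *
        (((J ^ (pp m a - 2) : ℕ) : ℝ) + ((J : ℝ) ^ eD m a) ^ (((m : ℝ) - 1) / m)) <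
      ((J ^ (pp m a - 2) : ℕ) : ℝ) * ((J : ℝ) ^ er m a) ^ (((m : ℝ) - 1) / m) ∧
    (4 * m * (J : ℝ) ^ (kp m a + pp m a)) * ((J : ℝ) ^ eD m a) ^ (((m : ℝ) - 1) / m) ≤
      (((J ^ eu m a : ℕ) : ℝ)) ^ (((m : ℝ) - 1) / m) ∧
    4 * (J * J ^ pp m a) ≤ 2 * J ^ et m a + 1 ∧
    (1 + J * ((J ^ (et m a - 1) : ℕ) : ℝ) + ((J ^ et m a : ℕ) : ℝ)) ≤ 3 * (J : ℝ) ^ et m a ∧
    4 * (J * J ^ (et m a - 1) + J ^ eu m a) < J ^ (eu m a + 1)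

/-- The displacement bound `h` in terms of `J`. -/
def hJ (m a J : ℕ) : ℕ := (J ^ pp m a + 1) * J ^ (eu m a + 1) + J ^ eu m a

/-- N2. The conditions of `claimCount`, and the counting inequality fails. -/
def claimNumCount : Prop :=
  ∀ m a : ℕ, 2 ≤ m → 4 ≤ (m - 1) * a → ∀ᶠ J : ℕ in Filter.atTop,
    2 * hJ m a J ≤ J ^ eN m a ∧
    2 * ((J * J ^ (et m a - 1) : ℕ) : ℝ) + 2 ≤ 3 * (J : ℝ) ^ es m a ∧
    ((2 * ((4 * J + 1) * J ^ (pp m a - 2)) : ℕ) : ℝ) *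
      ((hJ m a J + J * J ^ (et m a - 1) : ℕ) : ℝ) ≤ ((J ^ (2 * pp m a + eu m a + 1) : ℕ) : ℝ) ∧
    2 * ((J : ℝ) ^ er m a + ((J * J ^ (et m a - 1) : ℕ) : ℝ)) /
      Real.sqrt ((J ^ (pp m a - 1) : ℕ) : ℝ) + 1 ≤ 5 * (J : ℝ) ^ (et m a - 1) ∧
    5 * (J : ℝ) ^ (et m a - 1) ≤ ((J * J ^ (et m a - 1) : ℕ) : ℝ) ∧
    ∀ p : ℝ, 0 ≤ p → p * ((J : ℝ) ^ es m a) ^ (((m : ℝ) - 1) / m) ≤
      2 * ((J ^ eN m a / J ^ eD m a : ℕ) + 1 : ℝ) ^ (J ^ pp m a) *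
        ((J ^ eN m a : ℕ) : ℝ) ^ (((m : ℝ) - 1) / m) →
      (4 ^ (J ^ pp m a) * ((J * J ^ (et m a - 1) : ℕ) : ℝ) ^ (2 * J ^ pp m a / J)) *
      ((((8 * J ^ (kp m a + pp m a + m) : ℕ) : ℝ) + 1) ^ (J ^ (pp m a - 1)) *
        2 ^ (J ^ pp m a + 1) * (((J ^ (2 * pp m a + eu m a + 1) : ℕ) : ℝ) + 1) ^
          (2 * ((4 * J + 1) * J ^ (pp m a - 2)))) *
      ((((J ^ eN m a : ℕ) : ℝ) / ((J * J ^ (et m a - 1) : ℕ) : ℝ)) ^ (J ^ pp m a) *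
          (12 * (5 * (J : ℝ) ^ (et m a - 1) + 1)) ^ (J ^ pp m a) +
        p * (7 * (J : ℝ) ^ es m a / ((J * J ^ (et m a - 1) : ℕ) : ℝ)) ^ (J ^ pp m a) *
          (12 * (((J * J ^ (et m a - 1) : ℕ) : ℝ) + 1)) ^ (J ^ pp m a)) <
      (((J ^ eN m a : ℕ) : ℝ) - 2 * ((hJ m a J : ℕ) : ℝ)) ^ (J ^ pp m a)

/-- N3. Comparison of `κ` with `log n`. -/
def claimNumLog : Prop :=
  ∀ c : ℝ, 0 < c → c < 1 / 4 → ∃ m a : ℕ, 2 ≤ m ∧ 4 ≤ (m - 1) * a ∧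
    ∀ᶠ J : ℕ in Filter.atTop,
      Real.log ((((J + 1) ^ eN m a + 1) ^ ((J + 1) ^ pp m a) : ℕ) : ℝ) ^ (1 + c) ≤
        (J : ℝ) ^ (kp m a + pp m a)

/-! ### E: extension to all `n` -/

/-- E1. From one metric space without good tours to a lower bound on `R n`. -/
def claimExt : Prop :=
  ∀ (X : Type) [Fintype X] [DecidableEq X] (δ : X → X → ℝ), IsMet δ → ∀ κ : ℝ, 0 ≤ κ →
    NoTour δ κ → ∀ n : ℕ, Fintype.card X ≤ n → ENNReal.ofReal κ ≤ R n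

/-- The final statement. -/
def claimFinal : Prop :=
  ∀ c : ℝ, 0 < c → c < 1 / 4 → ∀ᶠ n : ℕ in Filter.atTop,
    ENNReal.ofReal (Real.log n ^ (1 + c)) ≤ R n

end Pool.Agent.UTSP
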